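import Pool.Agent.H728R2.BL.Defs2
/-!
# Transport of sets of levels and of polynomials (task B0E)
-/

namespace Pool.Agent.H728R2.BL

open MeasureTheory Set Filter Topology Pool.Agent.H691R3.SL
open scoped Real BigOperators

noncomputable section

theorem B0E_aux_e_add (x y : ℝ) : e (x + y) = e x * e y := by
  unfold e
  rw [← Complex.exp_add]
  congr 1
  push_cast
  ring

theorem B0E_aux_disj {L L' : Lev} (σ : DStep L L') (A : L.Θ → Finset ℕ)
    (hA : ∀ c, ∀ a ∈ A c, a < L.h) (c' : L'.Θ) (i j : Fin σ.M) (hij : i ≠ j) :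
    Disjoint ((A (σ.cl i)).image (fun a => σ.pos c' i + a))
      ((A (σ.cl j)).image (fun a => σ.pos c' j + a)) := by
  rw [Finset.disjoint_left]
  intro n hn hn'
  rw [Finset.mem_image] at hn hn'
  obtain ⟨a, ha, rfl⟩ := hn
  obtain ⟨b, hb, hab⟩ := hn'
  have h1 := hA _ a ha
  have h2 := hA _ b hb
  rcases lt_or_gt_of_ne hij with h | h
  · have := σ.sep c' i j h
    omega
  · have := σ.sep c' j i h
    omega

theorem B0E_aux_pair {L L' : Lev} (σ : DStep L L') (A : L.Θ → Finset ℕ)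
    (hA : ∀ c, ∀ a ∈ A c, a < L.h) (c' : L'.Θ) :
    Set.PairwiseDisjoint (↑(Finset.univ : Finset (Fin σ.M)))
      (fun i => (A (σ.cl i)).image (fun a => σ.pos c' i + a)) := by
  intro i _ j _ hij
  exact B0E_aux_disj σ A hA c' i j hij

theorem B0E_aux_pol {L L' : Lev} (σ : DStep L L') (A : L.Θ → Finset ℕ)
    (hA : ∀ c, ∀ a ∈ A c, a < L.h) (c' : L'.Θ) (x : ℝ) :
    pol (σ.pushS A c') x = σ.push (fun c => pol (A c)) c' x := by
  unfold DStep.pushS DStep.push pol
  rw [Finset.sum_biUnion (B0E_aux_pair σ A hA c')]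
  refine Finset.sum_congr rfl fun i _ => ?_
  rw [Finset.sum_image (fun a _ b _ h => by simpa using h), Finset.mul_sum]
  refine Finset.sum_congr rfl fun a _ => ?_
  rw [← B0E_aux_e_add]
  congr 1
  push_cast
  ring

theorem B0E_aux_card {L L' : Lev} (σ : DStep L L') (A : L.Θ → Finset ℕ)
    (hA : ∀ c, ∀ a ∈ A c, a < L.h) (c' : L'.Θ) :
    (σ.pushS A c').card = ∑ i, (A (σ.cl i)).card := by
  unfold DStep.pushS
  rw [Finset.card_biUnion (fun i _ j _ hij => B0E_aux_disj σ A hA c' i j hij)]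
  refine Finset.sum_congr rfl fun i _ => ?_
  exact Finset.card_image_of_injective _ (fun a b h => by simpa using h)

theorem B0E_aux_height {L L' : Lev} (σ : DStep L L') (c' : L'.Θ) (i : Fin σ.M) :
    (i : ℕ) * L.h ≤ σ.pos c' i := by
  obtain ⟨n, hn⟩ := i
  induction n with
  | zero => simp
  | succ n ih =>
    have h1 := ih (by omega)
    have h2 := σ.sep c' ⟨n, by omega⟩ ⟨n + 1, hn⟩ (by simp [Fin.lt_def])
    have h3 : (n + 1) * L.h = n * L.h + L.h := by ring
    simp only at h1 ⊢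
    omega

/-- B0e: transport of sets and of polynomials -/
theorem push_basic {L L' : Lev} (σ : DStep L L') (A : L.Θ → Finset ℕ)
    (hA : ∀ c, ∀ a ∈ A c, a < L.h) (hne : ∀ c, (A c).Nonempty) :
    (∀ c' x, pol (σ.pushS A c') x = σ.push (fun c => pol (A c)) c' x) ∧
    (∀ c', ∀ a ∈ σ.pushS A c', a < L'.h) ∧ (∀ c', (σ.pushS A c').Nonempty) ∧
    (L'.β * ∑ c', ((σ.pushS A c').card : ℝ) = L.β * ∑ c, ((A c).card : ℝ)) ∧
    L.mass ≤ L'.mass := by
  have hM := σ.hM
  refine ⟨fun c' x => B0E_aux_pol σ A hA c' x, ?_, ?_, ?_, ?_⟩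
  · intro c' a ha
    unfold DStep.pushS at ha
    rw [Finset.mem_biUnion] at ha
    obtain ⟨i, -, hi⟩ := ha
    rw [Finset.mem_image] at hi
    obtain ⟨b, hb, rfl⟩ := hi
    have h1 := hA _ b hb
    have h2 := σ.top c' i
    omega
  · intro c'
    unfold DStep.pushS
    rw [Finset.biUnion_nonempty]
    exact ⟨⟨0, by omega⟩, Finset.mem_univ _, (hne _).image _⟩
  · have hcard : ∀ c', ((σ.pushS A c').card : ℝ) = ∑ i, ((A (σ.cl i)).card : ℝ) := by
      intro c'
      rw [B0E_aux_card σ A hA c']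
      push_cast
      rfl
    have hsum : (∑ i : Fin σ.M, ((A (σ.cl i)).card : ℝ)) * Fintype.card L.Θ
        = σ.M * ∑ c, ((A c).card : ℝ) := by
      have h1 : (∑ i : Fin σ.M, ((A (σ.cl i)).card : ℝ))
          = ∑ c, ((Finset.univ.filter fun i => σ.cl i = c).card : ℝ) * ((A c).card : ℝ) := by
        rw [← Finset.sum_fiberwise (s := (Finset.univ : Finset (Fin σ.M))) (g := σ.cl)
          (f := fun i => ((A (σ.cl i)).card : ℝ))]
        refine Finset.sum_congr rfl fun c _ => ?_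
        rw [Finset.sum_congr rfl (g := fun _ => ((A c).card : ℝ))]
        · rw [Finset.sum_const, nsmul_eq_mul]
        · intro i hi
          rw [Finset.mem_filter] at hi
          rw [hi.2]
      rw [h1, Finset.sum_mul, Finset.mul_sum]
      refine Finset.sum_congr rfl fun c _ => ?_
      have h2 : ((Finset.univ.filter fun i => σ.cl i = c).card : ℝ) * Fintype.card L.Θ = σ.M := by
        exact_mod_cast σ.bal c
      rw [← h2]
      ring
    have hΘ : (0 : ℝ) < Fintype.card L.Θ := by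
      exact_mod_cast Fintype.card_pos
    have hMr : (0 : ℝ) < σ.M := by
      have : 0 < σ.M := by omega
      exact_mod_cast this
    have e1 : ∑ c', ((σ.pushS A c').card : ℝ)
        = Fintype.card L'.Θ * ∑ i, ((A (σ.cl i)).card : ℝ) := by
      rw [Finset.sum_congr rfl (fun c' _ => hcard c'), Finset.sum_const, nsmul_eq_mul,
        Finset.card_univ]
    rw [e1]
    have hβ := σ.hβ
    have key : (L'.β * (Fintype.card L'.Θ * ∑ i, ((A (σ.cl i)).card : ℝ))) * (Fintype.card L.Θ)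
        = (L.β * ∑ c, ((A c).card : ℝ)) * (Fintype.card L.Θ) := by
      calc (L'.β * (Fintype.card L'.Θ * ∑ i, ((A (σ.cl i)).card : ℝ))) * (Fintype.card L.Θ)
          = L'.β * Fintype.card L'.Θ * ((∑ i, ((A (σ.cl i)).card : ℝ)) * Fintype.card L.Θ) := by
            ring
        _ = L'.β * Fintype.card L'.Θ * (σ.M * ∑ c, ((A c).card : ℝ)) := by rw [hsum]
        _ = (L'.β * σ.M * Fintype.card L'.Θ) * ∑ c, ((A c).card : ℝ) := by ring
        _ = (L.β * Fintype.card L.Θ) * ∑ c, ((A c).card : ℝ) := by rw [hβ]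
        _ = (L.β * ∑ c, ((A c).card : ℝ)) * (Fintype.card L.Θ) := by ring
    exact mul_right_cancel₀ hΘ.ne' key
  · unfold Lev.mass
    have hβ := σ.hβ
    obtain ⟨c'⟩ := L'.ne
    have h1 : (σ.M : ℕ) * L.h ≤ L'.h := by
      have h2 := B0E_aux_height σ c' ⟨σ.M - 1, by omega⟩
      have h3 := σ.top c' ⟨σ.M - 1, by omega⟩
      simp only at h2
      have h4 : σ.M * L.h = (σ.M - 1) * L.h + L.h := by
        obtain ⟨k, hk⟩ : ∃ k, σ.M = k + 1 := ⟨σ.M - 1, by omega⟩
        rw [hk]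
        simp only [Nat.add_sub_cancel]
        ring
      omega
    have h1r : (σ.M : ℝ) * L.h ≤ L'.h := by exact_mod_cast h1
    rw [← hβ]
    have hpos : 0 ≤ L'.β * Fintype.card L'.Θ := mul_nonneg L'.βpos.le (Nat.cast_nonneg _)
    calc L'.β * σ.M * Fintype.card L'.Θ * L.h
        = L'.β * Fintype.card L'.Θ * (σ.M * L.h) := by ring
      _ ≤ L'.β * Fintype.card L'.Θ * L'.h := mul_le_mul_of_nonneg_left h1r hpos

end

end Pool.Agent.H728R2.BL
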