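import Pool.Agent.H728R2.BL.Defs2
/-!
# B0: basic facts on the characters
-/

namespace Pool.Agent.H728R2.BL

open MeasureTheory Set Filter Topology Pool.Agent.H691R3.SL
open scoped Real BigOperators

noncomputable section

theorem B0_add (x y : ℝ) : e (x + y) = e x * e y := by
  unfold e
  rw [← Complex.exp_add]
  congr 1
  push_cast
  ring

theorem B0_zero : e 0 = 1 := by
  unfold e
  simp

theorem B0_eq (x : ℝ) : e x = Complex.exp (((2 * π * x : ℝ) : ℂ) * Complex.I) := by
  unfold e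
  push_cast
  rfl

theorem B0_norm (x : ℝ) : ‖e x‖ = 1 := by
  rw [B0_eq, Complex.norm_exp_ofReal_mul_I]

theorem B0_int (n : ℤ) : e n = 1 := by
  unfold e
  have h := Complex.exp_int_mul_two_pi_mul_I n
  rw [← h]
  congr 1
  push_cast
  ring

theorem B0_cont : Continuous e := by
  unfold e
  fun_prop

theorem B0_conj (x : ℝ) : starRingEnd ℂ (e x) = e (-x) := by
  rw [B0_eq, B0_eq, ← Complex.exp_conj]
  congr 1
  rw [map_mul, Complex.conj_ofReal, Complex.conj_I]
  push_cast
  ring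

theorem B0_integral (n : ℤ) : ∫ x in (0:ℝ)..1, e (n * x) = if n = 0 then 1 else 0 := by
  split_ifs with hn
  · subst hn
    simp [B0_zero]
  · have hc : (2 * π * n * Complex.I : ℂ) ≠ 0 := by
      have hn' : (n : ℂ) ≠ 0 := by exact_mod_cast hn
      have hp : (π : ℂ) ≠ 0 := by exact_mod_cast Real.pi_ne_zero
      exact mul_ne_zero (mul_ne_zero (mul_ne_zero two_ne_zero hp) hn') Complex.I_ne_zero
    have h1 : ∀ x : ℝ, e (n * x) = Complex.exp ((2 * π * n * Complex.I : ℂ) * x) := by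
      intro x
      unfold e
      congr 1
      push_cast
      ring
    simp_rw [h1]
    rw [integral_exp_mul_complex hc]
    have h2 : Complex.exp ((2 * π * n * Complex.I : ℂ) * ((1 : ℝ) : ℂ)) = 1 := by
      rw [← Complex.exp_int_mul_two_pi_mul_I n]
      congr 1
      push_cast
      ring
    have h3 : Complex.exp ((2 * π * n * Complex.I : ℂ) * ((0 : ℝ) : ℂ)) = 1 := by simp
    rw [h2, h3, sub_self, zero_div]

/-- B0a -/
theorem e_basic : (∀ x y, e (x + y) = e x * e y) ∧ e 0 = 1 ∧ (∀ x, ‖e x‖ = 1) ∧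
    (∀ n : ℤ, e n = 1) ∧ Continuous e ∧ (∀ x, starRingEnd ℂ (e x) = e (-x)) ∧
    (∀ n : ℤ, ∫ x in (0:ℝ)..1, e (n * x) = if n = 0 then 1 else 0) :=
  ⟨B0_add, B0_zero, B0_norm, B0_int, B0_cont, B0_conj, B0_integral⟩

theorem B0_W (x : ℝ) : W x = 2 - 2 * cs 1 x := by
  unfold W cs
  rw [B0_eq, Complex.exp_mul_I, ← Complex.ofReal_cos, ← Complex.ofReal_sin]
  have h1 : (2 * π * ((1 : ℤ) : ℝ) * x) = 2 * π * x := by push_cast; ring
  rw [h1, ← Complex.normSq_eq_norm_sq, Complex.normSq_apply]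
  simp only [Complex.sub_re, Complex.add_re, Complex.ofReal_re, Complex.mul_re, Complex.I_re,
    Complex.ofReal_im, Complex.I_im, Complex.one_re, Complex.sub_im, Complex.add_im,
    Complex.mul_im, Complex.one_im]
  have := Real.sin_sq_add_cos_sq (2 * π * x)
  nlinarith

/-- B0b -/
theorem W_basic : (∀ x, W x = 2 - 2 * cs 1 x) ∧ (∀ x, 0 ≤ W x) ∧ (∀ x, W x ≤ 4) ∧ Continuous W ∧
    TPpos W := by
  have h0 : ∀ x, 0 ≤ W x := fun x => sq_nonneg _
  refine ⟨B0_W, h0, ?_, ?_, h0, 2, fun j => if j = 0 then 2 else -2, ?_⟩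
  · intro x
    rw [B0_W]
    have := Real.neg_one_le_cos (2 * π * ((1 : ℤ) : ℝ) * x)
    unfold cs
    linarith
  · unfold W
    exact ((B0_cont.sub continuous_const).norm).pow 2
  · intro x
    rw [B0_W]
    unfold tp
    rw [Finset.sum_range_succ, Finset.sum_range_one]
    have : cs ((0 : ℕ) : ℤ) x = 1 := by
      unfold cs
      simp
    rw [this]
    simp
    ring

theorem B0_pol (A : Finset ℕ) (x : ℝ) : ((‖pol A x‖ ^ 2 : ℝ) : ℂ) =
    ∑ a ∈ A, ∑ b ∈ A, e ((((a : ℤ) - (b : ℤ) : ℤ) : ℝ) * x) := by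
  rw [← Complex.normSq_eq_norm_sq, ← Complex.mul_conj]
  unfold pol
  rw [map_sum, Finset.sum_mul_sum]
  apply Finset.sum_congr rfl
  intro a _
  apply Finset.sum_congr rfl
  intro b _
  rw [B0_conj, ← B0_add]
  congr 1
  push_cast
  ring

theorem B0_cont' (c : ℝ) : Continuous fun x : ℝ => e (c * x) :=
  B0_cont.comp (continuous_const.mul continuous_id)

/-- B0f: norm of a set of levels -/
theorem pol_norm (A : Finset ℕ) : ∫ x in (0:ℝ)..1, ‖pol A x‖ ^ 2 = A.card := by
  have h1 : ((∫ x in (0:ℝ)..1, ‖pol A x‖ ^ 2 : ℝ) : ℂ) = ((A.card : ℝ) : ℂ) := by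
    rw [← intervalIntegral.integral_ofReal]
    simp_rw [B0_pol]
    rw [intervalIntegral.integral_finsetSum fun a _ => ?_]
    · have h2 : ∀ a ∈ A, (∫ x in (0:ℝ)..1, ∑ b ∈ A, e ((((a : ℤ) - (b : ℤ) : ℤ) : ℝ) * x)) = 1 := by
        intro a ha
        rw [intervalIntegral.integral_finsetSum fun b _ => (B0_cont' _).intervalIntegrable _ _]
        simp_rw [B0_integral]
        rw [Finset.sum_eq_single a]
        · simp
        · intro b _ hb
          rw [if_neg]
          omega
        · intro h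
          exact absurd ha h
      rw [Finset.sum_congr rfl h2]
      simp
    · exact (continuous_finsetSum _ fun b _ => B0_cont' _).intervalIntegrable _ _
  exact_mod_cast h1

end

end Pool.Agent.H728R2.BL
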