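import Pool.Agent.H728R2.BL.Defs2
/-!
# Project BL, task B0D: evaluation of trigonometric polynomials
-/

namespace Pool.Agent.H728R2.BL

open MeasureTheory Set Filter Topology Pool.Agent.H691R3.SL
open scoped Real BigOperators

theorem B0D_e_add (x y : ℝ) : e (x + y) = e x * e y := by
  unfold e
  rw [← Complex.exp_add]
  congr 1
  push_cast
  ring

theorem B0D_e_zero : e 0 = 1 := by
  unfold e
  simp

theorem B0D_e_norm (x : ℝ) : ‖e x‖ = 1 := by
  unfold e
  have h : 2 * (π : ℂ) * x * Complex.I = ((2 * π * x : ℝ) : ℂ) * Complex.I := by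
    push_cast
    ring
  rw [h, Complex.norm_exp_ofReal_mul_I]

theorem B0D_e_cont : Continuous e := by
  unfold e
  fun_prop

theorem B0D_e_pow (x : ℝ) (n : ℕ) : e (n * x) = e x ^ n := by
  induction n with
  | zero => simp [B0D_e_zero]
  | succ n ih =>
    rw [pow_succ, ← ih, ← B0D_e_add]
    congr 1
    push_cast
    ring

theorem B0D_ev_zero (x : ℝ) : ev 0 x = 0 := by
  unfold ev
  rw [Finsupp.sum_zero_index]

theorem B0D_ev_add (p q : ℤ →₀ ℂ) (x : ℝ) : ev (p + q) x = ev p x + ev q x := by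
  unfold ev
  rw [Finsupp.sum_add_index']
  · intro n; rw [zero_mul]
  · intro n a b; rw [add_mul]

theorem B0D_ev_single (n : ℤ) (a : ℂ) (x : ℝ) : ev (Finsupp.single n a) x = a * e (n * x) := by
  unfold ev
  rw [Finsupp.sum_single_index]
  rw [zero_mul]

theorem B0D_ev_mul (p q : ℤ →₀ ℂ) : ∃ r : ℤ →₀ ℂ, ∀ x, ev r x = ev p x * ev q x := by
  induction p using Finsupp.induction_linear with
  | zero => exact ⟨0, fun x => by rw [B0D_ev_zero, zero_mul]⟩
  | add f g hf hg =>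
    obtain ⟨r, hr⟩ := hf
    obtain ⟨s, hs⟩ := hg
    exact ⟨r + s, fun x => by rw [B0D_ev_add, B0D_ev_add, hr, hs, add_mul]⟩
  | single n a =>
    induction q using Finsupp.induction_linear with
    | zero => exact ⟨0, fun x => by rw [B0D_ev_zero, mul_zero]⟩
    | add f g hf hg =>
      obtain ⟨r, hr⟩ := hf
      obtain ⟨s, hs⟩ := hg
      exact ⟨r + s, fun x => by rw [B0D_ev_add, B0D_ev_add, hr, hs, mul_add]⟩
    | single k b =>
      refine ⟨Finsupp.single (n + k) (a * b), fun x => ?_⟩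
      rw [B0D_ev_single, B0D_ev_single, B0D_ev_single, show ((n + k : ℤ) : ℝ) * x =
        n * x + k * x by push_cast; ring, B0D_e_add]
      ring

theorem B0D_ev_const_mul (c : ℂ) (p : ℤ →₀ ℂ) : ∃ r : ℤ →₀ ℂ, ∀ x, ev r x = c * ev p x := by
  obtain ⟨r, hr⟩ := B0D_ev_mul (Finsupp.single 0 c) p
  refine ⟨r, fun x => ?_⟩
  rw [hr, B0D_ev_single]
  simp [B0D_e_zero]

theorem B0D_ev_sum {ι : Type} (s : Finset ι) (f : ι → ℝ → ℂ)
    (h : ∀ i ∈ s, ∃ r : ℤ →₀ ℂ, ∀ x, ev r x = f i x) :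
    ∃ r : ℤ →₀ ℂ, ∀ x, ev r x = ∑ i ∈ s, f i x := by
  classical
  induction s using Finset.induction_on with
  | empty => exact ⟨0, fun x => by rw [B0D_ev_zero, Finset.sum_empty]⟩
  | insert i s hi ih =>
    obtain ⟨r, hr⟩ := h i (Finset.mem_insert_self _ _)
    obtain ⟨t, ht⟩ := ih fun j hj => h j (Finset.mem_insert_of_mem hj)
    exact ⟨r + t, fun x => by rw [B0D_ev_add, hr, ht, Finset.sum_insert hi]⟩

theorem B0D_ev_cs (a : ℝ) (k : ℤ) :
    ∃ r : ℤ →₀ ℂ, ∀ x, ev r x = ((a * cs k x : ℝ) : ℂ) := by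
  refine ⟨Finsupp.single k ((a : ℂ) / 2) + Finsupp.single (-k) ((a : ℂ) / 2), fun x => ?_⟩
  rw [B0D_ev_add, B0D_ev_single, B0D_ev_single]
  unfold cs e
  push_cast
  rw [Complex.cos]
  have h1 : 2 * (π : ℂ) * (k * x) * Complex.I = 2 * π * k * x * Complex.I := by ring
  have h2 : 2 * (π : ℂ) * (-k * x) * Complex.I = -(2 * π * k * x) * Complex.I := by ring
  rw [h1, h2]
  ring

theorem B0D_e_inj {x y : ℝ} (hx : x ∈ Ico (0 : ℝ) 1) (hy : y ∈ Ico (0 : ℝ) 1) (h : e x = e y) :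
    x = y := by
  unfold e at h
  rw [Complex.exp_eq_exp_iff_exists_int] at h
  obtain ⟨n, hn⟩ := h
  have hI : (2 * (π : ℂ) * Complex.I) ≠ 0 := by
    simp [Real.pi_ne_zero, Complex.I_ne_zero]
  have h1 : ((x : ℂ)) = y + n := by
    apply mul_left_cancel₀ hI
    linear_combination hn
  have h2 : x = y + n := by exact_mod_cast h1
  have h3 : (n : ℝ) < 1 := by linarith [hx.2, hy.1]
  have h4 : (-1 : ℝ) < n := by linarith [hx.1, hy.2]
  have h5 : n < 1 := by exact_mod_cast h3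
  have h6 : -1 < n := by exact_mod_cast h4
  have h7 : n = 0 := by omega
  rw [h7] at h2
  simpa using h2

theorem B0D_zeros (A : Finset ℕ) (hA : A.Nonempty) :
    {x : ℝ | x ∈ Set.Icc (0:ℝ) 1 ∧ pol A x = 0}.Finite := by
  classical
  set P : Polynomial ℂ := ∑ a ∈ A, Polynomial.X ^ a with hP
  have hP0 : P ≠ 0 := by
    obtain ⟨a, ha⟩ := hA
    intro h
    have h1 : P.coeff a = 1 := by
      rw [hP, Polynomial.finsetSum_coeff]
      simp only [Polynomial.coeff_X_pow]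
      rw [Finset.sum_ite_eq, if_pos ha]
    rw [h, Polynomial.coeff_zero] at h1
    exact zero_ne_one h1
  have heval : ∀ x : ℝ, pol A x = P.eval (e x) := by
    intro x
    unfold pol
    rw [hP, Polynomial.eval_finsetSum]
    refine Finset.sum_congr rfl fun a _ => ?_
    rw [B0D_e_pow, Polynomial.eval_pow, Polynomial.eval_X]
  have hfin : {z : ℂ | P.eval z = 0}.Finite := by
    refine (P.roots.toFinset.finite_toSet).subset fun z hz => ?_
    rw [Finset.mem_coe, Multiset.mem_toFinset, Polynomial.mem_roots hP0]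
    exact hz
  have h1 : {x : ℝ | x ∈ Ico (0:ℝ) 1 ∧ pol A x = 0}.Finite := by
    have h2 : (e '' {x : ℝ | x ∈ Ico (0:ℝ) 1 ∧ pol A x = 0}).Finite := by
      refine hfin.subset ?_
      rintro _ ⟨x, ⟨_, hx⟩, rfl⟩
      rw [heval] at hx
      exact hx
    refine Set.Finite.of_finite_image h2 ?_
    rintro x ⟨hx, _⟩ y ⟨hy, _⟩ hxy
    exact B0D_e_inj hx hy hxy
  refine (h1.union (Set.finite_singleton (1 : ℝ))).subset ?_
  rintro x ⟨⟨hx0, hx1⟩, hx⟩
  rcases lt_or_eq_of_le hx1 with h | h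
  · exact Or.inl ⟨⟨hx0, h⟩, hx⟩
  · exact Or.inr h

/-- B0d: `ev` is a ring homomorphism and `pol A` is `ev` of something; sup bound; zeros -/
theorem ev_basic : (∀ p q : ℤ →₀ ℂ, ∀ x, ev (p + q) x = ev p x + ev q x) ∧
    (∀ p q : ℤ →₀ ℂ, ∃ r : ℤ →₀ ℂ, ∀ x, ev r x = ev p x * ev q x) ∧
    (∀ (a : ℕ → ℝ) (m : ℕ), ∃ r : ℤ →₀ ℂ, ∀ x, ev r x = (tp m a x : ℂ)) ∧
    (∀ p x, ‖ev p x‖ ≤ l1 p) ∧ (∀ p, Continuous (ev p)) ∧
    (∀ A : Finset ℕ, A.Nonempty → {x : ℝ | x ∈ Set.Icc (0:ℝ) 1 ∧ pol A x = 0}.Finite) := by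
  refine ⟨B0D_ev_add, B0D_ev_mul, ?_, ?_, ?_, B0D_zeros⟩
  · intro a m
    obtain ⟨r, hr⟩ := B0D_ev_sum (Finset.range m)
      (fun j x => ((a j * cs (j : ℤ) x : ℝ) : ℂ)) (fun j _ => B0D_ev_cs (a j) (j : ℤ))
    refine ⟨r, fun x => ?_⟩
    rw [hr]
    unfold tp
    push_cast
    rfl
  · intro p x
    unfold ev l1 Finsupp.sum
    refine (norm_sum_le _ _).trans (Finset.sum_le_sum fun n _ => ?_)
    rw [norm_mul, B0D_e_norm, mul_one]
  · intro p
    unfold ev Finsupp.sum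
    refine continuous_finsetSum _ fun n _ => ?_
    exact continuous_const.mul (B0D_e_cont.comp (continuous_const.mul continuous_id))

end Pool.Agent.H728R2.BL
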