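import Pool.Agent.H728R2.BL.Defs2
/-!
# B0c: closure properties of `TPpos`
-/

namespace Pool.Agent.H728R2.BL

open MeasureTheory Set Filter Topology Pool.Agent.H691R3.SL
open scoped Real BigOperators

noncomputable section

/-- cosine polynomials -/
def B0C_aux_T : Submodule ℝ (ℝ → ℝ) := Submodule.span ℝ (Set.range cs)

theorem B0C_aux_cs_mem (n : ℤ) : cs n ∈ B0C_aux_T := Submodule.subset_span ⟨n, rfl⟩

theorem B0C_aux_tp_mem (m : ℕ) (a : ℕ → ℝ) : tp m a ∈ B0C_aux_T := by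
  have h : tp m a = ∑ j ∈ Finset.range m, a j • cs (j : ℤ) := by
    funext x
    simp [tp, Finset.sum_apply]
  rw [h]
  exact Submodule.sum_mem _ fun j _ => Submodule.smul_mem _ _ (B0C_aux_cs_mem _)

theorem B0C_aux_cs_neg (n : ℤ) : cs (-n) = cs n := by
  funext x
  unfold cs
  rw [← Real.cos_neg]
  congr 1
  push_cast
  ring

theorem B0C_aux_pad {m M : ℕ} (h : m ≤ M) (a : ℕ → ℝ) :
    tp m a = tp M (fun j => if j < m then a j else 0) := by
  funext x
  unfold tp
  symm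
  rw [← Finset.sum_subset (Finset.range_mono h)]
  · refine Finset.sum_congr rfl fun j hj => ?_
    beta_reduce
    rw [if_pos (Finset.mem_range.1 hj)]
  · intro j _ hj
    beta_reduce
    rw [if_neg (fun h' => hj (Finset.mem_range.2 h')), zero_mul]

theorem B0C_aux_form {g : ℝ → ℝ} (hg : g ∈ B0C_aux_T) : ∃ (m : ℕ) (a : ℕ → ℝ), g = tp m a := by
  unfold B0C_aux_T at hg
  induction hg using Submodule.span_induction with
  | mem g h =>
    obtain ⟨n, rfl⟩ := h
    have key : ∀ k : ℕ, ∃ (m : ℕ) (a : ℕ → ℝ), cs (k : ℤ) = tp m a := by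
      intro k
      refine ⟨k + 1, fun j => if j = k then 1 else 0, ?_⟩
      funext x
      unfold tp
      rw [Finset.sum_eq_single k]
      · simp
      · intro j _ hj
        beta_reduce
        rw [if_neg hj, zero_mul]
      · intro h
        exact absurd (Finset.mem_range.2 (Nat.lt_succ_self k)) h
    rcases Int.natAbs_eq n with h | h
    · rw [h]; exact key _
    · rw [h, B0C_aux_cs_neg]; exact key _
  | zero => exact ⟨0, fun _ => 0, by funext x; simp [tp]⟩
  | add f g _ _ hf hg =>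
    obtain ⟨m, a, rfl⟩ := hf
    obtain ⟨m', a', rfl⟩ := hg
    rw [B0C_aux_pad (le_max_left m m') a, B0C_aux_pad (le_max_right m m') a']
    refine ⟨max m m', fun j => (if j < m then a j else 0) + (if j < m' then a' j else 0), ?_⟩
    funext x
    simp only [Pi.add_apply, tp, ← Finset.sum_add_distrib, add_mul]
  | smul c f _ hf =>
    obtain ⟨m, a, rfl⟩ := hf
    refine ⟨m, fun j => c * a j, ?_⟩
    funext x
    simp only [Pi.smul_apply, tp, smul_eq_mul, Finset.mul_sum, mul_assoc]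

theorem B0C_aux_pos {g : ℝ → ℝ} (h0 : ∀ x, 0 ≤ g x) (hg : g ∈ B0C_aux_T) : TPpos g := by
  obtain ⟨m, a, h⟩ := B0C_aux_form hg
  exact ⟨h0, m, a, fun x => by rw [h]⟩

theorem B0C_aux_mem {g : ℝ → ℝ} (h : TPpos g) : g ∈ B0C_aux_T := by
  obtain ⟨_, m, a, h⟩ := h
  have : g = tp m a := funext h
  rw [this]
  exact B0C_aux_tp_mem m a

theorem B0C_aux_cs_mul (n k : ℤ) :
    (fun x => cs n x * cs k x) = (1 / 2 : ℝ) • cs (n + k) + (1 / 2 : ℝ) • cs (n - k) := by
  funext x
  simp only [Pi.add_apply, Pi.smul_apply, smul_eq_mul, cs]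
  have e1 : 2 * π * ((n + k : ℤ) : ℝ) * x = 2 * π * (n : ℝ) * x + 2 * π * (k : ℝ) * x := by
    push_cast; ring
  have e2 : 2 * π * ((n - k : ℤ) : ℝ) * x = 2 * π * (n : ℝ) * x - 2 * π * (k : ℝ) * x := by
    push_cast; ring
  rw [e1, e2, Real.cos_add, Real.cos_sub]
  ring

theorem B0C_aux_mul {f g : ℝ → ℝ} (hf : f ∈ B0C_aux_T) (hg : g ∈ B0C_aux_T) :
    (fun x => f x * g x) ∈ B0C_aux_T := by
  obtain ⟨m, a, rfl⟩ := B0C_aux_form hf
  obtain ⟨m', a', rfl⟩ := B0C_aux_form hg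
  have h : (fun x => tp m a x * tp m' a' x) =
      ∑ i ∈ Finset.range m, ∑ j ∈ Finset.range m', (a i * a' j) •
        (fun x => cs (i : ℤ) x * cs (j : ℤ) x) := by
    funext x
    simp only [tp, Finset.sum_apply, Finset.sum_mul_sum, Pi.smul_apply, smul_eq_mul]
    refine Finset.sum_congr rfl fun i _ => Finset.sum_congr rfl fun j _ => ?_
    ring
  rw [h]
  refine Submodule.sum_mem _ fun i _ => Submodule.sum_mem _ fun j _ => Submodule.smul_mem _ _ ?_
  rw [B0C_aux_cs_mul]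
  exact Submodule.add_mem _ (Submodule.smul_mem _ _ (B0C_aux_cs_mem _))
    (Submodule.smul_mem _ _ (B0C_aux_cs_mem _))

theorem B0C_aux_e_re (t : ℝ) : (e t).re = Real.cos (2 * π * t) := by
  unfold e
  rw [show (2 * π * t * Complex.I : ℂ) = ((2 * π * t : ℝ) : ℂ) * Complex.I by push_cast; ring,
    Complex.exp_ofReal_mul_I_re]

theorem B0C_aux_e_im (t : ℝ) : (e t).im = Real.sin (2 * π * t) := by
  unfold e
  rw [show (2 * π * t * Complex.I : ℂ) = ((2 * π * t : ℝ) : ℂ) * Complex.I by push_cast; ring,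
    Complex.exp_ofReal_mul_I_im]

theorem B0C_aux_sq {ι : Type*} (s : Finset ι) (r : ι → ℝ) (n : ι → ℤ) :
    (fun x : ℝ => ‖∑ i ∈ s, (r i : ℂ) * e ((n i : ℝ) * x)‖ ^ 2) ∈ B0C_aux_T := by
  have h : (fun x : ℝ => ‖∑ i ∈ s, (r i : ℂ) * e ((n i : ℝ) * x)‖ ^ 2) =
      ∑ i ∈ s, ∑ j ∈ s, (r i * r j) • cs (n i - n j) := by
    funext x
    rw [Complex.sq_norm, Complex.normSq_apply]
    simp only [Complex.re_sum, Complex.im_sum, Complex.re_ofReal_mul, Complex.im_ofReal_mul,
      B0C_aux_e_re, B0C_aux_e_im, Finset.sum_mul_sum, ← Finset.sum_add_distrib,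
      Finset.sum_apply, Pi.smul_apply, smul_eq_mul]
    refine Finset.sum_congr rfl fun i _ => Finset.sum_congr rfl fun j _ => ?_
    unfold cs
    have e2 : 2 * π * ((n i - n j : ℤ) : ℝ) * x =
        2 * π * ((n i : ℝ) * x) - 2 * π * ((n j : ℝ) * x) := by
      push_cast; ring
    rw [e2, Real.cos_sub]
    ring
  rw [h]
  exact Submodule.sum_mem _ fun i _ => Submodule.sum_mem _ fun j _ =>
    Submodule.smul_mem _ _ (B0C_aux_cs_mem _)

/-- B0c: basic facts on `TPpos` -/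
theorem TP_basic : (∀ f g, TPpos f → TPpos g → TPpos (fun x => f x * g x)) ∧
    (∀ f g, TPpos f → TPpos g → TPpos (fun x => f x + g x)) ∧
    (∀ f (a : ℝ), 0 ≤ a → TPpos f → TPpos (fun x => a * f x)) ∧
    (∀ f, TPpos f → Continuous f ∧ (∀ x, f (-x) = f x) ∧ (∀ x, f (x + 1) = f x) ∧
      ∃ B : ℝ, ∀ x, f x ≤ B) ∧
    (∀ p : ℤ →₀ ℂ, (∀ n, (p n).im = 0) → TPpos (fun x => ‖ev p x‖ ^ 2)) ∧
    (∀ A : Finset ℕ, TPpos (fun x => ‖pol A x‖ ^ 2)) ∧ TPpos (fun _ => 1) := by
  refine ⟨?_, ?_, ?_, ?_, ?_, ?_, ?_⟩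
  · intro f g hf hg
    exact B0C_aux_pos (fun x => mul_nonneg (hf.1 x) (hg.1 x))
      (B0C_aux_mul (B0C_aux_mem hf) (B0C_aux_mem hg))
  · intro f g hf hg
    exact B0C_aux_pos (fun x => add_nonneg (hf.1 x) (hg.1 x))
      (Submodule.add_mem _ (B0C_aux_mem hf) (B0C_aux_mem hg))
  · intro f a ha hf
    exact B0C_aux_pos (fun x => mul_nonneg ha (hf.1 x))
      (Submodule.smul_mem _ a (B0C_aux_mem hf))
  · rintro f ⟨-, m, a, h⟩
    obtain rfl : f = tp m a := funext h
    refine ⟨?_, ?_, ?_, ∑ j ∈ Finset.range m, |a j|, ?_⟩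
    · unfold tp cs
      fun_prop
    · intro x
      unfold tp
      refine Finset.sum_congr rfl fun j _ => ?_
      congr 1
      unfold cs
      rw [← Real.cos_neg]
      congr 1
      ring
    · intro x
      unfold tp
      refine Finset.sum_congr rfl fun j _ => ?_
      congr 1
      unfold cs
      have : 2 * π * ((j : ℤ) : ℝ) * (x + 1) = 2 * π * ((j : ℤ) : ℝ) * x + (j : ℤ) * (2 * π) := by
        ring
      rw [this, Real.cos_add_int_mul_two_pi]
    · intro x
      unfold tp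
      refine Finset.sum_le_sum fun j _ => ?_
      have h1 : |a j * cs (j : ℤ) x| ≤ |a j| := by
        rw [abs_mul]
        exact mul_le_of_le_one_right (abs_nonneg _) (Real.abs_cos_le_one _)
      exact (le_abs_self _).trans h1
  · intro p hp
    refine B0C_aux_pos (fun x => by positivity) ?_
    have h : (fun x => ‖ev p x‖ ^ 2) =
        (fun x : ℝ => ‖∑ i ∈ p.support, (((p i).re : ℝ) : ℂ) * e (((i : ℤ) : ℝ) * x)‖ ^ 2) := by
      funext x
      unfold ev Finsupp.sum
      congr 2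
      refine Finset.sum_congr rfl fun i _ => ?_
      congr 1
      apply Complex.ext
      · simp
      · simp [hp i]
    rw [h]
    exact B0C_aux_sq p.support (fun i => (p i).re) (fun i => i)
  · intro A
    refine B0C_aux_pos (fun x => by positivity) ?_
    have h : (fun x => ‖pol A x‖ ^ 2) =
        (fun x : ℝ => ‖∑ i ∈ A, ((1 : ℝ) : ℂ) * e ((((i : ℕ) : ℤ) : ℝ) * x)‖ ^ 2) := by
      funext x
      unfold pol
      congr 2
      refine Finset.sum_congr rfl fun i _ => ?_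
      push_cast
      rw [one_mul]
    rw [h]
    exact B0C_aux_sq A (fun _ => 1) (fun i => (i : ℤ))
  · exact ⟨fun _ => zero_le_one, 1, fun _ => 1, fun x => by simp [tp, cs]⟩

end

end Pool.Agent.H728R2.BL
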