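import Pool.Agent.H728R2.BL.Defs2
import Pool.Agent.H728R2.BL.X.B0
import Pool.Agent.H728R2.BL.X.B0C
/-!
# B3: facts on fibred columns
-/

set_option autoImplicit false

namespace Pool.Agent.H728R2.BL

open MeasureTheory Set Filter Topology Pool.Agent.H691R3.SL
open scoped Real BigOperators

noncomputable section

/-- positions of the levels of `A` in the copies -/
private def B3_im {r : ℕ} (Q : Fin r → ℕ) (A : Finset ℕ) : Finset ℕ :=
  ((Finset.univ : Finset (Fin r)) ×ˢ A).image (fun z => Q z.1 + z.2)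

private theorem B3_inj {r h : ℕ} (Q : Fin r → ℕ) (hQ : ∀ i j, i < j → Q i + h ≤ Q j)
    (A : Finset ℕ) (hA : ∀ a ∈ A, a < h) :
    Set.InjOn (fun z : Fin r × ℕ => Q z.1 + z.2) ((Finset.univ : Finset (Fin r)) ×ˢ A : Finset _) := by
  rintro ⟨i, a⟩ ha ⟨j, b⟩ hb hab
  simp only [Finset.coe_product, Set.mem_prod, Finset.mem_coe] at ha hb
  simp only at hab
  have h1 := hA a ha.2
  have h2 := hA b hb.2
  rcases lt_trichotomy i j with hij | hij | hij
  · have := hQ i j hij
    omega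
  · subst hij
    have : a = b := by omega
    rw [this]
  · have := hQ j i hij
    omega

private theorem B3_card {r h : ℕ} (Q : Fin r → ℕ) (hQ : ∀ i j, i < j → Q i + h ≤ Q j)
    (A : Finset ℕ) (hA : ∀ a ∈ A, a < h) : (B3_im Q A).card = r * A.card := by
  unfold B3_im
  rw [Finset.card_image_of_injOn (B3_inj Q hQ A hA), Finset.card_product, Finset.card_univ,
    Fintype.card_fin]

private theorem B3_pol {r h : ℕ} (Q : Fin r → ℕ) (hQ : ∀ i j, i < j → Q i + h ≤ Q j)
    (A : Finset ℕ) (hA : ∀ a ∈ A, a < h) (x : ℝ) :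
    pol (B3_im Q A) x = pol A x * ∑ i, e (Q i * x) := by
  unfold B3_im pol
  rw [Finset.sum_image (B3_inj Q hQ A hA), Finset.sum_product, Finset.sum_mul_sum,
    Finset.sum_comm]
  refine Finset.sum_congr rfl fun a _ => Finset.sum_congr rfl fun i _ => ?_
  rw [← Pool.Agent.H728R2.BL.e_basic.1]
  congr 1
  push_cast
  ring

private theorem B3_TPsum {ι : Type} (s : Finset ι) (f : ι → ℝ → ℝ) (hf : ∀ i ∈ s, TPpos (f i)) :
    TPpos (fun x => ∑ i ∈ s, f i x) := by
  classical
  revert hf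
  refine Finset.induction_on s ?_ ?_
  · intro _
    have h := Pool.Agent.H728R2.BL.TP_basic.2.2.1 (fun _ => 1) 0 le_rfl Pool.Agent.H728R2.BL.TP_basic.2.2.2.2.2.2
    simpa using h
  · intro a s ha ih hf
    have h1 := ih fun i hi => hf i (Finset.mem_insert_of_mem hi)
    have h2 := Pool.Agent.H728R2.BL.TP_basic.2.1 (f a) (fun x => ∑ i ∈ s, f i x)
      (hf a (Finset.mem_insert_self a s)) h1
    have h3 : (fun x => ∑ i ∈ insert a s, f i x) = fun x => f a x + ∑ i ∈ s, f i x := by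
      funext x
      exact Finset.sum_insert ha
    rw [h3]
    exact h2

/-- B3: facts on fibred columns -/
theorem fib_facts {L : Lev} (F : Fib L) (c : L.Θ) :
    TPpos (F.D c) ∧ (∫ x in (0:ℝ)..1, F.D c x = 1) ∧
    ∀ A : Finset ℕ, (∀ a ∈ A, a < L.h) → ∫ x in (0:ℝ)..1, ‖pol A x‖ ^ 2 * F.D c x = A.card := by
  have hpolTP : ∀ A : Finset ℕ, TPpos (fun x => ‖pol A x‖ ^ 2) := Pool.Agent.H728R2.BL.TP_basic.2.2.2.2.2.1
  have hpol1 : ∀ x, pol {0} x = 1 := by
    intro x
    unfold pol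
    rw [Finset.sum_singleton, Nat.cast_zero, zero_mul]
    exact Pool.Agent.H728R2.BL.e_basic.2.1
  have h0A : ∀ a ∈ ({0} : Finset ℕ), a < L.h := by
    intro a ha
    rw [Finset.mem_singleton] at ha
    rw [ha]
    exact L.hpos
  have hqp : ∀ (A : Finset ℕ), (∀ a ∈ A, a < L.h) → ∀ c' x,
      ‖pol A x‖ ^ 2 * ‖F.qp c' x‖ ^ 2 = ‖pol (B3_im (F.Q c') A) x‖ ^ 2 := by
    intro A hA c' x
    rw [B3_pol (F.Q c') (F.sep c') A hA x, norm_mul, mul_pow]
    rfl
  have hqp1 : ∀ c' x, ‖F.qp c' x‖ ^ 2 = ‖pol (B3_im (F.Q c') {0}) x‖ ^ 2 := by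
    intro c' x
    have := hqp {0} h0A c' x
    rw [hpol1, norm_one, one_pow, one_mul] at this
    exact this
  have hTP : TPpos (F.D c) := by
    have h1 : TPpos (fun x => ∑ c' ∈ Finset.univ.filter (fun c' => F.cls c' = c),
        ‖F.qp c' x‖ ^ 2) := by
      refine B3_TPsum _ (fun c' x => ‖F.qp c' x‖ ^ 2) fun c' _ => ?_
      have : (fun x => ‖F.qp c' x‖ ^ 2) = fun x => ‖pol (B3_im (F.Q c') {0}) x‖ ^ 2 := by
        funext x
        exact hqp1 c' x
      rw [this]
      exact hpolTP _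
    exact Pool.Agent.H728R2.BL.TP_basic.2.2.1 _ (F.M.β / L.β) (div_nonneg F.M.βpos.le L.βpos.le) h1
  have hmain : ∀ A : Finset ℕ, (∀ a ∈ A, a < L.h) →
      ∫ x in (0:ℝ)..1, ‖pol A x‖ ^ 2 * F.D c x = A.card := by
    intro A hA
    have h1 : ∀ x, ‖pol A x‖ ^ 2 * F.D c x = F.M.β / L.β *
        ∑ c' ∈ Finset.univ.filter (fun c' => F.cls c' = c), ‖pol (B3_im (F.Q c') A) x‖ ^ 2 := by
      intro x
      unfold Fib.D
      rw [mul_left_comm, Finset.mul_sum]
      congr 1
      exact Finset.sum_congr rfl fun c' _ => hqp A hA c' x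
    rw [intervalIntegral.integral_congr (g := fun x => F.M.β / L.β *
        ∑ c' ∈ Finset.univ.filter (fun c' => F.cls c' = c), ‖pol (B3_im (F.Q c') A) x‖ ^ 2)
        (fun x _ => h1 x), intervalIntegral.integral_const_mul,
      intervalIntegral.integral_finsetSum]
    · have h2 : ∀ c' ∈ Finset.univ.filter (fun c' => F.cls c' = c),
          ∫ x in (0:ℝ)..1, ‖pol (B3_im (F.Q c') A) x‖ ^ 2 = (F.r : ℝ) * A.card := by
        intro c' _
        rw [Pool.Agent.H728R2.BL.pol_norm, B3_card (F.Q c') (F.sep c') A hA, Nat.cast_mul]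
      rw [Finset.sum_congr rfl h2, Finset.sum_const, nsmul_eq_mul]
      have h3 : (((Finset.univ.filter fun c' => F.cls c' = c).card : ℕ) : ℝ) * Fintype.card L.Θ
          = Fintype.card F.M.Θ := by
        exact_mod_cast F.fib c
      have h4 := F.hβ
      have h5 : (0:ℝ) < Fintype.card L.Θ := by
        exact_mod_cast Fintype.card_pos
      have h6 := L.βpos
      rw [← h3] at h4
      have h7 : F.M.β * F.r * ((Finset.univ.filter fun c' => F.cls c' = c).card : ℝ) = L.β := by
        have : (F.M.β * F.r * ((Finset.univ.filter fun c' => F.cls c' = c).card : ℝ))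
            * Fintype.card L.Θ = L.β * Fintype.card L.Θ := by
          rw [← h4]; ring
        exact mul_right_cancel₀ h5.ne' this
      calc F.M.β / L.β * (((Finset.univ.filter fun c' => F.cls c' = c).card : ℝ)
            * ((F.r : ℝ) * A.card))
          = (F.M.β * F.r * ((Finset.univ.filter fun c' => F.cls c' = c).card : ℝ)) / L.β
            * A.card := by ring
        _ = A.card := by rw [h7, div_self h6.ne', one_mul]
    · intro c' _
      exact ((Pool.Agent.H728R2.BL.TP_basic.2.2.2.1 _ (hpolTP _)).1).intervalIntegrable _ _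
  refine ⟨hTP, ?_, hmain⟩
  have h1 := hmain {0} h0A
  rw [Finset.card_singleton, Nat.cast_one] at h1
  have h2 : ∫ x in (0:ℝ)..1, F.D c x = ∫ x in (0:ℝ)..1, ‖pol {0} x‖ ^ 2 * F.D c x := by
    refine intervalIntegral.integral_congr fun x _ => ?_
    rw [hpol1, norm_one, one_pow, one_mul]
  rw [h2]
  exact h1

end

end Pool.Agent.H728R2.BL
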