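import Pool.Agent.H728R2.BL.Defs2
/-!
# B1A: kernel bound
-/

namespace Pool.Agent.H728R2.BL

open MeasureTheory Set Filter Topology Pool.Agent.H691R3.SL
open scoped Real BigOperators

noncomputable section

theorem B1A_aux_pow (s : ℕ) (x : ℝ) : e (s * x) = e x ^ s := by
  unfold e
  rw [← Complex.exp_nat_mul]
  congr 1
  push_cast
  ring

theorem B1A_aux_norm (x : ℝ) : ‖e x‖ = 1 := by
  unfold e
  have : (2 * π * x * Complex.I : ℂ) = ((2 * π * x : ℝ) : ℂ) * Complex.I := by push_cast; ring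
  rw [this, Complex.norm_exp_ofReal_mul_I]

/-- parallelogram identity for a unit number -/
theorem B1A_aux_par (u : ℂ) (hu : ‖u‖ = 1) : ‖1 + u‖ ^ 2 = 4 - ‖u - 1‖ ^ 2 := by
  have h1 := Complex.sq_norm (1 + u)
  have h2 := Complex.sq_norm (u - 1)
  have h3 := Complex.sq_norm u
  rw [Complex.normSq_apply] at h1 h2 h3
  rw [hu] at h3
  rw [h1, h2]
  simp only [Complex.add_re, Complex.add_im, Complex.sub_re, Complex.sub_im, Complex.one_re,
    Complex.one_im]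
  nlinarith

theorem phi_bound (H : ℕ) (hH : Even H) (hH2 : 2 ≤ H) (x : ℝ) (hx : W x ≠ 0) :
    ‖Pool.Agent.H728R2.BL.phi H x‖ < 1 ∧
      W x * (2 * ‖Pool.Agent.H728R2.BL.phi H x‖ / (1 - ‖Pool.Agent.H728R2.BL.phi H x‖)) ≤ 80 / H := by
  obtain ⟨k, hk⟩ := hH
  have hk1 : 1 ≤ k := by omega
  set z : ℂ := e x with hz
  have hz1 : ‖z‖ = 1 := B1A_aux_norm x
  set w : ℝ := ‖z - 1‖ with hw
  have hW : W x = w ^ 2 := rfl
  have hw0 : 0 < w := by
    rcases (norm_nonneg (z - 1)).lt_or_eq with h | h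
    · exact h
    · exfalso
      apply hx
      rw [hW, hw, ← h]
      norm_num
  have hw2 : w ≤ 2 := by
    calc w ≤ ‖z‖ + ‖(1:ℂ)‖ := norm_sub_le _ _
      _ = 2 := by rw [hz1, norm_one]; norm_num
  set S : ℕ → ℂ := fun n => ∑ s ∈ Finset.range n, z ^ s with hS
  have hphi : Pool.Agent.H728R2.BL.phi H x = S H / H := by
    unfold Pool.Agent.H728R2.BL.phi
    congr 1
    exact Finset.sum_congr rfl fun s _ => B1A_aux_pow s x
  have hSk : ∀ n, S n * (z - 1) = z ^ n - 1 := fun n => geom_sum_mul z n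
  have hsplit : S H = S k * (1 + z ^ k) := by
    have : S H = S k + z ^ k * S k := by
      rw [hk]
      simp only [hS]
      rw [Finset.sum_range_add, Finset.mul_sum]
      congr 1
      exact Finset.sum_congr rfl fun i _ => by rw [pow_add]
    rw [this]; ring
  have hSkle : ‖S k‖ ≤ k := by
    calc ‖S k‖ ≤ ∑ s ∈ Finset.range k, ‖z ^ s‖ := norm_sum_le _ _
      _ = k := by simp [norm_pow, hz1]
  have hkpos : (0:ℝ) < k := by exact_mod_cast hk1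
  have hHr : (H:ℝ) = 2 * k := by rw [hk]; push_cast; ring
  have hHpos : (0:ℝ) < H := by rw [hHr]; linarith
  set φ : ℝ := ‖Pool.Agent.H728R2.BL.phi H x‖ with hφ
  have hφ0 : 0 ≤ φ := norm_nonneg _
  have hφH : φ * H = ‖S H‖ := by
    rw [hφ, hphi, norm_div, Complex.norm_natCast, div_mul_cancel₀ _ hHpos.ne']
  have hu1 : ‖z ^ k‖ = 1 := by rw [norm_pow, hz1, one_pow]
  have hpar := B1A_aux_par (z ^ k) hu1
  set d : ℝ := ‖z ^ k - 1‖ with hd
  have hdS : d = ‖S k‖ * w := by rw [hd, ← hSk k, norm_mul]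
  set ψ : ℝ := ‖1 + z ^ k‖ with hψ
  have hψ0 : 0 ≤ ψ := norm_nonneg _
  have hψ2 : ψ ≤ 2 := by
    calc ψ ≤ ‖(1:ℂ)‖ + ‖z ^ k‖ := norm_add_le _ _
      _ = 2 := by rw [hu1, norm_one]; norm_num
  have hd0 : 0 ≤ d := norm_nonneg _
  have hd2 : d ≤ 2 := by
    calc d ≤ ‖z ^ k‖ + ‖(1:ℂ)‖ := norm_sub_le _ _
      _ = 2 := by rw [hu1, norm_one]; norm_num
  have hSHn : ‖S H‖ = ‖S k‖ * ψ := by rw [hsplit, norm_mul]
  -- `|S_H| w ≤ 2`
  have hSw : φ * H * w ≤ 2 := by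
    rw [hφH, ← norm_mul, hSk H]
    calc ‖z ^ H - 1‖ ≤ ‖z ^ H‖ + ‖(1:ℂ)‖ := norm_sub_le _ _
      _ = 2 := by rw [norm_pow, hz1, norm_one]; norm_num
  -- `φ ≤ ψ / 2 ≤ 1 - d² / 8`
  have hφψ : 2 * φ ≤ ψ := by
    have h1 : φ * (2 * k) = ‖S k‖ * ψ := by rw [← hHr, hφH, hSHn]
    have h2 : ‖S k‖ * ψ ≤ k * ψ := mul_le_mul_of_nonneg_right hSkle hψ0
    have h3 : (2 * φ) * k ≤ ψ * k := by nlinarith
    exact le_of_mul_le_mul_right h3 hkpos
  have hψd : ψ ≤ 2 - d ^ 2 / 4 := by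
    have h1 : ψ ^ 2 = 4 - d ^ 2 := hpar
    have h2 : 0 ≤ 2 - d ^ 2 / 4 := by nlinarith
    have h3 : ψ ^ 2 ≤ (2 - d ^ 2 / 4) ^ 2 := by nlinarith [sq_nonneg (d ^ 2)]
    exact le_trans (le_abs_self _) (abs_le_of_sq_le_sq h3 h2)
  have hmain : 1 - φ ≥ d ^ 2 / 8 := by linarith
  by_cases hc : φ ≤ 1 / 2
  · refine ⟨by linarith, ?_⟩
    have h1 : 0 < 1 - φ := by linarith
    rw [hW, mul_div_assoc', div_le_div_iff₀ h1 hHpos]
    nlinarith [mul_nonneg hw0.le (mul_nonneg hφ0 hHpos.le)]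
  · replace hc : 1 / 2 < φ := not_le.1 hc
    have hSk2 : (k:ℝ) / 2 ≤ ‖S k‖ := by
      have h1 : φ * (2 * k) = ‖S k‖ * ψ := by rw [← hHr, hφH, hSHn]
      have h2 : ‖S k‖ * ψ ≤ ‖S k‖ * 2 := mul_le_mul_of_nonneg_left hψ2 (norm_nonneg _)
      nlinarith
    have hdw : (k:ℝ) / 2 * w ≤ d := by
      rw [hdS]; exact mul_le_mul_of_nonneg_right hSk2 hw0.le
    have hdsq : ((k:ℝ) / 2 * w) ^ 2 ≤ d ^ 2 := pow_le_pow_left₀ (by positivity) hdw 2
    have hpos : 0 < d ^ 2 / 8 := by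
      have : 0 < ((k:ℝ) / 2 * w) ^ 2 := by positivity
      linarith
    have h1 : 0 < 1 - φ := by linarith
    refine ⟨by linarith, ?_⟩
    rw [hW, mul_div_assoc', div_le_div_iff₀ h1 hHpos, hHr]
    have hφ1 : φ ≤ 1 := by linarith
    have hL : w ^ 2 * (2 * φ) * (2 * k) ≤ 4 * w ^ 2 * k := by
      have : w ^ 2 * k * φ ≤ w ^ 2 * k * 1 := mul_le_mul_of_nonneg_left hφ1 (by positivity)
      nlinarith
    refine hL.trans ?_
    rcases Nat.lt_or_ge k 2 with hk2 | hk2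
    · have hk' : k = 1 := by omega
      have hS1 : S k = 1 := by rw [hk']; simp [hS]
      rw [hS1, norm_one, one_mul] at hdS
      have hk'' : (k:ℝ) = 1 := by rw [hk']; norm_num
      rw [hk'', mul_one]
      rw [hdS] at hmain
      have h6 : 0 ≤ w ^ 2 := sq_nonneg w
      linarith
    · have hk2' : (2:ℝ) ≤ k := by exact_mod_cast hk2
      have h2 : 80 * (1 - φ) ≥ 10 * ((k:ℝ) / 2 * w) ^ 2 := by linarith
      have h3 : 10 * ((k:ℝ) / 2 * w) ^ 2 = (5/2) * k * (w ^ 2 * k) := by ring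
      have h4 : 0 ≤ w ^ 2 * k := by positivity
      have h5 : 4 * (w ^ 2 * k) ≤ (5/2) * k * (w ^ 2 * k) :=
        mul_le_mul_of_nonneg_right (by linarith) h4
      linarith

end

end Pool.Agent.H728R2.BL
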