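import Pool.Agent.H728R2.BL.Defs2
/-!
# B1B: random gaps (geometric decay of correlations)
-/

namespace Pool.Agent.H728R2.BL

open MeasureTheory Set Filter Topology Pool.Agent.H691R3.SL
open scoped Real BigOperators

noncomputable section

theorem B1B_aux_add (x y : ℝ) : e (x + y) = e x * e y := by
  unfold e
  rw [← Complex.exp_add]
  congr 1
  push_cast
  ring

theorem B1B_aux_zero : e 0 = 1 := by
  unfold e
  simp

theorem B1B_aux_norm (x : ℝ) : ‖e x‖ = 1 := by
  unfold e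
  have : (2 * π * x * Complex.I : ℂ) = ((2 * π * x : ℝ) : ℂ) * Complex.I := by push_cast; ring
  rw [this, Complex.norm_exp_ofReal_mul_I]

theorem B1B_aux_conj (x : ℝ) : e x * starRingEnd ℂ (e x) = 1 := by
  rw [Complex.mul_conj, Complex.normSq_eq_norm_sq, B1B_aux_norm]
  norm_num

theorem B1B_aux_sum {ι : Type} (s : Finset ι) (f : ι → ℝ) :
    e (∑ i ∈ s, f i) = ∏ i ∈ s, e (f i) := by
  classical
  induction s using Finset.induction_on with
  | empty => simp [B1B_aux_zero]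
  | insert a s ha ih => rw [Finset.sum_insert ha, Finset.prod_insert ha, B1B_aux_add, ih]

/-- difference of two positions -/
theorem B1B_aux_pos {n H : ℕ} (h : ℕ) (u : Fin n → Fin H) (i j : Fin n) (hji : j < i) :
    (Pool.Agent.H728R2.BL.posn h u i : ℝ) = Pool.Agent.H728R2.BL.posn h u j + ((((i : ℕ) - (j : ℕ) : ℕ) : ℝ) * h
      + ∑ l ∈ Finset.Ico j i, ((u l : ℕ) : ℝ)) := by
  unfold Pool.Agent.H728R2.BL.posn
  have h1 : Finset.univ.filter (fun l : Fin n => l < i)
      = Finset.univ.filter (fun l : Fin n => l < j) ∪ Finset.Ico j i := by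
    ext l
    simp only [Finset.mem_filter, Finset.mem_univ, true_and, Finset.mem_union, Finset.mem_Ico]
    constructor
    · intro hl
      rcases lt_or_ge l j with h2 | h2
      · exact Or.inl h2
      · exact Or.inr ⟨h2, hl⟩
    · rintro (h2 | h2)
      · exact h2.trans hji
      · exact h2.2
  have h2 : Disjoint (Finset.univ.filter (fun l : Fin n => l < j)) (Finset.Ico j i) := by
    rw [Finset.disjoint_left]
    intro l hl hl'
    have := (Finset.mem_filter.1 hl).2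
    have h3 := (Finset.mem_Ico.1 hl').1
    exact absurd this (not_lt.2 h3)
  rw [h1, Finset.sum_union h2]
  have h3 : (j : ℕ) ≤ (i : ℕ) := le_of_lt hji
  push_cast [Nat.cast_sub h3]
  ring

/-- norm of the correlation of the positions `j < i` -/
theorem B1B_aux_corr (n h H : ℕ) (hH : 1 ≤ H) (x : ℝ) (i j : Fin n) (hji : j < i) :
    ‖∑ u : Fin n → Fin H, e (Pool.Agent.H728R2.BL.posn h u i * x) * starRingEnd ℂ (e (Pool.Agent.H728R2.BL.posn h u j * x))‖
      = (H : ℝ) ^ n * ‖Pool.Agent.H728R2.BL.phi H x‖ ^ ((i : ℕ) - (j : ℕ)) := by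
  have hHpos : (0:ℝ) < H := by exact_mod_cast hH
  have h1 : ∀ u : Fin n → Fin H,
      e (Pool.Agent.H728R2.BL.posn h u i * x) * starRingEnd ℂ (e (Pool.Agent.H728R2.BL.posn h u j * x))
      = e ((((i : ℕ) - (j : ℕ) : ℕ) : ℝ) * h * x) *
        ∏ l : Fin n, (if l ∈ Finset.Ico j i then e (((u l : ℕ) : ℝ) * x) else 1) := by
    intro u
    rw [B1B_aux_pos h u i j hji, add_mul, B1B_aux_add, add_mul, B1B_aux_add, Finset.sum_mul,
      B1B_aux_sum]
    have h2 : ∏ l : Fin n, (if l ∈ Finset.Ico j i then e (((u l : ℕ) : ℝ) * x) else 1)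
        = ∏ l ∈ Finset.Ico j i, e (((u l : ℕ) : ℝ) * x) := by
      rw [Finset.prod_ite_mem, Finset.univ_inter]
    rw [h2]
    have h3 := B1B_aux_conj ((Pool.Agent.H728R2.BL.posn h u j : ℝ) * x)
    linear_combination (e ((((i : ℕ) - (j : ℕ) : ℕ) : ℝ) * h * x) *
      ∏ l ∈ Finset.Ico j i, e (((u l : ℕ) : ℝ) * x)) * h3
  simp_rw [h1]
  rw [← Finset.mul_sum, norm_mul, B1B_aux_norm, one_mul]
  have h2 : ∑ u : Fin n → Fin H,
      ∏ l : Fin n, (if l ∈ Finset.Ico j i then e (((u l : ℕ) : ℝ) * x) else 1)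
      = ∏ l : Fin n, ∑ s : Fin H, (if l ∈ Finset.Ico j i then e (((s : ℕ) : ℝ) * x) else 1) := by
    rw [Finset.prod_univ_sum, Fintype.piFinset_univ]
  rw [h2, norm_prod]
  have h3 : ∀ l : Fin n,
      ‖∑ s : Fin H, (if l ∈ Finset.Ico j i then e (((s : ℕ) : ℝ) * x) else (1:ℂ))‖
      = (H : ℝ) * (if l ∈ Finset.Ico j i then ‖Pool.Agent.H728R2.BL.phi H x‖ else 1) := by
    intro l
    by_cases hl : l ∈ Finset.Ico j i
    · simp only [hl, if_true]
      unfold Pool.Agent.H728R2.BL.phi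
      rw [Finset.sum_range fun s : ℕ => e (s * x), norm_div, Complex.norm_natCast,
        mul_comm, div_mul_cancel₀ _ hHpos.ne']
    · simp only [hl, if_false]
      simp
  rw [Finset.prod_congr rfl fun l _ => h3 l, Finset.prod_mul_distrib, Finset.prod_const,
    Finset.card_univ, Fintype.card_fin, Finset.prod_ite_mem, Finset.univ_inter, Finset.prod_const,
    Fin.card_Ico]

/-- a sum of distinct positive powers -/
theorem B1B_aux_geo {n : ℕ} (r : ℝ) (h0 : 0 ≤ r) (h1 : r < 1) (s : Finset (Fin n))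
    (f : Fin n → ℕ) (hf : Set.InjOn f s) (hpos : ∀ j ∈ s, f j ≠ 0) :
    ∑ j ∈ s, r ^ f j ≤ r / (1 - r) := by
  classical
  have h2 : ∑ j ∈ s, r ^ f j = ∑ k ∈ s.image f, r ^ k := by
    rw [Finset.sum_image hf]
  have h3 : (0:ℕ) ∉ s.image f := by
    intro h
    obtain ⟨j, hj, hj0⟩ := Finset.mem_image.1 h
    exact hpos j hj hj0
  have h4 := sum_le_hasSum (insert 0 (s.image f)) (fun i _ => pow_nonneg h0 i)
    (hasSum_geometric_of_lt_one h0 h1)
  rw [Finset.sum_insert h3, pow_zero] at h4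
  rw [h2]
  have h5 : (1 - r)⁻¹ = 1 + r / (1 - r) := by
    have : 1 - r ≠ 0 := by linarith
    field_simp
    ring
  linarith

/-- the kernel -/
def B1B_K {n : ℕ} (r : ℝ) (i j : Fin n) : ℝ :=
  if j < i then r ^ ((i : ℕ) - (j : ℕ)) else if i < j then r ^ ((j : ℕ) - (i : ℕ)) else 0

theorem B1B_K_symm {n : ℕ} (r : ℝ) (i j : Fin n) : B1B_K r i j = B1B_K r j i := by
  unfold B1B_K
  rcases lt_trichotomy i j with h | h | h
  · simp [h, not_lt.2 h.le]
  · subst h; simp
  · simp [h, not_lt.2 h.le]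

theorem B1B_K_nonneg {n : ℕ} (r : ℝ) (h0 : 0 ≤ r) (i j : Fin n) : 0 ≤ B1B_K r i j := by
  unfold B1B_K
  split_ifs <;> positivity

theorem B1B_K_sum {n : ℕ} (r : ℝ) (h0 : 0 ≤ r) (h1 : r < 1) (i : Fin n) :
    ∑ j, B1B_K r i j ≤ 2 * r / (1 - r) := by
  have h2 : ∀ j, B1B_K r i j = (if j < i then r ^ ((i : ℕ) - (j : ℕ)) else 0)
      + (if i < j then r ^ ((j : ℕ) - (i : ℕ)) else 0) := by
    intro j
    unfold B1B_K
    rcases lt_trichotomy i j with h | h | h
    · simp [h, not_lt.2 h.le]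
    · subst h; simp
    · simp [h, not_lt.2 h.le]
  simp_rw [h2]
  rw [Finset.sum_add_distrib, ← Finset.sum_filter, ← Finset.sum_filter]
  have h3 := B1B_aux_geo r h0 h1 (Finset.univ.filter fun j : Fin n => j < i)
    (fun j => (i : ℕ) - (j : ℕ)) (by
      intro a ha b hb hab
      have ha' : a < i := by simpa using ha
      have hb' : b < i := by simpa using hb
      have ha'' : (a : ℕ) < i := ha'
      have hb'' : (b : ℕ) < i := hb'
      simp only at hab
      ext
      omega) (by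
      intro j hj
      have hj' : j < i := by simpa using hj
      have : (j : ℕ) < i := hj'
      omega)
  have h4 := B1B_aux_geo r h0 h1 (Finset.univ.filter fun j : Fin n => i < j)
    (fun j => (j : ℕ) - (i : ℕ)) (by
      intro a ha b hb hab
      have ha' : i < a := by simpa using ha
      have hb' : i < b := by simpa using hb
      have ha'' : (i : ℕ) < a := ha'
      have hb'' : (i : ℕ) < b := hb'
      simp only at hab
      ext
      omega) (by
      intro j hj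
      have hj' : i < j := by simpa using hj
      have : (i : ℕ) < j := hj'
      omega)
  have h5 : 2 * r / (1 - r) = r / (1 - r) + r / (1 - r) := by ring
  rw [h5]
  exact add_le_add h3 h4

/-- correlations -/
def B1B_C (n h H : ℕ) (x : ℝ) (i j : Fin n) : ℂ :=
  ∑ u : Fin n → Fin H, e (Pool.Agent.H728R2.BL.posn h u i * x) * starRingEnd ℂ (e (Pool.Agent.H728R2.BL.posn h u j * x))

theorem B1B_C_self (n h H : ℕ) (x : ℝ) (i : Fin n) :
    B1B_C n h H x i i = (H : ℂ) ^ n := by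
  unfold B1B_C
  simp_rw [B1B_aux_conj]
  simp

theorem B1B_C_norm (n h H : ℕ) (hH : 1 ≤ H) (x : ℝ) (i j : Fin n) (hij : i ≠ j) :
    ‖B1B_C n h H x i j‖ = (H : ℝ) ^ n * B1B_K ‖Pool.Agent.H728R2.BL.phi H x‖ i j := by
  rcases lt_or_gt_of_ne hij with h1 | h1
  · have h2 : B1B_C n h H x i j = starRingEnd ℂ (B1B_C n h H x j i) := by
      unfold B1B_C
      rw [map_sum]
      refine Finset.sum_congr rfl fun u _ => ?_
      rw [map_mul, Complex.conj_conj, mul_comm]
    rw [h2, Complex.norm_conj, B1B_K_symm]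
    unfold B1B_C B1B_K
    rw [B1B_aux_corr n h H hH x j i h1]
    simp [h1]
  · unfold B1B_C B1B_K
    rw [B1B_aux_corr n h H hH x i j h1]
    simp [h1]

theorem noise_cross (n h H : ℕ) (hH : 1 ≤ H) (g : Fin n → ℂ) (x : ℝ) (hx : ‖Pool.Agent.H728R2.BL.phi H x‖ < 1) :
    |(∑ u : Fin n → Fin H, ‖∑ i, e (Pool.Agent.H728R2.BL.posn h u i * x) * g i‖ ^ 2) / (H : ℝ) ^ n
        - ∑ i, ‖g i‖ ^ 2|
      ≤ (2 * ‖Pool.Agent.H728R2.BL.phi H x‖ / (1 - ‖Pool.Agent.H728R2.BL.phi H x‖)) * ∑ i, ‖g i‖ ^ 2 := by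
  classical
  have hHpos : (0:ℝ) < H := by exact_mod_cast hH
  have hHn : (0:ℝ) < (H:ℝ) ^ n := pow_pos hHpos n
  set r : ℝ := ‖Pool.Agent.H728R2.BL.phi H x‖ with hr
  have hr0 : 0 ≤ r := norm_nonneg _
  -- expansion
  have hexp : ((∑ u : Fin n → Fin H, ‖∑ i, e (Pool.Agent.H728R2.BL.posn h u i * x) * g i‖ ^ 2 : ℝ) : ℂ)
      = ∑ i, ∑ j, g i * starRingEnd ℂ (g j) * B1B_C n h H x i j := by
    push_cast
    have h1 : ∀ u : Fin n → Fin H,
        ((‖∑ i, e (Pool.Agent.H728R2.BL.posn h u i * x) * g i‖ : ℂ)) ^ 2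
        = ∑ i, ∑ j, g i * starRingEnd ℂ (g j) *
          (e (Pool.Agent.H728R2.BL.posn h u i * x) * starRingEnd ℂ (e (Pool.Agent.H728R2.BL.posn h u j * x))) := by
      intro u
      have h2 := Complex.mul_conj' (∑ i, e (Pool.Agent.H728R2.BL.posn h u i * x) * g i)
      rw [← h2, map_sum, Finset.sum_mul_sum]
      refine Finset.sum_congr rfl fun i _ => Finset.sum_congr rfl fun j _ => ?_
      rw [map_mul]
      ring
    rw [Finset.sum_congr rfl fun u _ => h1 u, Finset.sum_comm]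
    refine Finset.sum_congr rfl fun i _ => ?_
    rw [Finset.sum_comm]
    refine Finset.sum_congr rfl fun j _ => ?_
    unfold B1B_C
    rw [Finset.mul_sum]
  -- difference
  have hdiff : (((∑ u : Fin n → Fin H, ‖∑ i, e (Pool.Agent.H728R2.BL.posn h u i * x) * g i‖ ^ 2)
        - (H:ℝ) ^ n * ∑ i, ‖g i‖ ^ 2 : ℝ) : ℂ)
      = ∑ i, ∑ j, (if i = j then 0 else g i * starRingEnd ℂ (g j) * B1B_C n h H x i j) := by
    rw [Complex.ofReal_sub, hexp]
    have h1 : (((H:ℝ) ^ n * ∑ i, ‖g i‖ ^ 2 : ℝ) : ℂ)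
        = ∑ i, ∑ j, (if i = j then g i * starRingEnd ℂ (g j) * B1B_C n h H x i j else 0) := by
      simp only [Finset.sum_ite_eq, Finset.mem_univ, if_true, B1B_C_self, Complex.mul_conj']
      push_cast
      rw [Finset.mul_sum]
      exact Finset.sum_congr rfl fun i _ => by ring
    rw [h1, ← Finset.sum_sub_distrib]
    refine Finset.sum_congr rfl fun i _ => ?_
    rw [← Finset.sum_sub_distrib]
    refine Finset.sum_congr rfl fun j _ => ?_
    by_cases hij : i = j <;> simp [hij]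
  have hbound : |(∑ u : Fin n → Fin H, ‖∑ i, e (Pool.Agent.H728R2.BL.posn h u i * x) * g i‖ ^ 2)
        - (H:ℝ) ^ n * ∑ i, ‖g i‖ ^ 2| ≤ (H:ℝ) ^ n * ((2 * r / (1 - r)) * ∑ i, ‖g i‖ ^ 2) := by
    rw [← Real.norm_eq_abs, ← Complex.norm_real, hdiff]
    calc ‖∑ i, ∑ j, (if i = j then 0 else g i * starRingEnd ℂ (g j) * B1B_C n h H x i j)‖
        ≤ ∑ i, ∑ j, ‖(if i = j then 0 else g i * starRingEnd ℂ (g j) * B1B_C n h H x i j)‖ :=
          (norm_sum_le _ _).trans (Finset.sum_le_sum fun i _ => norm_sum_le _ _)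
      _ ≤ ∑ i, ∑ j, (H:ℝ) ^ n * (B1B_K r i j * ((‖g i‖ ^ 2 + ‖g j‖ ^ 2) / 2)) := by
          refine Finset.sum_le_sum fun i _ => Finset.sum_le_sum fun j _ => ?_
          by_cases hij : i = j
          · subst hij
            simp only [if_true, norm_zero]
            have := B1B_K_nonneg r hr0 i i
            positivity
          · simp only [hij, if_false]
            rw [norm_mul, norm_mul, Complex.norm_conj, B1B_C_norm n h H hH x i j hij, ← hr]
            have h1 := B1B_K_nonneg r hr0 i j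
            have h2 : ‖g i‖ * ‖g j‖ ≤ (‖g i‖ ^ 2 + ‖g j‖ ^ 2) / 2 := by
              nlinarith [sq_nonneg (‖g i‖ - ‖g j‖)]
            calc ‖g i‖ * ‖g j‖ * ((H:ℝ) ^ n * B1B_K r i j)
                = ((H:ℝ) ^ n * B1B_K r i j) * (‖g i‖ * ‖g j‖) := by ring
              _ ≤ ((H:ℝ) ^ n * B1B_K r i j) * ((‖g i‖ ^ 2 + ‖g j‖ ^ 2) / 2) :=
                  mul_le_mul_of_nonneg_left h2 (mul_nonneg hHn.le h1)
              _ = _ := by ring
      _ = (H:ℝ) ^ n * ∑ i, (∑ j, B1B_K r i j) * ‖g i‖ ^ 2 := by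
          have h1 : ∑ i, ∑ j, (H:ℝ) ^ n * (B1B_K r i j * ((‖g i‖ ^ 2 + ‖g j‖ ^ 2) / 2))
              = (H:ℝ) ^ n * ((∑ i, ∑ j, B1B_K r i j * ‖g i‖ ^ 2) / 2
                + (∑ i, ∑ j, B1B_K r i j * ‖g j‖ ^ 2) / 2) := by
            rw [← add_div, ← Finset.sum_add_distrib, Finset.sum_div, Finset.mul_sum]
            refine Finset.sum_congr rfl fun i _ => ?_
            rw [← Finset.sum_add_distrib, Finset.sum_div, Finset.mul_sum]
            exact Finset.sum_congr rfl fun j _ => by ring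
          have h2 : ∑ i, ∑ j, B1B_K r i j * ‖g j‖ ^ 2 = ∑ i, ∑ j, B1B_K r i j * ‖g i‖ ^ 2 := by
            rw [Finset.sum_comm]
            exact Finset.sum_congr rfl fun i _ => Finset.sum_congr rfl fun j _ => by
              rw [B1B_K_symm]
          rw [h1, h2, add_halves]
          congr 1
          exact Finset.sum_congr rfl fun i _ => by rw [Finset.sum_mul]
      _ ≤ (H:ℝ) ^ n * ∑ i, (2 * r / (1 - r)) * ‖g i‖ ^ 2 := by
          refine mul_le_mul_of_nonneg_left ?_ hHn.le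
          exact Finset.sum_le_sum fun i _ =>
            mul_le_mul_of_nonneg_right (B1B_K_sum r hr0 hx i) (sq_nonneg _)
      _ = _ := by rw [← Finset.mul_sum]
  have h1 : (∑ u : Fin n → Fin H, ‖∑ i, e (Pool.Agent.H728R2.BL.posn h u i * x) * g i‖ ^ 2) / (H : ℝ) ^ n
        - ∑ i, ‖g i‖ ^ 2
      = ((∑ u : Fin n → Fin H, ‖∑ i, e (Pool.Agent.H728R2.BL.posn h u i * x) * g i‖ ^ 2)
        - (H:ℝ) ^ n * ∑ i, ‖g i‖ ^ 2) / (H : ℝ) ^ n := by
    rw [sub_div, mul_div_cancel_left₀ _ hHn.ne']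
  rw [h1, abs_div, abs_of_pos hHn, div_le_iff₀ hHn]
  calc _ ≤ _ := hbound
    _ = _ := by ring

end

end Pool.Agent.H728R2.BL
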