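import Pool.Agent.H728R2.BL.Defs2
import Pool.Agent.H728R2.BL.X.B1A
import Pool.Agent.H728R2.BL.X.B1B
/-!
# B1: the noise lemma
-/

namespace Pool.Agent.H728R2.BL

open MeasureTheory Set Filter Topology Pool.Agent.H691R3.SL Pool.Agent.H728R2.BL
open scoped Real BigOperators

noncomputable section

/-- B1 (uses B1a, B1b): the noise lemma -/
theorem noise (n h H : ℕ) (hH : Even H) (hH2 : 2 ≤ H) (g : Fin n → ℂ) (x : ℝ) :
    W x * |(∑ u : Fin n → Fin H, ‖∑ i, e (Pool.Agent.H728R2.BL.posn h u i * x) * g i‖ ^ 2) / (H : ℝ) ^ n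
        - ∑ i, ‖g i‖ ^ 2| ≤ 80 / H * ∑ i, ‖g i‖ ^ 2 := by
  have hS : 0 ≤ ∑ i, ‖g i‖ ^ 2 := Finset.sum_nonneg fun i _ => by positivity
  have hW0 : 0 ≤ W x := by unfold W; positivity
  by_cases hW : W x = 0
  · rw [hW, zero_mul]
    have : (0:ℝ) ≤ 80 / (H:ℝ) := by positivity
    exact mul_nonneg this hS
  · obtain ⟨h1, h2⟩ := Pool.Agent.H728R2.BL.phi_bound H hH hH2 x hW
    have h3 := Pool.Agent.H728R2.BL.noise_cross n h H (by omega) g x h1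
    calc W x * |(∑ u : Fin n → Fin H, ‖∑ i, e (Pool.Agent.H728R2.BL.posn h u i * x) * g i‖ ^ 2) / (H : ℝ) ^ n
        - ∑ i, ‖g i‖ ^ 2|
        ≤ W x * ((2 * ‖Pool.Agent.H728R2.BL.phi H x‖ / (1 - ‖Pool.Agent.H728R2.BL.phi H x‖)) * ∑ i, ‖g i‖ ^ 2) :=
          mul_le_mul_of_nonneg_left h3 hW0
      _ = (W x * (2 * ‖Pool.Agent.H728R2.BL.phi H x‖ / (1 - ‖Pool.Agent.H728R2.BL.phi H x‖))) * ∑ i, ‖g i‖ ^ 2 := by ring
      _ ≤ 80 / H * ∑ i, ‖g i‖ ^ 2 := mul_le_mul_of_nonneg_right h2 hS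

end

end Pool.Agent.H728R2.BL
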