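import Pool.Agent.H728R2.BL.Defs2
/-!
# Combined positions of inner and outer blocks
-/

namespace Pool.Agent.H728R2.BL

/-- B2: combined positions: outer blocks of height `h` containing inner positions -/
theorem comb_sep (n r hin h : ℕ) (p : Fin n → ℕ) (q : Fin n → Fin r → ℕ)
    (hp : ∀ i j, i < j → p i + h ≤ p j) (hq : ∀ k i j, i < j → q k i + hin ≤ q k j)
    (ht : ∀ k i, q k i + hin ≤ h) :
    ∀ i j : Fin (n * r), i < j →
      p i.divNat + q i.divNat i.modNat + hin ≤ p j.divNat + q j.divNat j.modNat := by
  intro i j hij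
  have hij' : (i : ℕ) < (j : ℕ) := hij
  have hle : (i : ℕ) / r ≤ (j : ℕ) / r := Nat.div_le_div_right hij'.le
  rcases hle.lt_or_eq with hlt | heq
  · have h1 : i.divNat < j.divNat := by
      rw [Fin.lt_def]
      simpa [Fin.coe_divNat] using hlt
    have h2 := hp _ _ h1
    have h3 := ht i.divNat i.modNat
    omega
  · have h1 : i.divNat = j.divNat := by
      rw [Fin.ext_iff]
      simpa [Fin.coe_divNat] using heq
    have h2 : i.modNat < j.modNat := by
      rw [Fin.lt_def, Fin.coe_modNat, Fin.coe_modNat]
      have e1 := Nat.div_add_mod (i : ℕ) r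
      have e2 := Nat.div_add_mod (j : ℕ) r
      rw [heq] at e1
      omega
    rw [h1]
    have := hq j.divNat _ _ h2
    omega

end Pool.Agent.H728R2.BL
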