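import Pool.Agent.H728R2.BL.Defs2
import Pool.Agent.H728R2.BL.X.B0
import Pool.Agent.H728R2.BL.X.B1
import Pool.Agent.H728R2.BL.X.B2
namespace Pool.Agent.H728R2.BL

open MeasureTheory Set Filter Topology Pool.Agent.H691R3.SL
open scoped Real BigOperators

noncomputable section

theorem B5_posn_zero {n H : ℕ} (h : ℕ) (u : Fin n → Fin H) (i : Fin n) (hi : (i : ℕ) = 0) :
    Pool.Agent.H728R2.BL.posn h u i = 0 := by
  unfold Pool.Agent.H728R2.BL.posn
  rw [hi, zero_mul, zero_add]
  apply Finset.sum_eq_zero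
  intro j hj
  simp only [Finset.mem_filter, Finset.mem_univ, true_and] at hj
  have : (j : ℕ) < (i : ℕ) := hj
  omega

theorem B5_posn_sep {n H : ℕ} (h : ℕ) (u : Fin n → Fin H) (i j : Fin n) (hij : i < j) :
    Pool.Agent.H728R2.BL.posn h u i + h ≤ Pool.Agent.H728R2.BL.posn h u j := by
  unfold Pool.Agent.H728R2.BL.posn
  have h1 : ((i : ℕ) + 1) * h ≤ (j : ℕ) * h := by
    apply Nat.mul_le_mul_right
    have : (i : ℕ) < (j : ℕ) := hij
    omega
  have h2 : ∑ k ∈ Finset.univ.filter (fun k => k < i), (u k : ℕ)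
      ≤ ∑ k ∈ Finset.univ.filter (fun k => k < j), (u k : ℕ) := by
    apply Finset.sum_le_sum_of_subset
    intro k hk
    simp only [Finset.mem_filter, Finset.mem_univ, true_and] at hk ⊢
    exact lt_trans hk hij
  have h3 : ((i : ℕ) + 1) * h = (i : ℕ) * h + h := by ring
  omega

theorem B5_posn_top {n H : ℕ} (h : ℕ) (u : Fin n → Fin H) (i : Fin n) :
    Pool.Agent.H728R2.BL.posn h u i + h ≤ n * (h + H) := by
  unfold Pool.Agent.H728R2.BL.posn
  have h1 : ∑ k ∈ Finset.univ.filter (fun k => k < i), (u k : ℕ) ≤ n * H := by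
    calc ∑ k ∈ Finset.univ.filter (fun k => k < i), (u k : ℕ)
        ≤ ∑ k : Fin n, (u k : ℕ) := by
          apply Finset.sum_le_sum_of_subset
          exact Finset.filter_subset _ _
      _ ≤ ∑ k : Fin n, H := by
          apply Finset.sum_le_sum
          intro k _
          exact (u k).2.le
      _ = n * H := by simp
  have h2 : ((i : ℕ) + 1) * h ≤ n * h := by
    apply Nat.mul_le_mul_right
    exact i.2
  have h3 : ((i : ℕ) + 1) * h = (i : ℕ) * h + h := by ring
  have h4 : n * (h + H) = n * h + n * H := by ring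
  omega

/-- the new family of columns -/
def B5_fib {L : Lev} (F : Fib L) (m H : ℕ) (hm : 1 ≤ m) (hH2 : 2 ≤ H) : Fib L :=
  haveI : Nonempty (Fin H) := ⟨⟨0, by omega⟩⟩
  { M :=
      { Θ := F.M.Θ × (Fin m → Fin H)
        h := m * (F.M.h + H)
        hpos := Nat.mul_pos (by omega) (by have := F.M.hpos; omega)
        β := F.M.β / ((m : ℝ) * (H : ℝ) ^ m)
        βpos := div_pos F.M.βpos (mul_pos (by exact_mod_cast (by omega : 0 < m))
          (pow_pos (by exact_mod_cast (by omega : 0 < H)) _)) }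
    r := m * F.r
    hr := Nat.mul_pos hm F.hr
    cls := fun p => F.cls p.1
    Q := fun p i => Pool.Agent.H728R2.BL.posn F.M.h p.2 i.divNat + F.Q p.1 i.modNat
    Q0 := by
      intro p i hi
      have h1 : ((i.divNat : Fin m) : ℕ) = 0 := by
        rw [Fin.coe_divNat, hi, Nat.zero_div]
      have h2 : ((i.modNat : Fin F.r) : ℕ) = 0 := by
        rw [Fin.coe_modNat, hi, Nat.zero_mod]
      rw [B5_posn_zero F.M.h p.2 _ h1, F.Q0 p.1 _ h2]
    sep := by
      intro p
      exact Pool.Agent.H728R2.BL.comb_sep m F.r L.h F.M.h (fun i => Pool.Agent.H728R2.BL.posn F.M.h p.2 i) (fun _ => F.Q p.1)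
        (fun i j hij => B5_posn_sep F.M.h p.2 i j hij) (fun _ => F.sep p.1) (fun _ => F.top p.1)
    top := by
      intro p i
      have h1 := B5_posn_top F.M.h p.2 i.divNat
      have h2 := F.top p.1 i.modNat
      show Pool.Agent.H728R2.BL.posn F.M.h p.2 i.divNat + F.Q p.1 i.modNat + L.h ≤ m * (F.M.h + H)
      omega
    fib := by
      intro c
      have h1 := F.fib c
      have h2 : (Finset.univ.filter fun p : F.M.Θ × (Fin m → Fin H) => F.cls p.1 = c)
          = (Finset.univ.filter fun c' => F.cls c' = c) ×ˢ (Finset.univ : Finset (Fin m → Fin H)) := by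
        ext p
        simp
      show (Finset.univ.filter fun p : F.M.Θ × (Fin m → Fin H) => F.cls p.1 = c).card
        * Fintype.card L.Θ = Fintype.card (F.M.Θ × (Fin m → Fin H))
      rw [h2, Finset.card_product, Fintype.card_prod, ← h1, Finset.card_univ]
      ring
    hβ := by
      have h1 := F.hβ
      have hm0 : (m : ℝ) ≠ 0 := by
        have : 0 < m := hm
        positivity
      have hH0 : (H : ℝ) ≠ 0 := by
        have : 0 < H := by omega
        positivity
      show F.M.β / ((m : ℝ) * (H : ℝ) ^ m) * ((m * F.r : ℕ) : ℝ)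
        * (Fintype.card (F.M.Θ × (Fin m → Fin H)) : ℝ) = L.β * Fintype.card L.Θ
      rw [Fintype.card_prod, ← h1]
      simp only [Fintype.card_pi, Fintype.card_fin, Finset.prod_const, Finset.card_univ]
      push_cast
      field_simp }

theorem B5_sum_split (m r : ℕ) (f : Fin m → ℂ) (g : Fin r → ℂ) :
    ∑ i : Fin (m * r), f i.divNat * g i.modNat = (∑ i, f i) * ∑ j, g j := by
  rw [Finset.sum_mul_sum, ← Finset.sum_product', ← Finset.univ_product_univ.symm]
  rw [← Equiv.sum_comp finProdFinEquiv.symm]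
  rfl

theorem B5_qp {L : Lev} (F : Fib L) (m H : ℕ) (hm : 1 ≤ m) (hH2 : 2 ≤ H)
    (p : F.M.Θ × (Fin m → Fin H)) (x : ℝ) :
    (B5_fib F m H hm hH2).qp p x
      = (∑ i, e (Pool.Agent.H728R2.BL.posn F.M.h p.2 i * x)) * F.qp p.1 x := by
  unfold Fib.qp
  show ∑ i : Fin (m * F.r), e (((Pool.Agent.H728R2.BL.posn F.M.h p.2 i.divNat + F.Q p.1 i.modNat : ℕ) : ℝ) * x) = _
  rw [← B5_sum_split m F.r (fun i => e (Pool.Agent.H728R2.BL.posn F.M.h p.2 i * x)) (fun j => e (F.Q p.1 j * x))]
  apply Finset.sum_congr rfl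
  intro i _
  rw [← Pool.Agent.H728R2.BL.e_basic.1]
  congr 1
  push_cast
  ring

theorem reach_raise (L : Lev) (h : ℕ) (D : L.Θ → ℝ → ℝ) (κ : ℝ) (hR : Reach L h D κ)
    (m H : ℕ) (hm : 1 ≤ m) (hH : Even H) (hH2 : 2 ≤ H) :
    ∃ R : ℝ → ℝ, Continuous R ∧ (∀ x, 0 ≤ R x) ∧ (∀ x, W x * |R x - 1| ≤ 80 / H) ∧
      Reach L (m * (h + H)) (fun c x => D c x * R x) (κ / m) := by
  obtain ⟨F, hF1, hF2, hF3⟩ := hR
  have hm0 : (0 : ℝ) < m := by exact_mod_cast (by omega : 0 < m)
  have hH0 : (0 : ℝ) < H := by exact_mod_cast (by omega : 0 < H)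
  have hHm : (0 : ℝ) < (H : ℝ) ^ m := pow_pos hH0 _
  refine ⟨fun x => (∑ u : Fin m → Fin H, ‖∑ i, e (Pool.Agent.H728R2.BL.posn F.M.h u i * x)‖ ^ 2)
    / ((m : ℝ) * (H : ℝ) ^ m), ?_, ?_, ?_, ?_⟩
  · have hc := Pool.Agent.H728R2.BL.e_basic.2.2.2.2.1
    apply Continuous.div_const
    apply continuous_finsetSum
    intro u _
    apply Continuous.pow
    apply Continuous.norm
    apply continuous_finsetSum
    intro i _
    exact hc.comp (continuous_const.mul continuous_id)
  · intro x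
    apply div_nonneg
    · exact Finset.sum_nonneg fun u _ => by positivity
    · positivity
  · intro x
    have h1 := Pool.Agent.H728R2.BL.noise m F.M.h H hH hH2 (fun _ => (1 : ℂ)) x
    simp only [mul_one, norm_one, one_pow, Finset.sum_const, Finset.card_univ, Fintype.card_fin,
      nsmul_eq_mul] at h1
    set T := ∑ u : Fin m → Fin H, ‖∑ i, e (Pool.Agent.H728R2.BL.posn F.M.h u i * x)‖ ^ 2 with hT
    have h2 : T / (H : ℝ) ^ m - m = m * (T / ((m : ℝ) * (H : ℝ) ^ m) - 1) := by
      field_simp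
    rw [h2, abs_mul, abs_of_pos hm0] at h1
    have h3 : m * (W x * |T / ((m : ℝ) * (H : ℝ) ^ m) - 1|) ≤ m * (80 / H) := by
      calc m * (W x * |T / ((m : ℝ) * (H : ℝ) ^ m) - 1|)
          = W x * (m * |T / ((m : ℝ) * (H : ℝ) ^ m) - 1|) := by ring
        _ ≤ 80 / H * m := h1
        _ = m * (80 / H) := by ring
    exact le_of_mul_le_mul_left h3 hm0
  · refine ⟨B5_fib F m H hm hH2, ?_, ?_, ?_⟩
    · show m * (F.M.h + H) = m * (h + H)
      rw [hF1]
    · intro c x
      beta_reduce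
      rw [← hF2 c x]
      unfold Fib.D
      have h2 : (Finset.univ.filter fun p : F.M.Θ × (Fin m → Fin H) => F.cls p.1 = c)
          = (Finset.univ.filter fun c' => F.cls c' = c) ×ˢ (Finset.univ : Finset (Fin m → Fin H)) := by
        ext p
        simp
      show F.M.β / ((m : ℝ) * (H : ℝ) ^ m) / L.β
        * ∑ p ∈ (Finset.univ.filter fun p : F.M.Θ × (Fin m → Fin H) => F.cls p.1 = c),
          ‖(B5_fib F m H hm hH2).qp p x‖ ^ 2 = _
      have h3 : ∑ p ∈ (Finset.univ.filter fun p : F.M.Θ × (Fin m → Fin H) => F.cls p.1 = c),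
          ‖(B5_fib F m H hm hH2).qp p x‖ ^ 2
          = (∑ c' ∈ Finset.univ.filter (fun c' => F.cls c' = c), ‖F.qp c' x‖ ^ 2)
            * ∑ u : Fin m → Fin H, ‖∑ i, e (Pool.Agent.H728R2.BL.posn F.M.h u i * x)‖ ^ 2 := by
        rw [h2, Finset.sum_product, Finset.sum_mul_sum]
        apply Finset.sum_congr rfl
        intro c' _
        apply Finset.sum_congr rfl
        intro u _
        rw [B5_qp, norm_mul, mul_pow]
        ring
      rw [h3]
      ring
    · show F.M.β / ((m : ℝ) * (H : ℝ) ^ m) * (Fintype.card (F.M.Θ × (Fin m → Fin H)) : ℝ) = κ / m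
      rw [← hF3, Fintype.card_prod]
      simp only [Fintype.card_pi, Fintype.card_fin, Finset.prod_const, Finset.card_univ]
      push_cast
      field_simp

end

end Pool.Agent.H728R2.BL
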