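import Pool.Agent.H728R2.BL.Defs2
import Pool.Agent.H728R2.BL.X.B0
import Pool.Agent.H728R2.BL.X.B2
namespace Pool.Agent.H728R2.BL

open MeasureTheory Set Filter Topology Pool.Agent.H691R3.SL
open scoped Real BigOperators

noncomputable section

/-- positions with given inner height, outer height and exponential sum -/
def B6_P (R hin hout : ℕ) (f : ℝ → ℂ) : Prop :=
  ∃ Q : Fin R → ℕ, (∀ i : Fin R, (i : ℕ) = 0 → Q i = 0) ∧ (∀ i j, i < j → Q i + hin ≤ Q j) ∧
    (∀ i, Q i + hin ≤ hout) ∧ ∀ x : ℝ, ∑ i, e (Q i * x) = f x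

theorem B6_sum_split (m r : ℕ) (f : Fin m → ℂ) (g : Fin r → ℂ) :
    ∑ i : Fin (m * r), f i.divNat * g i.modNat = (∑ i, f i) * ∑ j, g j := by
  rw [Finset.sum_mul_sum, ← Finset.sum_product', ← Finset.univ_product_univ.symm]
  rw [← Equiv.sum_comp finProdFinEquiv.symm]
  rfl

theorem B6_double {R hin hout hout' n : ℕ} {f : ℝ → ℂ} (hP : B6_P R hin hout f)
    (h1 : hout ≤ n) (h2 : n + hout ≤ hout') :
    B6_P (2 * R) hin hout' (fun x => f x * (1 + e (n * x))) := by
  obtain ⟨Q, hQ0, hQs, hQt, hQe⟩ := hP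
  have key : ∀ k : Fin 2, (![0, n] k : ℕ) ≤ n := by
    intro k
    fin_cases k <;> simp
  refine ⟨fun i => (![0, n] : Fin 2 → ℕ) i.divNat + Q i.modNat, ?_, ?_, ?_, ?_⟩
  · intro i hi
    have a1 : (i.divNat : Fin 2) = 0 := by
      apply Fin.ext
      rw [Fin.coe_divNat, hi, Nat.zero_div]
      rfl
    have a2 : ((i.modNat : Fin R) : ℕ) = 0 := by
      rw [Fin.coe_modNat, hi, Nat.zero_mod]
    beta_reduce
    rw [a1, hQ0 _ a2]
    rfl
  · apply Pool.Agent.H728R2.BL.comb_sep 2 R hin hout (![0, n] : Fin 2 → ℕ) (fun _ => Q)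
    · intro i j hij
      fin_cases i <;> fin_cases j <;> simp_all
    · intro _
      exact hQs
    · intro _
      exact hQt
  · intro i
    have a1 := key i.divNat
    have a2 := hQt i.modNat
    show (![0, n] : Fin 2 → ℕ) i.divNat + Q i.modNat + hin ≤ hout'
    omega
  · intro x
    have a1 := B6_sum_split 2 R (fun k => e (((![0, n] : Fin 2 → ℕ) k : ℕ) * x)) (fun j => e (Q j * x))
    rw [hQe x] at a1
    have a2 : ∑ k : Fin 2, e (((![0, n] : Fin 2 → ℕ) k : ℕ) * x) = 1 + e (n * x) := by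
      rw [Fin.sum_univ_two]
      simp [Pool.Agent.H728R2.BL.e_basic.2.1]
    rw [a2] at a1
    beta_reduce
    rw [mul_comm (f x), ← a1]
    apply Finset.sum_congr rfl
    intro i _
    rw [← Pool.Agent.H728R2.BL.e_basic.1]
    congr 1
    push_cast
    ring

theorem B6_iter {r hin : ℕ} {f : ℝ → ℂ} (hh n : ℕ → ℕ) (hP : B6_P r hin (hh 0) f) (d : ℕ)
    (h1 : ∀ k, k < d → hh k ≤ n k) (h2 : ∀ k, k < d → n k + hh k ≤ hh (k + 1)) :
    B6_P (r * 2 ^ d) hin (hh d) (fun x => f x * ∏ k ∈ Finset.range d, (1 + e (n k * x))) := by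
  induction d with
  | zero => simpa using hP
  | succ d ih =>
    have a1 := ih (fun k hk => h1 k (by omega)) (fun k hk => h2 k (by omega))
    have a2 := B6_double a1 (h1 d (by omega)) (h2 d (by omega))
    have a3 : r * 2 ^ (d + 1) = 2 * (r * 2 ^ d) := by ring
    rw [a3]
    have a4 : (fun x => f x * ∏ k ∈ Finset.range (d + 1), (1 + e (n k * x)))
        = fun x => f x * (∏ k ∈ Finset.range d, (1 + e (n k * x))) * (1 + e (n d * x)) := by
      funext x
      rw [Finset.prod_range_succ, mul_assoc]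
    rw [a4]
    exact a2

theorem B6_norm (n : ℤ) (x : ℝ) : ‖1 + e (n * x)‖ ^ 2 = 2 * (1 + cs n x) := by
  unfold e cs
  have h1 : (2 * π * ((n * x : ℝ) : ℂ) * Complex.I) = ((2 * π * n * x : ℝ) : ℂ) * Complex.I := by
    push_cast
    ring
  rw [h1, Complex.exp_mul_I, ← Complex.ofReal_cos, ← Complex.ofReal_sin]
  set θ : ℝ := 2 * π * n * x with hθ
  have h2 : ‖(1 : ℂ) + ((Real.cos θ : ℂ) + (Real.sin θ : ℂ) * Complex.I)‖ ^ 2
      = (1 + Real.cos θ) ^ 2 + Real.sin θ ^ 2 := by
    rw [← Complex.normSq_eq_norm_sq, Complex.normSq_apply]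
    simp only [Complex.add_re, Complex.one_re, Complex.ofReal_re, Complex.mul_re, Complex.I_re,
      Complex.ofReal_im, Complex.I_im, Complex.add_im, Complex.one_im, Complex.mul_im]
    ring
  rw [h2]
  have h3 := Real.sin_sq_add_cos_sq θ
  nlinarith

theorem reach_block (L : Lev) (h : ℕ) (D : L.Θ → ℝ → ℝ) (κ : ℝ) (hR : Reach L h D κ)
    (d : ℕ) (R : Type) [Fintype R] [Nonempty R] (b : L.Θ → R → Fin d → ℤ) (S : ℕ → ℕ)
    (hb : ∀ c a (i : Fin d), |b c a i| ≤ S i) :
    Reach L (hts h S d)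
      (fun c x => D c x * GG (fun i : Fin d => hts h S i + S i) (b c) x) (κ / 2 ^ d) := by
  classical
  obtain ⟨F, hF1, hF2, hF3⟩ := hR
  -- gaps
  have hgap : ∀ (c : L.Θ) (a : R), ∃ n : ℕ → ℕ, (∀ i : Fin d, (n i : ℤ)
      = ((hts h S i + S i : ℕ) : ℤ) + b c a i) := by
    intro c a
    refine ⟨fun k => if hk : k < d then
      (((hts h S k + S k : ℕ) : ℤ) + b c a ⟨k, hk⟩).toNat else 0, ?_⟩
    intro i
    have h1 := hb c a i
    rw [abs_le] at h1
    simp only [i.2, dif_pos, Fin.eta]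
    rw [Int.toNat_of_nonneg]
    push_cast
    have : (0 : ℤ) ≤ hts h S i := by positivity
    omega
  choose n hn using hgap
  have hpos : ∀ (p : F.M.Θ × R), B6_P (F.r * 2 ^ d) L.h (hts h S d)
      (fun x => F.qp p.1 x * ∏ k ∈ Finset.range d, (1 + e (n (F.cls p.1) p.2 k * x))) := by
    intro p
    apply B6_iter (hts h S) (n (F.cls p.1) p.2)
    · refine ⟨F.Q p.1, F.Q0 p.1, F.sep p.1, ?_, fun x => rfl⟩
      intro i
      have := F.top p.1 i
      rw [hF1] at this
      exact this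
    · intro k hk
      have h1 := hb (F.cls p.1) p.2 ⟨k, hk⟩
      have h2 := hn (F.cls p.1) p.2 ⟨k, hk⟩
      rw [abs_le] at h1
      simp only at h1 h2
      push_cast at h2
      omega
    · intro k hk
      have h1 := hb (F.cls p.1) p.2 ⟨k, hk⟩
      have h2 := hn (F.cls p.1) p.2 ⟨k, hk⟩
      rw [abs_le] at h1
      simp only at h1 h2
      push_cast at h2
      have h3 : hts h S (k + 1) = 2 * (hts h S k + S k) := rfl
      omega
  choose Q hQ0 hQs hQt hQe using hpos
  have hcR : (0 : ℝ) < (Fintype.card R : ℝ) := by exact_mod_cast Fintype.card_pos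
  have h2d : (0 : ℝ) < (2 : ℝ) ^ d := by positivity
  have hhpos : 0 < hts h S d := by
    obtain ⟨p⟩ : Nonempty (F.M.Θ × R) := inferInstance
    have hr : 0 < F.r * 2 ^ d := Nat.mul_pos F.hr (by positivity)
    have := hQt p ⟨0, hr⟩
    have := L.hpos
    omega
  let M' : Lev :=
      { Θ := F.M.Θ × R
        de := Classical.decEq _
        h := hts h S d
        hpos := hhpos
        β := F.M.β / ((2 : ℝ) ^ d * (Fintype.card R : ℝ))
        βpos := div_pos F.M.βpos (mul_pos h2d hcR) }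
  have hfil : ∀ c : L.Θ, (Finset.univ.filter fun p : F.M.Θ × R => F.cls p.1 = c)
          = (Finset.univ.filter fun c' => F.cls c' = c) ×ˢ (Finset.univ : Finset R) := by
    intro c
    ext p
    simp
  let F' : Fib L :=
    { M := M'
      r := F.r * 2 ^ d
      hr := Nat.mul_pos F.hr (by positivity)
      cls := fun p => F.cls p.1
      Q := Q
      Q0 := hQ0
      sep := hQs
      top := hQt
      fib := by
        intro c
        have h1 := F.fib c
        show (Finset.univ.filter fun p : F.M.Θ × R => F.cls p.1 = c).card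
          * Fintype.card L.Θ = Fintype.card (F.M.Θ × R)
        rw [hfil c, Finset.card_product, Fintype.card_prod, ← h1, Finset.card_univ]
        ring
      hβ := by
        have h1 := F.hβ
        show F.M.β / ((2 : ℝ) ^ d * (Fintype.card R : ℝ)) * ((F.r * 2 ^ d : ℕ) : ℝ)
          * (Fintype.card (F.M.Θ × R) : ℝ) = L.β * Fintype.card L.Θ
        rw [Fintype.card_prod, ← h1]
        push_cast
        field_simp }
  refine ⟨F', rfl, ?_, ?_⟩
  · intro c x
    beta_reduce
    rw [← hF2 c x]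
    unfold Fib.D
    show F.M.β / ((2 : ℝ) ^ d * (Fintype.card R : ℝ)) / L.β
      * ∑ p ∈ (Finset.univ.filter fun p : F.M.Θ × R => F.cls p.1 = c), ‖F'.qp p x‖ ^ 2 = _
    have hqp : ∀ p : F.M.Θ × R, F.cls p.1 = c → ‖F'.qp p x‖ ^ 2 = ‖F.qp p.1 x‖ ^ 2
        * (2 ^ d * ∏ i : Fin d, (1 + cs (((hts h S i + S i : ℕ) : ℤ) + b c p.2 i) x)) := by
      intro p hp
      have h1 : F'.qp p x = F.qp p.1 x
          * ∏ k ∈ Finset.range d, (1 + e (n (F.cls p.1) p.2 k * x)) := hQe p x
      rw [h1, norm_mul, mul_pow, norm_prod, ← Finset.prod_pow]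
      congr 1
      rw [Finset.prod_range (fun k => ‖1 + e (n (F.cls p.1) p.2 k * x)‖ ^ 2)]
      have h2 : (2 : ℝ) ^ d = ∏ _i : Fin d, (2 : ℝ) := by simp
      rw [h2, ← Finset.prod_mul_distrib]
      apply Finset.prod_congr rfl
      intro i _
      have h3 := hn (F.cls p.1) p.2 i
      have h4 : ((n (F.cls p.1) p.2 i : ℕ) : ℝ) = ((n (F.cls p.1) p.2 i : ℤ) : ℝ) := by
        push_cast
        rfl
      rw [h4, B6_norm, h3, hp]
    have h3 : ∑ p ∈ (Finset.univ.filter fun p : F.M.Θ × R => F.cls p.1 = c), ‖F'.qp p x‖ ^ 2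
        = (∑ c' ∈ Finset.univ.filter (fun c' => F.cls c' = c), ‖F.qp c' x‖ ^ 2)
          * ∑ a : R, (2 ^ d * ∏ i : Fin d, (1 + cs (((hts h S i + S i : ℕ) : ℤ) + b c a i) x)) := by
      rw [hfil c, Finset.sum_product, Finset.sum_mul_sum]
      apply Finset.sum_congr rfl
      intro c' hc'
      simp only [Finset.mem_filter, Finset.mem_univ, true_and] at hc'
      apply Finset.sum_congr rfl
      intro a _
      exact hqp (c', a) hc'
    rw [h3, ← Finset.mul_sum]
    unfold GG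
    field_simp
  · show F.M.β / ((2 : ℝ) ^ d * (Fintype.card R : ℝ)) * (Fintype.card (F.M.Θ × R) : ℝ) = κ / 2 ^ d
    rw [← hF3, Fintype.card_prod]
    push_cast
    field_simp

end

end Pool.Agent.H728R2.BL
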