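import Pool.Agent.H728R2.BL.Defs2
/-!
# B7: existence of dissociated heights of doubling towers

The two dissociation lemmas are adapted from helper892's file `Pool/Agent/H892R2/BU/DissEx.lean`.
The gaps `S` are chosen so that the `i`-th frequency is exactly `2^i h + C 10^i`.
-/

namespace Pool.Agent.H728R2.BL

open MeasureTheory Set Filter Topology Pool.Agent.H691R3.SL
open scoped Real BigOperators

noncomputable section

/-- lacunary sequences are dissociated -/
theorem B7_aux_lac {d : ℕ} (K : ℕ) (N : Fin d → ℤ) (hpos : ∀ i, 0 < N i)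
    (h : ∀ i, (K : ℤ) + 4 * ∑ j ∈ Finset.univ.filter (· < i), N j < N i)
    (m : Fin d → ℤ) (hm : m ≠ 0) (hb : ∀ i, |m i| ≤ 4) : (K : ℤ) < |∑ i, m i * N i| := by
  have hne : (Finset.univ.filter (fun i => m i ≠ 0)).Nonempty := by
    by_contra hc
    rw [Finset.not_nonempty_iff_eq_empty] at hc
    apply hm
    ext i
    by_contra hi
    have : i ∈ Finset.univ.filter (fun i => m i ≠ 0) := by simp; exact hi
    rw [hc] at this
    simp at this
  set t := (Finset.univ.filter (fun i => m i ≠ 0)).max' hne with ht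
  have htm : m t ≠ 0 := by
    have := Finset.max'_mem _ hne
    rw [Finset.mem_filter] at this
    exact this.2
  have htop : ∀ i, t < i → m i = 0 := by
    intro i hi
    by_contra hc
    have := Finset.le_max' (Finset.univ.filter (fun i => m i ≠ 0)) i (by simp; exact hc)
    exact absurd hi (not_lt.2 this)
  have h1 : ∑ i, m i * N i = m t * N t + ∑ i ∈ Finset.univ.filter (· < t), m i * N i := by
    rw [← Finset.add_sum_erase Finset.univ _ (Finset.mem_univ t)]
    congr 1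
    rw [← Finset.sum_filter_add_sum_filter_not (Finset.univ.erase t) (fun i => i < t)]
    rw [show (Finset.univ.erase t).filter (fun i => i < t) = Finset.univ.filter (· < t) by
      ext i; simp only [Finset.mem_filter, Finset.mem_erase, Finset.mem_univ, and_true, true_and]
      constructor
      · exact fun h => h.2
      · exact fun h => ⟨h.ne, h⟩]
    rw [Finset.sum_eq_zero (s := (Finset.univ.erase t).filter (fun i => ¬ i < t)), add_zero]
    intro i hi
    simp only [Finset.mem_filter, Finset.mem_erase, Finset.mem_univ, and_true] at hi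
    rw [htop i (lt_of_le_of_ne (not_lt.1 hi.2) (Ne.symm hi.1)), zero_mul]
  have h2 : |∑ i ∈ Finset.univ.filter (· < t), m i * N i| ≤
      4 * ∑ j ∈ Finset.univ.filter (· < t), N j := by
    refine (Finset.abs_sum_le_sum_abs _ _).trans ?_
    rw [Finset.mul_sum]
    apply Finset.sum_le_sum
    intro i _
    rw [abs_mul, abs_of_pos (hpos i)]
    exact mul_le_mul_of_nonneg_right (hb i) (hpos i).le
  have h3 : N t ≤ |m t * N t| := by
    rw [abs_mul, abs_of_pos (hpos t)]
    have : 1 ≤ |m t| := Int.one_le_abs htm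
    nlinarith [hpos t]
  have h4 := h t
  rw [h1]
  have h5 := abs_sub_abs_le_abs_sub (m t * N t) (-(∑ i ∈ Finset.univ.filter (· < t), m i * N i))
  rw [abs_neg, sub_neg_eq_add] at h5
  linarith

/-- `N_i = 2^i h + T_i` with `T` lacunary and `h` huge -/
theorem B7_aux_dbl {d : ℕ} (K : ℕ) (T : Fin d → ℤ) (h : ℤ) (hpos : ∀ i, 0 < T i)
    (hT : ∀ i, (K : ℤ) + 4 * ∑ j ∈ Finset.univ.filter (· < i), T j < T i)
    (hh : (K : ℤ) + 4 * ∑ i, T i < h) (m : Fin d → ℤ) (hm : m ≠ 0) (hb : ∀ i, |m i| ≤ 4) :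
    (K : ℤ) < |∑ i, m i * (2 ^ (i : ℕ) * h + T i)| := by
  have e : ∑ i, m i * (2 ^ (i : ℕ) * h + T i) = (∑ i, m i * 2 ^ (i : ℕ)) * h + ∑ i, m i * T i := by
    rw [Finset.sum_mul, ← Finset.sum_add_distrib]
    apply Finset.sum_congr rfl
    intro i _
    ring
  rw [e]
  by_cases h0 : ∑ i, m i * (2:ℤ) ^ (i : ℕ) = 0
  · rw [h0, zero_mul, zero_add]
    exact B7_aux_lac K T hpos hT m hm hb
  · have h2 : |∑ i, m i * T i| ≤ 4 * ∑ j, T j := by
      refine (Finset.abs_sum_le_sum_abs _ _).trans ?_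
      rw [Finset.mul_sum]
      apply Finset.sum_le_sum
      intro i _
      rw [abs_mul, abs_of_pos (hpos i)]
      exact mul_le_mul_of_nonneg_right (hb i) (hpos i).le
    have h6 : 0 ≤ ∑ i, T i := Finset.sum_nonneg fun i _ => (hpos i).le
    have hh0 : 0 < h := by
      have : (0:ℤ) ≤ K := by positivity
      linarith
    have h3 : h ≤ |(∑ i, m i * (2:ℤ) ^ (i : ℕ)) * h| := by
      rw [abs_mul, abs_of_pos hh0]
      have : 1 ≤ |∑ i, m i * (2:ℤ) ^ (i : ℕ)| := Int.one_le_abs h0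
      nlinarith
    have h5 := abs_sub_abs_le_abs_sub ((∑ i, m i * (2:ℤ) ^ (i : ℕ)) * h) (-(∑ i, m i * T i))
    rw [abs_neg, sub_neg_eq_add] at h5
    linarith

/-- the gaps -/
def B7_aux_S (C : ℕ) : ℕ → ℕ
  | 0 => C
  | i + 1 => 8 * C * 10 ^ i

theorem B7_aux_hts (C h : ℕ) : ∀ i, hts h (B7_aux_S C) i + B7_aux_S C i = 2 ^ i * h + C * 10 ^ i
  | 0 => by simp [hts, B7_aux_S]
  | i + 1 => by
      have ih := B7_aux_hts C h i
      show 2 * (hts h (B7_aux_S C) i + B7_aux_S C i) + 8 * C * 10 ^ i = _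
      rw [ih]
      ring

theorem B7_aux_geom (n : ℕ) : 9 * ∑ j ∈ Finset.range n, (10:ℤ) ^ j = 10 ^ n - 1 := by
  induction n with
  | zero => simp
  | succ n ih => rw [Finset.sum_range_succ, mul_add, ih]; ring

theorem B7_aux_sumlt {d : ℕ} (i : Fin d) (f : ℕ → ℤ) :
    ∑ j ∈ Finset.univ.filter (fun j : Fin d => j < i), f j = ∑ j ∈ Finset.range (i : ℕ), f j := by
  refine Finset.sum_bij (fun (j : Fin d) _ => (j : ℕ)) ?_ ?_ ?_ ?_
  · intro a ha
    simp only [Finset.mem_filter, Finset.mem_univ, true_and] at ha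
    exact Finset.mem_range.2 ha
  · intro a _ b _ hab
    exact Fin.ext hab
  · intro b hb
    have hb' := Finset.mem_range.1 hb
    refine ⟨⟨b, hb'.trans i.2⟩, ?_, rfl⟩
    simp only [Finset.mem_filter, Finset.mem_univ, true_and]
    exact hb'
  · intro a _
    rfl

/-- B7: existence of dissociated heights. -/
theorem diss_exists (d K B : ℕ) (ε : ℝ) (hε : 0 < ε) :
    ∃ h1 : ℕ, ∀ h, h1 ≤ h → ∃ S : ℕ → ℕ, (∀ i, B ≤ S i) ∧
      Diss K (fun i : Fin d => hts h S i + S i) ∧
      (hts h S d : ℝ) ≤ 2 ^ d * h * (1 + ε) := by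
  set C : ℕ := 2 * K + B + 1 with hC
  obtain ⟨h2, hh2⟩ := exists_nat_ge ((C * 10 ^ d : ℕ) / ε : ℝ)
  refine ⟨max h2 (K + 4 * (C * 10 ^ d) + 1), fun h hh => ⟨B7_aux_S C, ?_, ?_, ?_⟩⟩
  · intro i
    cases i with
    | zero => show B ≤ C; omega
    | succ i =>
      show B ≤ 8 * C * 10 ^ i
      have : 1 ≤ 10 ^ i := Nat.one_le_pow _ _ (by norm_num)
      nlinarith
  · intro m hm hb
    have key := B7_aux_dbl (d := d) K (fun i => (C : ℤ) * 10 ^ (i : ℕ)) (h : ℤ)
      (fun i => by positivity) ?_ ?_ m hm hb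
    · have e : ∑ i, m i * ((hts h (B7_aux_S C) (i : ℕ) + B7_aux_S C (i : ℕ) : ℕ) : ℤ)
          = ∑ i, m i * (2 ^ (i : ℕ) * (h : ℤ) + (C : ℤ) * 10 ^ (i : ℕ)) := by
        apply Finset.sum_congr rfl
        intro i _
        rw [B7_aux_hts]
        push_cast
        ring
      rw [e]
      exact key
    · intro i
      rw [B7_aux_sumlt i (fun j => (C : ℤ) * 10 ^ j), ← Finset.mul_sum]
      have h9 := B7_aux_geom (i : ℕ)
      have hp : (1:ℤ) ≤ 10 ^ (i : ℕ) := one_le_pow₀ (by norm_num)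
      have hCK : (2 * K + 1 : ℤ) ≤ C := by rw [hC]; push_cast; linarith [Nat.cast_nonneg (α := ℤ) B]
      have hK : (0:ℤ) ≤ K := Int.natCast_nonneg K
      set s := ∑ j ∈ Finset.range (i : ℕ), (10:ℤ) ^ j with hs
      have e1 : 9 * (K + 4 * ((C:ℤ) * s)) = 9 * K + 4 * C * (10 ^ (i : ℕ) - 1) := by
        rw [← h9]; ring
      have e2 : (0:ℤ) ≤ (C : ℤ) * (10 ^ (i : ℕ) - 1) := by
        apply mul_nonneg
        · linarith
        · linarith
      nlinarith
    · have hsum : ∑ i : Fin d, (C : ℤ) * 10 ^ (i : ℕ) ≤ C * 10 ^ d := by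
        rw [← Finset.mul_sum, Fin.sum_univ_eq_sum_range (fun j => (10:ℤ) ^ j) d]
        have h9 := B7_aux_geom d
        have : (0:ℤ) ≤ 10 ^ d := by positivity
        apply mul_le_mul_of_nonneg_left _ (by positivity)
        linarith
      have h3 : K + 4 * (C * 10 ^ d) + 1 ≤ h := (le_max_right _ _).trans hh
      have h4 : ((K + 4 * (C * 10 ^ d) + 1 : ℕ) : ℤ) ≤ (h : ℤ) := by exact_mod_cast h3
      push_cast at h4
      linarith
  · have h3 : hts h (B7_aux_S C) d ≤ 2 ^ d * h + C * 10 ^ d := by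
      have := B7_aux_hts C h d
      omega
    have h4 : (hts h (B7_aux_S C) d : ℝ) ≤ 2 ^ d * h + (C * 10 ^ d : ℕ) := by
      have : ((hts h (B7_aux_S C) d : ℕ) : ℝ) ≤ ((2 ^ d * h + C * 10 ^ d : ℕ) : ℝ) := by
        exact_mod_cast h3
      push_cast at this ⊢
      linarith
    have h5 : ((C * 10 ^ d : ℕ) : ℝ) ≤ ε * h := by
      have h6 : (h2 : ℝ) ≤ h := by exact_mod_cast (le_max_left _ _).trans hh
      have h7 := hh2.trans h6
      rw [div_le_iff₀ hε] at h7
      linarith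
    have h8 : ε * (h : ℝ) ≤ 2 ^ d * (h * ε) := by
      have : (1:ℝ) ≤ 2 ^ d := one_le_pow₀ (by norm_num)
      have h9 : 0 ≤ (h : ℝ) * ε := by positivity
      nlinarith
    calc (hts h (B7_aux_S C) d : ℝ) ≤ 2 ^ d * h + (C * 10 ^ d : ℕ) := h4
      _ ≤ 2 ^ d * h + ε * h := by linarith
      _ ≤ 2 ^ d * h + 2 ^ d * (h * ε) := by linarith
      _ = 2 ^ d * h * (1 + ε) := by ring

end

end Pool.Agent.H728R2.BL
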