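import Pool.Agent.H728R2.BL.Defs2
import Pool.Agent.H691R3.SLF.F_M12
import Pool.Agent.H892R2.BU.B9
import Pool.Agent.H892R2.BU.B10
import Pool.Agent.H892R2.BU.Ortho
/-!
# B8: the block lemma for dissociated frequencies
-/

namespace Pool.Agent.H728R2.BL

open MeasureTheory Set Filter Topology Pool.Agent.H691R3.SL H892BU.B
open scoped Real BigOperators

noncomputable section

theorem B8_cs_cont (k : ℤ) : Continuous (cs k) := by
  unfold cs
  fun_prop

theorem B8_tp_cont (m : ℕ) (a : ℕ → ℝ) : Continuous (tp m a) := by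
  unfold tp
  exact continuous_finsetSum _ fun j _ => continuous_const.mul (B8_cs_cont _)

theorem B8_tp_even (m : ℕ) (a : ℕ → ℝ) (x : ℝ) : tp m a (-x) = tp m a x := by
  unfold tp cs
  apply Finset.sum_congr rfl
  intro j _
  congr 1
  rw [← Real.cos_neg]
  congr 1
  ring

theorem B8_tp_per (m : ℕ) (a : ℕ → ℝ) (x : ℝ) : tp m a (x + 1) = tp m a x := by
  unfold tp cs
  apply Finset.sum_congr rfl
  intro j _
  congr 1
  have : 2 * π * ((j : ℤ) : ℝ) * (x + 1) = 2 * π * ((j : ℤ) : ℝ) * x + (j : ℤ) * (2 * π) := by ring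
  rw [this, Real.cos_add_int_mul_two_pi]

theorem B8_tp_bd (m : ℕ) (a : ℕ → ℝ) (x : ℝ) : |tp m a x| ≤ ∑ j ∈ Finset.range m, |a j| := by
  unfold tp
  refine (Finset.abs_sum_le_sum_abs _ _).trans (Finset.sum_le_sum fun j _ => ?_)
  rw [abs_mul]
  exact mul_le_of_le_one_right (abs_nonneg _) (Real.abs_cos_le_one _)

theorem B8_tp_EP (m : ℕ) (a : ℕ → ℝ) : tp m a ∈ H892BU.EP m := by
  have h : tp m a = ∑ j ∈ Finset.range m, a j • (fun x : ℝ => Real.cos (2 * π * (j : ℕ) * x)) := by
    ext x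
    unfold tp cs
    rw [Finset.sum_apply]
    apply Finset.sum_congr rfl
    intro j _
    simp
  rw [h]
  apply Submodule.sum_mem
  intro j hj
  apply Submodule.smul_mem
  exact H892BU.cos_mem_EP (Finset.mem_range.1 hj).le

theorem B8_prod (d : ℕ) (n : Fin d → ℤ) (x : ℝ) :
    ∏ i, (1 + cs (n i) x) = H892BU.SF n (fun _ _ => 1) x := by
  unfold H892BU.SF H892BU.cp
  rw [Finset.prod_one_add]
  rw [Finset.powerset_univ]
  apply Finset.sum_congr rfl
  intro T _
  rw [one_mul]
  rfl

theorem B8_diss {d : ℕ} {N : Fin d → ℕ} {K B m0 : ℕ} (hN : Diss K N) (hK : m0 + d * B ≤ K)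
    (b : Fin d → ℤ) (hb : ∀ i, |b i| ≤ B) : H892BU.Diss m0 1 (fun i => (N i : ℤ) + b i) := by
  intro m hm h1
  have h2 := hN m hm (fun i => (h1 i).trans (by norm_num))
  have e : ∑ i, m i * ((N i : ℤ) + b i) = ∑ i, m i * (N i : ℤ) + ∑ i, m i * b i := by
    rw [← Finset.sum_add_distrib]
    apply Finset.sum_congr rfl
    intro i _
    ring
  have h3 : |∑ i, m i * b i| ≤ d * B := by
    refine (Finset.abs_sum_le_sum_abs _ _).trans ?_
    calc ∑ i, |m i * b i| ≤ ∑ _i : Fin d, (B : ℤ) := by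
          apply Finset.sum_le_sum
          intro i _
          rw [abs_mul]
          calc |m i| * |b i| ≤ 1 * B := mul_le_mul (by exact_mod_cast h1 i) (hb i) (abs_nonneg _) (by norm_num)
            _ = B := one_mul _
      _ = d * B := by simp
  rw [e]
  have h5 := abs_sub_abs_le_abs_sub (∑ i, m i * (N i : ℤ)) (-(∑ i, m i * b i))
  rw [abs_neg, sub_neg_eq_add] at h5
  have hK' : (m0 : ℤ) + d * B ≤ K := by exact_mod_cast hK
  linarith

theorem B8_int {d : ℕ} {R : Type} [Fintype R] [Nonempty R] {N : Fin d → ℕ} {K B m0 : ℕ}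
    (hN : Diss K N) (hK : m0 + d * B ≤ K) (b : R → Fin d → ℤ) (hb : ∀ a i, |b a i| ≤ B)
    (a : ℕ → ℝ) :
    ∫ x in (0:ℝ)..1, tp m0 a x * GG N b x = ∫ x in (0:ℝ)..1, tp m0 a x := by
  have hR : (Fintype.card R : ℝ) ≠ 0 := by
    have : 0 < Fintype.card R := Fintype.card_pos
    positivity
  have h1 : ∀ x : ℝ, tp m0 a x * GG N b x = ∑ r : R, ((Fintype.card R : ℝ)⁻¹ *
      (tp m0 a x * H892BU.SF (fun i => (N i : ℤ) + b r i) (fun _ _ => 1) x)) := by
    intro x
    unfold GG
    rw [← Finset.mul_sum, ← Finset.mul_sum]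
    simp_rw [B8_prod]
    field_simp
  simp_rw [h1]
  have hc : ∀ r : R, Continuous (H892BU.SF (fun i => (N i : ℤ) + b r i) (fun _ _ => 1)) :=
    fun r => H892BU.continuous_SF fun _ => continuous_const
  rw [intervalIntegral.integral_finsetSum]
  · have h2 : ∀ r : R, ∫ x in (0:ℝ)..1, (Fintype.card R : ℝ)⁻¹ *
        (tp m0 a x * H892BU.SF (fun i => (N i : ℤ) + b r i) (fun _ _ => 1) x)
        = (Fintype.card R : ℝ)⁻¹ * ∫ x in (0:ℝ)..1, tp m0 a x := by
      intro r
      rw [intervalIntegral.integral_const_mul]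
      congr 1
      have := H892BU.int_SF (K := m0) (L := 0) (N := fun i => (N i : ℤ) + b r i)
        (B8_diss hN hK (b r) (hb r)) (B8_tp_EP m0 a) (a := fun _ _ => 1)
        (fun _ => H892BU.one_mem_EP 0)
      rw [this]
      simp
    rw [Finset.sum_congr rfl (fun r _ => h2 r), Finset.sum_const, Finset.card_univ, nsmul_eq_mul,
      ← mul_assoc, mul_inv_cancel₀ hR, one_mul]
  · intro r _
    apply Continuous.intervalIntegrable
    exact continuous_const.mul ((B8_tp_cont _ _).mul (hc r))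

theorem B8_nonneg {d : ℕ} {R : Type} [Fintype R] (N : Fin d → ℕ) (b : R → Fin d → ℤ) (x : ℝ) :
    0 ≤ GG N b x := by
  unfold GG
  refine div_nonneg (Finset.sum_nonneg fun a _ => Finset.prod_nonneg fun i _ => ?_)
    (by positivity)
  have : -1 ≤ cs ((N i : ℤ) + b a i) x := Real.neg_one_le_cos _
  linarith

/-- the regularised optimal decoder -/
theorem B8_dec {a b κ : ℝ} (ha : 0 ≤ a) (hb : 0 ≤ b) (hκ : 0 < κ) :
    (b / (a + b + κ)) ^ 2 * a + (1 - b / (a + b + κ)) ^ 2 * b ≤ hm a b + κ := by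
  have hs : 0 < a + b + κ := by linarith
  have h1 : (b / (a + b + κ)) ^ 2 * a + (1 - b / (a + b + κ)) ^ 2 * b
      = a * b / (a + b + κ) + κ * (b * (a + κ) / (a + b + κ) ^ 2) := by
    field_simp
    ring
  have h2 : b * (a + κ) / (a + b + κ) ^ 2 ≤ 1 := by
    rw [div_le_one (by positivity)]
    nlinarith [mul_nonneg ha hb, mul_nonneg hb hκ.le, mul_nonneg ha hκ.le, sq_nonneg a, sq_nonneg b, sq_nonneg κ]
  have h3 : a * b / (a + b + κ) ≤ hm a b := by
    unfold hm
    rcases eq_or_lt_of_le (add_nonneg ha hb) with h0 | h0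
    · have : a = 0 := by linarith
      subst this
      simp
    · exact div_le_div_of_nonneg_left (mul_nonneg ha hb) h0 (by linarith)
  rw [h1]
  nlinarith

theorem B8_hm_scale {s a b : ℝ} (hs : 0 < s) : hm (s * a) (s * b) = s * hm a b := by
  unfold hm
  rw [← mul_add]
  rw [show s * a * (s * b) = s * (s * (a * b)) by ring, mul_div_mul_left _ _ hs.ne', mul_div_assoc]


theorem B8_Diss {d : ℕ} {N : Fin d → ℕ} {K K1 : ℕ} (hN : Diss K N) (h : K1 ≤ K) :
    H892BU.Diss K1 4 (fun i => (N i : ℤ)) := by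
  intro m hm hb
  have := hN m hm (by exact_mod_cast hb)
  have h2 : (K1 : ℤ) ≤ K := by exact_mod_cast h
  linarith

/-- the limit of the slow averages along `DissF` -/
theorem B8_lim {d : ℕ} (hd : 2 ≤ d) (V : ℝ → ℝ) (hV : Continuous V) (A : ℕ → ℝ → ℝ)
    (hAc : ∀ k, Continuous (A k)) (hA0 : ∀ x, A 0 x = 1) :
    Tendsto (fun N : Fin d → ℤ => ∫ x in (0:ℝ)..1, V x * GAN (d := d) A N x) (DissF d)
      (𝓝 (∫ x in (0:ℝ)..1, V x)) := by
  have h := (orth_FN hd V A (fun k => (hV.mul (hAc k)).intervalIntegrable _ _)).1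
  simpa only [hA0, mul_one] using h

theorem B8_split {ι : Type} [Fintype ι] [DecidableEq ι] (p : ℝ → ℝ) (hpc : Continuous p)
    (u : ι → ℝ → ℝ) (huc : ∀ c, Continuous (u c)) (S : Finset ι) :
    (∑ c ∈ S, ∫ x in (0:ℝ)..1, p x ^ 2 * u c x)
        + (∑ c ∈ Sᶜ, ∫ x in (0:ℝ)..1, (1 - p x) ^ 2 * u c x)
      = ∫ x in (0:ℝ)..1, (p x ^ 2 * (∑ c ∈ S, u c x) + (1 - p x) ^ 2 * ∑ c ∈ Sᶜ, u c x) := by
  have hSc : ∀ (S : Finset ι), Continuous fun x => ∑ c ∈ S, u c x :=
    fun S => continuous_finsetSum _ fun c _ => huc c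
  have c1 : Continuous fun x => p x ^ 2 * (∑ c ∈ S, u c x) := (hpc.pow 2).mul (hSc S)
  have c2 : Continuous fun x => (1 - p x) ^ 2 * ∑ c ∈ Sᶜ, u c x :=
    ((continuous_const.sub hpc).pow 2).mul (hSc Sᶜ)
  have e := intervalIntegral.integral_add (μ := volume) (c1.intervalIntegrable 0 1) (c2.intervalIntegrable 0 1)
  rw [e]
  simp_rw [Finset.mul_sum]
  rw [intervalIntegral.integral_finsetSum, intervalIntegral.integral_finsetSum]
  · intro c _
    exact (((continuous_const.sub hpc).pow 2).mul (huc c)).intervalIntegrable _ _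
  · intro c _
    exact ((hpc.pow 2).mul (huc c)).intervalIntegrable _ _

theorem B8_other {ι : Type} [Fintype ι] [DecidableEq ι] (t : ι → ℝ → ℝ)
    (htc : ∀ c, Continuous (t c)) (ht0 : ∀ c x, 0 ≤ t c x) {d : ℕ} (hd : 2 ≤ d)
    (A : ι → ℕ → ℝ → ℝ) (hAc : ∀ c k, Continuous (A c k)) (hA0 : ∀ c x, A c 0 x = 1)
    (hpos : ∀ c N x, 0 ≤ GAN (d := d) (A c) N x) (S : Finset ι) (ε : ℝ) (hε : 0 < ε) :
    ∀ᶠ N in DissF d, Pot (fun c x => t c x * GAN (d := d) (A c) N x) S ≤ Pot t S + ε := by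
  obtain ⟨p, hpdef⟩ : ∃ p : ℝ → ℝ, p = fun x => (∑ c ∈ Sᶜ, t c x) /
    ((∑ c ∈ S, t c x) + (∑ c ∈ Sᶜ, t c x) + ε / 2) := ⟨_, rfl⟩
  have hS0 : ∀ (S : Finset ι) x, 0 ≤ ∑ c ∈ S, t c x := fun S x => Finset.sum_nonneg fun c _ => ht0 c x
  have hSc : ∀ (S : Finset ι), Continuous fun x => ∑ c ∈ S, t c x :=
    fun S => continuous_finsetSum _ fun c _ => htc c
  have hpc : Continuous p := by
    rw [hpdef]
    refine (hSc _).div (((hSc _).add (hSc _)).add continuous_const) fun x => ?_
    have := hS0 S x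
    have := hS0 Sᶜ x
    positivity
  -- the limit
  have hlim : Tendsto (fun N : Fin d → ℤ => (∑ c ∈ S, ∫ x in (0:ℝ)..1, (p x ^ 2 * t c x) *
      GAN (d := d) (A c) N x) + ∑ c ∈ Sᶜ, ∫ x in (0:ℝ)..1, ((1 - p x) ^ 2 * t c x) *
      GAN (d := d) (A c) N x) (DissF d) (𝓝 ((∑ c ∈ S, ∫ x in (0:ℝ)..1, p x ^ 2 * t c x)
        + ∑ c ∈ Sᶜ, ∫ x in (0:ℝ)..1, (1 - p x) ^ 2 * t c x)) := by
    refine Tendsto.add (tendsto_finsetSum _ fun c _ => ?_) (tendsto_finsetSum _ fun c _ => ?_)
    · exact B8_lim hd _ ((hpc.pow 2).mul (htc c)) (A c) (hAc c) (hA0 c)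
    · exact B8_lim hd _ (((continuous_const.sub hpc).pow 2).mul (htc c)) (A c) (hAc c) (hA0 c)
  have hval : (∑ c ∈ S, ∫ x in (0:ℝ)..1, p x ^ 2 * t c x)
        + (∑ c ∈ Sᶜ, ∫ x in (0:ℝ)..1, (1 - p x) ^ 2 * t c x) ≤ Pot t S + ε / 2 := by
    have e1 := B8_split p hpc t htc S
    rw [e1]
    have e2 : Pot t S + ε / 2 = ∫ x in (0:ℝ)..1, (hm (∑ c ∈ S, t c x) (∑ c ∈ Sᶜ, t c x) + ε / 2) := by
      unfold Pot
      rw [intervalIntegral.integral_add (M12_hm_int (hSc S) (hSc Sᶜ) (hS0 S) (hS0 Sᶜ))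
        (continuous_const.intervalIntegrable _ _)]
      simp
    rw [e2]
    refine intervalIntegral.integral_mono (by norm_num)
      ((((hpc.pow 2).mul (hSc S)).add (((continuous_const.sub hpc).pow 2).mul (hSc Sᶜ))).intervalIntegrable _ _)
      ((M12_hm_int (hSc S) (hSc Sᶜ) (hS0 S) (hS0 Sᶜ)).add (continuous_const.intervalIntegrable _ _))
      fun x => ?_
    rw [hpdef]
    exact B8_dec (hS0 S x) (hS0 Sᶜ x) (by positivity)
  have hev := hlim.eventually (gt_mem_nhds (show _ < Pot t S + ε by linarith))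
  filter_upwards [hev] with N hN
  have hGc : ∀ c, Continuous (GAN (d := d) (A c) N) := fun c => B9_GA_cont _ (hAc c) N
  refine le_trans ?_ hN.le
  unfold Pot
  have f0 : ∀ (S : Finset ι) x, 0 ≤ ∑ c ∈ S, t c x * GAN (d := d) (A c) N x := fun S x =>
    Finset.sum_nonneg fun c _ => mul_nonneg (ht0 c x) (hpos c N x)
  have fc : ∀ (S : Finset ι), Continuous fun x => ∑ c ∈ S, t c x * GAN (d := d) (A c) N x :=
    fun S => continuous_finsetSum _ fun c _ => (htc c).mul (hGc c)
  have e3 := B8_split p hpc (fun c x => t c x * GAN (d := d) (A c) N x)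
    (fun c => (htc c).mul (hGc c)) S
  simp_rw [mul_assoc]
  rw [e3]
  refine M12_hm_le_int (fc S) (fc Sᶜ) (f0 S) (f0 Sᶜ)
    (((hpc.pow 2).mul (fc S)).add (((continuous_const.sub hpc).pow 2).mul (fc Sᶜ))) fun x => ?_
  exact Pool.Agent.H691R3.SL.hm_le _ _ _ (f0 S x) (f0 Sᶜ x)


/-- the normalised block lemma -/
theorem B8_core (D : Bool → ℝ → ℝ) (hDc : ∀ c, Continuous (D c)) (hD0 : ∀ c x, 0 ≤ D c x)
    (hDe : ∀ c x, D c (-x) = D c x) (hDp : ∀ c x, D c (x + 1) = D c x)
    (hD1 : ∫ x in (0:ℝ)..1, (D true x + D false x) = 1) {R : ℝ} (hR0 : 0 < R)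
    (hRx : ∀ x, D true x + D false x ≤ R) (q : ℕ) (hq : 11 ≤ q) (ε : ℝ) (hε : 0 < ε) :
    ∃ (d K M : ℕ) (A : Bool → ℕ → ℝ → ℝ) (b : Bool → Fin (K + 1) → Fin d → ℤ),
      3 ≤ d ∧ (∀ c a i, |b c a i| ≤ M) ∧
      (∀ (c : Bool) (L : Fin d → ℕ) (x : ℝ),
        (∑ a, ∏ i, (1 + cs ((L i : ℤ) + b c a i) x)) / ((K : ℝ) + 1)
          = GAN (d := d) (A c) (fun i => (L i : ℤ)) x) ∧
      (∀ c k, Continuous (A c k)) ∧ (∀ c x, A c 0 x = 1) ∧
      (∀ c N x, 0 ≤ GAN (d := d) (A c) N x) ∧
      (∀ᶠ N in DissF d, ∫ x in (0:ℝ)..1, |(D true x * GAN (d := d) (A true) N x +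
          D false x * GAN (d := d) (A false) N x) - (D true x + D false x)|
          ≤ 600 / (q : ℝ) ^ 3 + ε) ∧
      (∀ᶠ N in DissF d, ∫ x in (0:ℝ)..1, hm (D true x * GAN (d := d) (A true) N x)
          (D false x * GAN (d := d) (A false) N x)
        ≤ (∫ x in (0:ℝ)..1, hm (D true x) (D false x))
          - 1 / (8 * (q : ℝ) ^ 2) * (∫ x in (0:ℝ)..1, hm (D true x) (D false x)) ^ 2 + ε) := by
  classical
  have hq0 : (0 : ℝ) < q := by
    have : 0 < q := by omega
    exact_mod_cast this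
  have hq11 : (11 : ℝ) ≤ q := by exact_mod_cast hq
  have hη0 : (0 : ℝ) < 1 / q := by positivity
  have hη11 : 1 / (q : ℝ) ≤ 1 / 11 := one_div_le_one_div_of_le (by norm_num) hq11
  have hη1 : 1 / (q : ℝ) ≤ 1 := hη11.trans (by norm_num)
  -- the cut-offs
  obtain ⟨κ, δ, hκ, hδ, hδ1, hχ, hpc⟩ := Pool.Agent.H691R3.SL.potential_choice D hDc hD0 hD1 (ε / 8)
    (by positivity)
  have hpc' := hpc (1 / (q : ℝ)) hη0.le hη1
  -- the gadget
  obtain ⟨ε2, hε2, hε21, hε2R⟩ : ∃ ε2 : ℝ, 0 < ε2 ∧ ε2 ≤ 1 ∧ 150 * ε2 * R ≤ ε / 4 := by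
    refine ⟨min 1 (ε / (600 * R)), lt_min one_pos (by positivity), min_le_left _ _, ?_⟩
    have h1 : min 1 (ε / (600 * R)) ≤ ε / (600 * R) := min_le_right _ _
    calc 150 * min 1 (ε / (600 * R)) * R ≤ 150 * (ε / (600 * R)) * R := by
          gcongr
      _ = ε / 4 := by
          field_simp
          norm_num
  obtain ⟨d, H, K, M, β, b, hd, hb, hlaw, hbd⟩ := M12_gadget D hDc hD0 hDe hDp hκ hδ q hq hε2 hε21
  -- the slow coefficients
  have hAc : ∀ (c : Bool) (k : ℕ), Continuous (Ak (1 / (q : ℝ)) H (β c) k) :=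
    fun c k => M12_Ak_cont _ _ _ _
  have hA0 : ∀ (c : Bool) (x : ℝ), Ak (1 / (q : ℝ)) H (β c) 0 x = 1 := by
    intro c x
    unfold Ak
    rw [(Pool.Agent.H691R3.SL.esn_one_two (show 2 ≤ d by omega) _).1, (Pool.Agent.H691R3.SL.esn_one_two (show 2 ≤ d by omega) _).1]
    norm_num
  have hlaw' : ∀ (c : Bool) (L : Fin d → ℕ) (x : ℝ),
        (∑ a, ∏ i, (1 + cs ((L i : ℤ) + b c a i) x)) / ((K : ℝ) + 1)
          = GAN (d := d) (Ak (1 / (q : ℝ)) H (β c)) (fun i => (L i : ℤ)) x := by
    intro c L x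
    rw [hlaw c L x]
    rfl
  have hposn : ∀ (c : Bool) (N : Fin d → ℕ) (x : ℝ),
      0 ≤ GAN (d := d) (Ak (1 / (q : ℝ)) H (β c)) (fun i => (N i : ℤ)) x := by
    intro c N x
    rw [← hlaw' c N x]
    refine div_nonneg (Finset.sum_nonneg fun a _ => Finset.prod_nonneg fun i _ => ?_)
      (by positivity)
    have : -1 ≤ cs ((N i : ℤ) + b c a i) x := Real.neg_one_le_cos _
    linarith
  have hpos : ∀ (c : Bool) (N : Fin d → ℤ) (x : ℝ),
      0 ≤ GAN (d := d) (Ak (1 / (q : ℝ)) H (β c)) N x := by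
    intro c N x
    have h1 : GAN (d := d) (Ak (1 / (q : ℝ)) H (β c)) N x
        = GAN (d := d) (Ak (1 / (q : ℝ)) H (β c)) (fun i => (((N i).natAbs : ℕ) : ℤ)) x := by
      unfold GAN cTN
      apply Finset.sum_congr rfl
      intro T _
      congr 1
      apply Finset.prod_congr rfl
      intro i _
      rcases Int.natAbs_eq (N i) with h | h
      · exact congrArg (fun z : ℤ => cs z x) h
      · exact (congrArg (fun z : ℤ => cs z x) h).trans (M12_cs_neg _ _)
    rw [h1]
    exact hposn c (fun i => (N i).natAbs) x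
  -- the flatness
  have hw0 : ∀ x, 0 < D true x + D false x + κ := by
    intro x
    have h1 := hD0 true x
    have h2 := hD0 false x
    linarith
  have hflat := flat_limitN hd (1 / (q : ℝ)) δ (150 * ε2 * R) hη0 hη11 D hDc hD0 hD1
    (fun c => Ak (1 / (q : ℝ)) H (β c)) hAc hA0 hpos (by positivity)
    (by
      intro x hx
      have g1 := (hbd true x hx).1
      have g0 := (hbd false x hx).1
      have ht : M12_a D κ true x = D false x * (1 / (D true x + D false x + κ)) / 2 := rfl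
      have hf : M12_a D κ false x = -(D true x * (1 / (D true x + D false x + κ)) / 2) := rfl
      have e1 : D true x * M12_a D κ true x + D false x * M12_a D κ false x = 0 := by
        rw [ht, hf]; ring
      have e2 : Real.sqrt d * (D true x * Ak (1 / (q : ℝ)) H (β true) 1 x +
          D false x * Ak (1 / (q : ℝ)) H (β false) 1 x) =
          D true x * (Real.sqrt d * Ak (1 / (q : ℝ)) H (β true) 1 x -
            1 / (q : ℝ) * M12_a D κ true x) +
          D false x * (Real.sqrt d * Ak (1 / (q : ℝ)) H (β false) 1 x -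
            1 / (q : ℝ) * M12_a D κ false x) := by
        linear_combination (1 / (q : ℝ)) * e1
      show |Real.sqrt d * (D true x * Ak (1 / (q : ℝ)) H (β true) 1 x +
          D false x * Ak (1 / (q : ℝ)) H (β false) 1 x)| ≤ 150 * ε2 * R
      rw [e2]
      have hD1 := hD0 true x
      have hD2 := hD0 false x
      have hRx' := hRx x
      calc _ ≤ D true x * (2 * ε2) + D false x * (2 * ε2) := by
            refine (abs_add_le _ _).trans (add_le_add ?_ ?_)
            · rw [abs_mul, abs_of_nonneg hD1]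
              exact mul_le_mul_of_nonneg_left g1 hD1
            · rw [abs_mul, abs_of_nonneg hD2]
              exact mul_le_mul_of_nonneg_left g0 hD2
        _ ≤ R * (2 * ε2) := by
            rw [← add_mul]
            exact mul_le_mul_of_nonneg_right hRx' (by positivity)
        _ ≤ 150 * ε2 * R := by nlinarith [mul_pos hR0 hε2])
    (by
      intro x hx
      have g1 := (hbd true x hx).2.2.1
      have g0 := (hbd false x hx).2.2.1
      have e2 : (d : ℝ) * (D true x * Ak (1 / (q : ℝ)) H (β true) 2 x +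
          D false x * Ak (1 / (q : ℝ)) H (β false) 2 x) =
          D true x * ((d : ℝ) * Ak (1 / (q : ℝ)) H (β true) 2 x) +
          D false x * ((d : ℝ) * Ak (1 / (q : ℝ)) H (β false) 2 x) := by ring
      show |(d : ℝ) * (D true x * Ak (1 / (q : ℝ)) H (β true) 2 x +
          D false x * Ak (1 / (q : ℝ)) H (β false) 2 x)| ≤ 150 * ε2 * R
      rw [e2]
      have hD1 := hD0 true x
      have hD2 := hD0 false x
      have hRx' := hRx x
      calc _ ≤ D true x * (150 * ε2) + D false x * (150 * ε2) := by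
            refine (abs_add_le _ _).trans (add_le_add ?_ ?_)
            · rw [abs_mul, abs_of_nonneg hD1]
              exact mul_le_mul_of_nonneg_left g1 hD1
            · rw [abs_mul, abs_of_nonneg hD2]
              exact mul_le_mul_of_nonneg_left g0 hD2
        _ ≤ R * (150 * ε2) := by
            rw [← add_mul]
            exact mul_le_mul_of_nonneg_right hRx' (by positivity)
        _ = 150 * ε2 * R := by ring)
    (fun c x hx => (hbd c x hx).2.2.2) (ε / 4) (by positivity)
  -- the potential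
  have hwc := M12_w_cont hDc hD0 hκ
  have hpcont : Continuous (fun x => D false x * (1 / (D true x + D false x + κ))) :=
    (hDc false).mul hwc
  have hvcont : Continuous (fun x => chi δ x *
      (D true x * D false x * (1 / (D true x + D false x + κ)) ^ 2 / 2)) :=
    (M12_chi_cont δ).mul ((((hDc true).mul (hDc false)).mul (hwc.pow 2)).div_const _)
  have hpot := pot_limitN (show 2 ≤ d by omega) (1 / (q : ℝ)) D hDc
    (fun c => Ak (1 / (q : ℝ)) H (β c)) hAc hA0
    (fun x => D false x * (1 / (D true x + D false x + κ)))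
    (fun x => chi δ x * (D true x * D false x * (1 / (D true x + D false x + κ)) ^ 2 / 2))
    hpcont hvcont (ε / 4) (by positivity)
  refine ⟨d, K, M, fun c => Ak (1 / (q : ℝ)) H (β c), b, hd, hb, hlaw', hAc, hA0, hpos, ?_, ?_⟩
  · -- flatness
    filter_upwards [hflat] with N hflatN
    have h1 : 600 * (1 / (q : ℝ)) ^ 3 = 600 / (q : ℝ) ^ 3 := by
      rw [one_div, inv_pow]; rfl
    rw [← h1]
    refine hflatN.trans ?_
    linarith
  · -- the potential
    filter_upwards [hpot] with N hpotN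
    have hGc : ∀ c, Continuous (GAN (d := d) (Ak (1 / (q : ℝ)) H (β c)) N) :=
      fun c => B9_GA_cont _ (hAc c) N
    have hFc : Continuous (FsN d N) := B10_Fs_cont d N
    have s1 : ∫ x in (0:ℝ)..1, hm (D true x * GAN (d := d) (Ak (1 / (q : ℝ)) H (β true)) N x)
          (D false x * GAN (d := d) (Ak (1 / (q : ℝ)) H (β false)) N x) ≤ ∫ x in (0:ℝ)..1,
        ((D false x * (1 / (D true x + D false x + κ)) - 1 / (q : ℝ) *
            (chi δ x * (D true x * D false x * (1 / (D true x + D false x + κ)) ^ 2 / 2)) *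
            FsN d N x) ^ 2 * (D true x * GAN (d := d) (Ak (1 / (q : ℝ)) H (β true)) N x) +
          (1 - (D false x * (1 / (D true x + D false x + κ)) - 1 / (q : ℝ) *
            (chi δ x * (D true x * D false x * (1 / (D true x + D false x + κ)) ^ 2 / 2)) *
            FsN d N x)) ^ 2 *
            (D false x * GAN (d := d) (Ak (1 / (q : ℝ)) H (β false)) N x)) := by
      have hpp : Continuous (fun x => D false x * (1 / (D true x + D false x + κ)) -
          1 / (q : ℝ) * (chi δ x *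
            (D true x * D false x * (1 / (D true x + D false x + κ)) ^ 2 / 2)) * FsN d N x) :=
        hpcont.sub ((continuous_const.mul hvcont).mul hFc)
      refine M12_hm_le_int ((hDc true).mul (hGc true)) ((hDc false).mul (hGc false))
        (fun x => mul_nonneg (hD0 true x) (hpos true N x))
        (fun x => mul_nonneg (hD0 false x) (hpos false N x))
        (((hpp.pow 2).mul ((hDc true).mul (hGc true))).add
          (((continuous_const.sub hpp).pow 2).mul ((hDc false).mul (hGc false)))) fun x => ?_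
      exact Pool.Agent.H691R3.SL.hm_le _ _ _ (mul_nonneg (hD0 true x) (hpos true N x))
        (mul_nonneg (hD0 false x) (hpos false N x))
    have s2 := s1.trans hpotN
    -- comparison of the integrands
    have hcomp := M12_compare hD0 hκ hδ hε2.le hη0.le hη1 hRx
      (fun c x => Real.sqrt d * Ak (1 / (q : ℝ)) H (β c) 1 x)
      (fun c x => ((d : ℝ) - 1) * Ak (1 / (q : ℝ)) H (β c) 2 x)
      (fun c x hx => ⟨(hbd c x hx).1, (hbd c x hx).2.1⟩)
    have c1 := M12_P_cont (s1 := fun x => Real.sqrt d * Ak (1 / (q : ℝ)) H (β true) 1 x)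
      (s0 := fun x => Real.sqrt d * Ak (1 / (q : ℝ)) H (β false) 1 x)
      (r1 := fun x => (1 / 2 : ℝ) + ((d : ℝ) - 1) / 4 * Ak (1 / (q : ℝ)) H (β true) 2 x)
      (r0 := fun x => (1 / 2 : ℝ) + ((d : ℝ) - 1) / 4 * Ak (1 / (q : ℝ)) H (β false) 2 x)
      (1 / (q : ℝ)) (hDc true) (hDc false) hpcont hvcont
      (continuous_const.mul (hAc true 1)) (continuous_const.mul (hAc false 1))
      (continuous_const.add (continuous_const.mul (hAc true 2)))
      (continuous_const.add (continuous_const.mul (hAc false 2)))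
    have c2 := M12_Q_cont
      (s1 := fun x => 1 / (q : ℝ) * (D false x * (1 / (D true x + D false x + κ)) / 2))
      (s0 := fun x => 1 / (q : ℝ) * (-(D true x * (1 / (D true x + D false x + κ)) / 2)))
      (1 / (q : ℝ)) (hDc true) (hDc false) hpcont hvcont
      (continuous_const.mul (((hDc false).mul hwc).div_const 2))
      (continuous_const.mul (((hDc true).mul hwc).div_const 2).neg)
    have s3 := intervalIntegral.integral_mono (μ := volume) (show (0:ℝ) ≤ 1 by norm_num)
      (c1.intervalIntegrable 0 1)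
      ((c2.add (continuous_const : Continuous fun _ : ℝ => R * ε2)).intervalIntegrable 0 1)
      (fun x => by
        refine le_trans (le_of_eq ?_) (hcomp x)
        beta_reduce
        ring)
    have s4 : ∫ x in (0:ℝ)..1, (R * ε2) = R * ε2 := by
      rw [intervalIntegral.integral_const]
      simp
    have s5 := M12_int_add c2 (continuous_const : Continuous fun _ : ℝ => R * ε2)
    rw [s4] at s5
    have s6 := s3.trans (le_of_eq s5)
    have s7 := hpc'
    have e3 : 1 / (8 * (q : ℝ) ^ 2) = (1 / (q : ℝ)) ^ 2 / 8 := by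
      field_simp
    rw [e3]
    linarith


/-- B8: THE BLOCK LEMMA for dissociated frequencies -/
theorem block_lemma {ι : Type} [Fintype ι] [DecidableEq ι] (t : ι → ℝ → ℝ)
    (ht : ∀ c, TPpos (t c)) (M : ℝ) (hM0 : 0 < M) (hM : ∫ x in (0:ℝ)..1, ∑ c, t c x ≤ M)
    (C : Finset ι) (q : ℕ) (hq : 11 ≤ q) (ε : ℝ) (hε : 0 < ε) (m0 : ℕ) :
    ∃ (d : ℕ) (R : Type) (_ : Fintype R) (_ : Nonempty R) (b : ι → R → Fin d → ℤ) (B K : ℕ),
      (∀ c a i, |b c a i| ≤ B) ∧ ∀ N : Fin d → ℕ, Diss K N →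
      (∫ x in (0:ℝ)..1, |∑ c, t c x * GG N (b c) x - ∑ c, t c x|) ≤ 600 / (q : ℝ) ^ 3 * M + ε ∧
      Pot (fun c x => t c x * GG N (b c) x) C
        ≤ Pot t C - (Pot t C) ^ 2 / (8 * (q : ℝ) ^ 2 * M) + ε ∧
      (∀ C', Pot (fun c x => t c x * GG N (b c) x) C' ≤ Pot t C' + ε) ∧
      (∀ c x, 0 ≤ GG N (b c) x) ∧
      ∀ c (a : ℕ → ℝ), ∫ x in (0:ℝ)..1, tp m0 a x * GG N (b c) x = ∫ x in (0:ℝ)..1, tp m0 a x := by
  have hq0 : (0 : ℝ) < q := by
    have : 0 < q := by omega
    exact_mod_cast this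
  have ht0 : ∀ c x, 0 ≤ t c x := fun c => (ht c).1
  choose mt at_ hta using fun c => (ht c).2
  have htf : ∀ c, t c = tp (mt c) (at_ c) := fun c => funext (hta c)
  have htc : ∀ c, Continuous (t c) := fun c => by rw [htf c]; exact B8_tp_cont _ _
  have hte : ∀ c x, t c (-x) = t c x := fun c x => by rw [htf c]; exact B8_tp_even _ _ _
  have htp : ∀ c x, t c (x + 1) = t c x := fun c x => by rw [htf c]; exact B8_tp_per _ _ _
  have hS0 : ∀ (S : Finset ι) x, 0 ≤ ∑ c ∈ S, t c x := fun S x => Finset.sum_nonneg fun c _ => ht0 c x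
  have hSc : ∀ (S : Finset ι), Continuous fun x => ∑ c ∈ S, t c x :=
    fun S => continuous_finsetSum _ fun c _ => htc c
  obtain ⟨M', hM'def⟩ : ∃ M' : ℝ, M' = ∫ x in (0:ℝ)..1, ∑ c, t c x := ⟨_, rfl⟩
  have hM'0 : 0 ≤ M' := by
    rw [hM'def]
    exact intervalIntegral.integral_nonneg (by norm_num) fun x _ => hS0 _ x
  have hM'M : M' ≤ M := by rw [hM'def]; exact hM
  rcases eq_or_lt_of_le hM'0 with h0 | hM'
  · -- everything vanishes
    have hz : ∀ x ∈ Set.Icc (0:ℝ) 1, ∀ c, t c x = 0 := by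
      intro x hx c
      by_contra hne
      have hpos : 0 < ∑ c, t c x := by
        have h1 : 0 < t c x := lt_of_le_of_ne (ht0 c x) (Ne.symm hne)
        exact lt_of_lt_of_le h1 (Finset.single_le_sum (fun c _ => ht0 c x) (Finset.mem_univ c))
      have h2 : 0 < ∫ x in (0:ℝ)..1, ∑ c, t c x :=
        intervalIntegral.integral_pos (by norm_num) (hSc Finset.univ).continuousOn
          (fun y _ => hS0 _ y) ⟨x, hx, hpos⟩
      rw [← hM'def, ← h0] at h2
      exact lt_irrefl _ h2
    refine ⟨1, Unit, inferInstance, inferInstance, fun _ _ _ => 0, 0, m0, by simp, fun N hN => ?_⟩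
    have e1 : ∀ u : ι → ℝ → ℝ, ∀ S : Finset ι, Pot (fun c x => t c x * u c x) S = 0 := by
      intro u S
      unfold Pot
      rw [intervalIntegral.integral_congr (g := fun _ => (0:ℝ))]
      · simp
      · intro x hx
        rw [Set.uIcc_of_le (by norm_num)] at hx
        simp only
        rw [Finset.sum_eq_zero (fun c _ => by rw [hz x hx c, zero_mul])]
        simp [hm]
    have e2 : ∀ S : Finset ι, Pot t S = 0 := by
      intro S
      have := e1 (fun _ _ => 1) S
      simpa using this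
    refine ⟨?_, ?_, fun C' => ?_, fun c x => B8_nonneg _ _ _, fun c a => ?_⟩
    · rw [intervalIntegral.integral_congr (g := fun _ => (0:ℝ))]
      · simp
        positivity
      · intro x hx
        rw [Set.uIcc_of_le (by norm_num)] at hx
        simp only
        rw [Finset.sum_eq_zero (fun c _ => by rw [hz x hx c, zero_mul]),
          Finset.sum_eq_zero (fun c _ => hz x hx c)]
        simp
    · rw [e1, e2]
      simp
      exact hε.le
    · rw [e1, e2]
      simpa using hε.le
    · exact B8_int (B := 0) hN (by omega) _ (by simp) a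
  · -- the main case
    obtain ⟨D, hDdef⟩ : ∃ D : Bool → ℝ → ℝ, D = fun b x =>
        (∑ c ∈ (if b then C else Cᶜ), t c x) / M' := ⟨_, rfl⟩
    have hDt : ∀ x, D true x = (∑ c ∈ C, t c x) / M' := fun x => by rw [hDdef]; rfl
    have hDf : ∀ x, D false x = (∑ c ∈ Cᶜ, t c x) / M' := fun x => by rw [hDdef]; rfl
    have hDc : ∀ c, Continuous (D c) := by
      intro c
      rw [hDdef]
      exact (hSc _).div_const _
    have hD0 : ∀ c x, 0 ≤ D c x := by
      intro c x
      rw [hDdef]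
      exact div_nonneg (hS0 _ x) hM'0
    have hDe : ∀ c x, D c (-x) = D c x := by
      intro c x
      rw [hDdef]
      simp only [hte]
    have hDp : ∀ c x, D c (x + 1) = D c x := by
      intro c x
      rw [hDdef]
      simp only [htp]
    have hDsum : ∀ x, D true x + D false x = (∑ c, t c x) / M' := by
      intro x
      rw [hDt, hDf, ← add_div, Finset.sum_add_sum_compl]
    have hD1 : ∫ x in (0:ℝ)..1, (D true x + D false x) = 1 := by
      simp_rw [hDsum]
      rw [intervalIntegral.integral_div, ← hM'def]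
      exact div_self hM'.ne'
    obtain ⟨R, hR0, hRx⟩ : ∃ R : ℝ, 0 < R ∧ ∀ x, D true x + D false x ≤ R := by
      refine ⟨(∑ c, ∑ j ∈ Finset.range (mt c), |at_ c j|) / M' + 1, by positivity, fun x => ?_⟩
      rw [hDsum]
      have : (∑ c, t c x) ≤ ∑ c, ∑ j ∈ Finset.range (mt c), |at_ c j| := by
        apply Finset.sum_le_sum
        intro c _
        rw [hta c x]
        exact (le_abs_self _).trans (B8_tp_bd _ _ _)
      have := div_le_div_of_nonneg_right this hM'0
      linarith
    have hεM : 0 < ε / M' := by positivity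
    obtain ⟨d, K, Mb, A, b, hd, hb, hlaw, hAc, hA0, hpos, hflat, hpot⟩ :=
      B8_core D hDc hD0 hDe hDp hD1 hR0 hRx q hq (ε / M') hεM
    have hoth : ∀ᶠ N in DissF d, ∀ S : Finset ι,
        Pot (fun c x => t c x * GAN (d := d) (A (decide (c ∈ C))) N x) S ≤ Pot t S + ε :=
      Filter.eventually_all.2 fun S => B8_other t htc ht0 (by omega) (fun c => A (decide (c ∈ C)))
        (fun c => hAc _) (fun c => hA0 _) (fun c => hpos _) S ε hε
    obtain ⟨K1, hK1⟩ := mem_DissF.1 ((hflat.and hpot).and hoth)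
    refine ⟨d, Fin (K + 1), inferInstance, inferInstance, fun c => b (decide (c ∈ C)), Mb,
      max K1 (m0 + d * Mb), fun c a i => hb _ a i, fun N hN => ?_⟩
    obtain ⟨⟨hfl, hpo⟩, hot⟩ := hK1 (fun i => (N i : ℤ)) (B8_Diss hN (le_max_left _ _))
    have hGG : ∀ c x, GG N (b (decide (c ∈ C))) x
        = GAN (d := d) (A (decide (c ∈ C))) (fun i => (N i : ℤ)) x := by
      intro c x
      rw [← hlaw]
      unfold GG
      rw [Fintype.card_fin]
      push_cast
      rfl
    have hGGt : ∀ x, ∑ c ∈ C, t c x * GG N (b (decide (c ∈ C))) x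
        = M' * (D true x * GAN (d := d) (A true) (fun i => (N i : ℤ)) x) := by
      intro x
      rw [hDt]
      have : ∀ c ∈ C, t c x * GG N (b (decide (c ∈ C))) x
          = t c x * GAN (d := d) (A true) (fun i => (N i : ℤ)) x := by
        intro c hc
        rw [hGG, decide_eq_true hc]
      rw [Finset.sum_congr rfl this, ← Finset.sum_mul]
      field_simp
    have hGGf : ∀ x, ∑ c ∈ Cᶜ, t c x * GG N (b (decide (c ∈ C))) x
        = M' * (D false x * GAN (d := d) (A false) (fun i => (N i : ℤ)) x) := by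
      intro x
      rw [hDf]
      have : ∀ c ∈ Cᶜ, t c x * GG N (b (decide (c ∈ C))) x
          = t c x * GAN (d := d) (A false) (fun i => (N i : ℤ)) x := by
        intro c hc
        rw [hGG, decide_eq_false (Finset.mem_compl.1 hc)]
      rw [Finset.sum_congr rfl this, ← Finset.sum_mul]
      field_simp
    refine ⟨?_, ?_, fun C' => ?_, fun c x => B8_nonneg _ _ _, fun c a => ?_⟩
    · have e1 : ∀ x, |∑ c, t c x * GG N (b (decide (c ∈ C))) x - ∑ c, t c x|
          = M' * |(D true x * GAN (d := d) (A true) (fun i => (N i : ℤ)) x +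
            D false x * GAN (d := d) (A false) (fun i => (N i : ℤ)) x) - (D true x + D false x)| := by
        intro x
        have habs : ∀ y : ℝ, M' * |y| = |M' * y| := fun y => by rw [abs_mul, abs_of_pos hM']
        rw [habs]
        congr 1
        rw [hDsum, ← Finset.sum_add_sum_compl C, hGGt, hGGf]
        field_simp
      simp_rw [e1]
      rw [intervalIntegral.integral_const_mul]
      calc M' * _ ≤ M' * (600 / (q : ℝ) ^ 3 + ε / M') := mul_le_mul_of_nonneg_left hfl hM'0
        _ = 600 / (q : ℝ) ^ 3 * M' + ε := by field_simp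
        _ ≤ 600 / (q : ℝ) ^ 3 * M + ε := by
          have : 0 ≤ 600 / (q : ℝ) ^ 3 := by positivity
          nlinarith
    · have e1 : Pot (fun c x => t c x * GG N (b (decide (c ∈ C))) x) C
          = M' * ∫ x in (0:ℝ)..1, hm (D true x * GAN (d := d) (A true) (fun i => (N i : ℤ)) x)
            (D false x * GAN (d := d) (A false) (fun i => (N i : ℤ)) x) := by
        unfold Pot
        rw [← intervalIntegral.integral_const_mul]
        congr 1
        ext x
        rw [hGGt, hGGf, B8_hm_scale hM']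
      have e2 : Pot t C = M' * ∫ x in (0:ℝ)..1, hm (D true x) (D false x) := by
        unfold Pot
        rw [← intervalIntegral.integral_const_mul]
        congr 1
        ext x
        rw [← B8_hm_scale hM', hDt, hDf]
        congr 1 <;> field_simp
      rw [e1]
      have e3 : M' * ((∫ x in (0:ℝ)..1, hm (D true x) (D false x))
          - 1 / (8 * (q : ℝ) ^ 2) * (∫ x in (0:ℝ)..1, hm (D true x) (D false x)) ^ 2 + ε / M')
          = Pot t C - (Pot t C) ^ 2 / (8 * (q : ℝ) ^ 2 * M') + ε := by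
        rw [e2]
        field_simp
      refine (mul_le_mul_of_nonneg_left hpo hM'0).trans ?_
      rw [e3]
      have e4 : (Pot t C) ^ 2 / (8 * (q : ℝ) ^ 2 * M) ≤ (Pot t C) ^ 2 / (8 * (q : ℝ) ^ 2 * M') := by
        apply div_le_div_of_nonneg_left (sq_nonneg _) (by positivity)
        have : 0 ≤ 8 * (q : ℝ) ^ 2 := by positivity
        nlinarith
      linarith
    · have := hot C'
      simp_rw [← hGG] at this
      exact this
    · exact B8_int hN (le_max_right _ _) _ (fun a i => hb _ a i) a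

end

end Pool.Agent.H728R2.BL
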