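import Pool.Agent.H728R2.BL.Defs2
import Pool.Agent.H728R2.BL.X.B0
import Pool.Agent.H728R2.BL.X.B0C
import Pool.Agent.H728R2.BL.X.B3
import Pool.Agent.H728R2.BL.X.B5
import Pool.Agent.H728R2.BL.X.B6
import Pool.Agent.H728R2.BL.X.B7
import Pool.Agent.H728R2.BL.X.B8
set_option autoImplicit false

namespace Pool.Agent.H728R2.BL

open MeasureTheory Set Filter Topology Pool.Agent.H691R3.SL
open scoped Real BigOperators

noncomputable section

theorem B9_hm_one (a a' b : ℝ) (ha : 0 ≤ a) (ha' : 0 ≤ a') (hb : 0 ≤ b) :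
    |hm a b - hm a' b| ≤ |a - a'| := by
  unfold hm
  rcases hb.eq_or_lt with h0 | hb0
  · rw [← h0]; simp
  · have h1 : 0 < a + b := by linarith
    have h2 : 0 < a' + b := by linarith
    have h3 : a * b / (a + b) - a' * b / (a' + b) = (a - a') * (b ^ 2 / ((a + b) * (a' + b))) := by
      field_simp
      ring
    rw [h3, abs_mul]
    have h4 : 0 ≤ b ^ 2 / ((a + b) * (a' + b)) := by positivity
    have h5 : b ^ 2 / ((a + b) * (a' + b)) ≤ 1 := by
      rw [div_le_one (by positivity)]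
      nlinarith [mul_nonneg ha ha', mul_nonneg ha hb, mul_nonneg ha' hb]
    rw [abs_of_nonneg h4]
    calc |a - a'| * (b ^ 2 / ((a + b) * (a' + b))) ≤ |a - a'| * 1 :=
          mul_le_mul_of_nonneg_left h5 (abs_nonneg _)
      _ = _ := mul_one _

theorem B9_hm_comm (a b : ℝ) : hm a b = hm b a := by
  unfold hm; rw [mul_comm, add_comm]

theorem B9_hm_lip (a b a' b' : ℝ) (ha : 0 ≤ a) (ha' : 0 ≤ a') (hb : 0 ≤ b) (hb' : 0 ≤ b') :
    |hm a b - hm a' b'| ≤ |a - a'| + |b - b'| := by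
  have h1 := B9_hm_one a a' b ha ha' hb
  have h2 := B9_hm_one b b' a' hb hb' ha'
  rw [B9_hm_comm b a', B9_hm_comm b' a'] at h2
  calc |hm a b - hm a' b'| ≤ |hm a b - hm a' b| + |hm a' b - hm a' b'| := abs_sub_le _ _ _
    _ ≤ _ := add_le_add h1 h2

theorem B9_hm_cont (A B : ℝ → ℝ) (hA : Continuous A) (hB : Continuous B) (hA0 : ∀ x, 0 ≤ A x)
    (hB0 : ∀ x, 0 ≤ B x) : Continuous (fun x => hm (A x) (B x)) := by
  rw [continuous_iff_continuousAt]
  intro x
  rw [ContinuousAt, tendsto_iff_norm_sub_tendsto_zero]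
  have h1 : Tendsto (fun y => |A y - A x| + |B y - B x|) (𝓝 x) (𝓝 0) := by
    have e1 : Continuous (fun y => |A y - A x| + |B y - B x|) := by fun_prop
    have e2 := e1.tendsto x
    simpa using e2
  refine squeeze_zero (fun _ => norm_nonneg _) (fun y => ?_) h1
  rw [Real.norm_eq_abs]
  exact B9_hm_lip _ _ _ _ (hA0 y) (hA0 x) (hB0 y) (hB0 x)

theorem B9_int {f : ℝ → ℝ} (hf : Continuous f) : IntervalIntegrable f volume 0 1 :=
  hf.intervalIntegrable _ _

theorem B9_mono {f g : ℝ → ℝ} (hf : Continuous f) (hg : Continuous g) (h : ∀ x, f x ≤ g x) :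
    ∫ x in (0:ℝ)..1, f x ≤ ∫ x in (0:ℝ)..1, g x :=
  intervalIntegral.integral_mono_on zero_le_one (B9_int hf) (B9_int hg) (fun x _ => h x)

theorem B9_add (f g : ℝ → ℝ) (hf : Continuous f) (hg : Continuous g) :
    ∫ x in (0:ℝ)..1, (f x + g x) = (∫ x in (0:ℝ)..1, f x) + ∫ x in (0:ℝ)..1, g x :=
  intervalIntegral.integral_add (B9_int hf) (B9_int hg)

theorem B9_sum {ι : Type} [Fintype ι] (f : ι → ℝ → ℝ) (hf : ∀ c, Continuous (f c)) :
    ∫ x in (0:ℝ)..1, ∑ c, f c x = ∑ c, ∫ x in (0:ℝ)..1, f c x :=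
  intervalIntegral.integral_finsetSum (fun c _ => B9_int (hf c))

theorem B9_pot {ι : Type} [Fintype ι] [DecidableEq ι] (t t' : ι → ℝ → ℝ)
    (ht : ∀ c, Continuous (t c)) (ht' : ∀ c, Continuous (t' c)) (h0 : ∀ c x, 0 ≤ t c x)
    (h0' : ∀ c x, 0 ≤ t' c x) (C : Finset ι) :
    Pot t' C ≤ Pot t C + ∫ x in (0:ℝ)..1, ∑ c, |t' c x - t c x| := by
  unfold Pot
  have c1 : ∀ S : Finset ι, Continuous (fun x => ∑ c ∈ S, t c x) := fun S =>
    continuous_finsetSum _ (fun c _ => ht c)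
  have c2 : ∀ S : Finset ι, Continuous (fun x => ∑ c ∈ S, t' c x) := fun S =>
    continuous_finsetSum _ (fun c _ => ht' c)
  have n1 : ∀ (S : Finset ι) x, 0 ≤ ∑ c ∈ S, t c x := fun S x =>
    Finset.sum_nonneg (fun c _ => h0 c x)
  have n2 : ∀ (S : Finset ι) x, 0 ≤ ∑ c ∈ S, t' c x := fun S x =>
    Finset.sum_nonneg (fun c _ => h0' c x)
  have c3 : Continuous (fun x => hm (∑ c ∈ C, t c x) (∑ c ∈ Cᶜ, t c x)) :=
    B9_hm_cont _ _ (c1 C) (c1 Cᶜ) (n1 C) (n1 Cᶜ)
  have c4 : Continuous (fun x => hm (∑ c ∈ C, t' c x) (∑ c ∈ Cᶜ, t' c x)) :=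
    B9_hm_cont _ _ (c2 C) (c2 Cᶜ) (n2 C) (n2 Cᶜ)
  have c5 : Continuous (fun x => ∑ c, |t' c x - t c x|) :=
    continuous_finsetSum _ (fun c _ => ((ht' c).sub (ht c)).abs)
  rw [← intervalIntegral.integral_add (B9_int c3) (B9_int c5)]
  refine B9_mono c4 (c3.add c5) (fun x => ?_)
  have h1 := B9_hm_lip (∑ c ∈ C, t' c x) (∑ c ∈ Cᶜ, t' c x) (∑ c ∈ C, t c x) (∑ c ∈ Cᶜ, t c x)
    (n2 C x) (n1 C x) (n2 Cᶜ x) (n1 Cᶜ x)
  have h2 : ∀ S : Finset ι, |∑ c ∈ S, t' c x - ∑ c ∈ S, t c x| ≤ ∑ c ∈ S, |t' c x - t c x| := by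
    intro S
    rw [← Finset.sum_sub_distrib]
    exact Finset.abs_sum_le_sum_abs _ _
  have h3 : ∑ c ∈ C, |t' c x - t c x| + ∑ c ∈ Cᶜ, |t' c x - t c x| = ∑ c, |t' c x - t c x| :=
    Finset.sum_add_sum_compl C _
  have h4 := abs_le.mp h1
  have h5 := h2 C
  have h6 := h2 Cᶜ
  linarith [h4.2]

theorem B9_pad (m m0 : ℕ) (h : m ≤ m0) (a : ℕ → ℝ) : ∃ a' : ℕ → ℝ, ∀ x, tp m a x = tp m0 a' x := by
  refine ⟨fun j => if j < m then a j else 0, fun x => ?_⟩
  unfold tp
  have h1 : Finset.range m ⊆ Finset.range m0 := Finset.range_subset_range.mpr h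
  rw [← Finset.sum_subset h1]
  · refine Finset.sum_congr rfl (fun j hj => ?_)
    have h2 : (if j < m then a j else 0) = a j := if_pos (Finset.mem_range.mp hj)
    simp only [h2]
  · intro j _ hj
    have h2 : (if j < m then a j else 0) = 0 := if_neg (by simpa using hj)
    simp only [h2, zero_mul]

theorem B9_GG_cont {d : ℕ} {R : Type} [Fintype R] (N : Fin d → ℕ) (b : R → Fin d → ℤ) :
    Continuous (GG N b) := by
  unfold GG cs
  fun_prop

theorem B9_hts_le (h : ℕ) (S : ℕ → ℕ) (i : ℕ) : h ≤ hts h S i := by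
  induction i with
  | zero => exact le_rfl
  | succ i ih =>
    show h ≤ 2 * (hts h S i + S i)
    omega

/-- B9 (uses B3, B5, B6, B7, B8): one round -/
theorem roundStep (L : Lev) (w g : L.Θ → ℝ → ℝ) (hw : ∀ c, TPpos (w c)) (hg : ∀ c, TPpos (g c))
    (M : ℝ) (hM0 : 0 < M)
    (hM : ∀ h D κ, Reach L h D κ → ∫ x in (0:ℝ)..1, ∑ c, w c x * D c x ≤ M)
    (C : Finset L.Θ) (q : ℕ) (hq : 11 ≤ q) (ε : ℝ) (hε : 0 < ε) :
    ∃ h2 : ℕ, ∀ h D κ, Reach L h D κ → h2 ≤ h → ∀ H0 : ℕ, ∃ h' D' κ', H0 ≤ h' ∧ h ≤ h' ∧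
      Reach L h' D' κ' ∧ κ' * h' ≤ κ * h * (1 + ε) ∧
      (∫ x in (0:ℝ)..1, |∑ c, W x * w c x * D' c x - ∑ c, W x * w c x * D c x|)
        ≤ 600 / (q : ℝ) ^ 3 * (4 * M) + ε ∧
      Pot (fun c x => W x * w c x * D' c x) C
        ≤ Pot (fun c x => W x * w c x * D c x) C
          - (Pot (fun c x => W x * w c x * D c x) C) ^ 2 / (8 * (q : ℝ) ^ 2 * (4 * M)) + ε ∧
      (∀ C', Pot (fun c x => W x * w c x * D' c x) C'
        ≤ Pot (fun c x => W x * w c x * D c x) C' + ε) ∧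
      (∀ c, ∫ x in (0:ℝ)..1, W x * g c x * D' c x ≤ (∫ x in (0:ℝ)..1, W x * g c x * D c x) + ε) := by
  obtain ⟨tpMul, tpAdd, tpSmul, tpCont, -, -, tpOne⟩ := Pool.Agent.H728R2.BL.TP_basic
  obtain ⟨-, W0, W4, Wc, Wtp⟩ := Pool.Agent.H728R2.BL.W_basic
  -- bound for g
  have hBg : ∃ Bg : ℝ, 0 ≤ Bg ∧ ∀ c x, g c x ≤ Bg := by
    choose Bc hBc using fun c => (tpCont (g c) (hg c)).2.2.2
    refine ⟨∑ c, |Bc c|, Finset.sum_nonneg (fun c _ => abs_nonneg _), fun c x => ?_⟩
    calc g c x ≤ Bc c := hBc c x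
      _ ≤ |Bc c| := le_abs_self _
      _ ≤ ∑ c, |Bc c| := Finset.single_le_sum (f := fun c => |Bc c|)
          (fun c _ => abs_nonneg _) (Finset.mem_univ c)
  obtain ⟨Bg, hBg0, hBg⟩ := hBg
  -- choice of H
  obtain ⟨H1, hH1⟩ := exists_nat_gt (80 * (M + Bg + 1) * 4 / ε)
  set H := 2 * (H1 + 1) with hHdef
  have hHe : Even H := ⟨H1 + 1, by omega⟩
  have hH2 : 2 ≤ H := by omega
  have hHpos : (0 : ℝ) < H := by positivity
  have hHη : 80 / (H : ℝ) * (M + Bg + 1) ≤ ε / 4 := by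
    have h1 : (H1 : ℝ) ≤ H := by
      have : H1 ≤ H := by omega
      exact_mod_cast this
    have h2 : 80 * (M + Bg + 1) * 4 / ε < H := lt_of_lt_of_le hH1 h1
    rw [div_lt_iff₀ hε] at h2
    rw [div_mul_eq_mul_div, div_le_iff₀ hHpos]
    linarith
  have hηM : 80 / (H : ℝ) * M ≤ ε / 4 := by
    refine le_trans ?_ hHη
    exact mul_le_mul_of_nonneg_left (by linarith) (by positivity)
  have hηB : 80 / (H : ℝ) * Bg ≤ ε / 4 := by
    refine le_trans ?_ hHη
    exact mul_le_mul_of_nonneg_left (by linarith) (by positivity)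
  -- choice of h2
  obtain ⟨h2, hh2⟩ := exists_nat_gt (4 * (H : ℝ) / ε)
  refine ⟨h2, ?_⟩
  intro h D κ hR hh H0
  have hhpos : (0 : ℝ) < h := by
    have e1 : (0 : ℝ) < 4 * (H : ℝ) / ε := by positivity
    have e2 : (h2 : ℝ) ≤ h := by exact_mod_cast hh
    linarith
  have hHh : (H : ℝ) ≤ ε / 4 * h := by
    have e2 : (h2 : ℝ) ≤ h := by exact_mod_cast hh
    have e3 : 4 * (H : ℝ) / ε < h := lt_of_lt_of_le hh2 e2
    rw [div_lt_iff₀ hε] at e3
    linarith
  -- facts on D
  have hD : ∀ c, TPpos (D c) ∧ (∫ x in (0:ℝ)..1, D c x = 1) := by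
    obtain ⟨F, -, hFD, -⟩ := hR
    intro c
    have e1 : F.D c = D c := funext (fun x => hFD c x)
    have e2 := Pool.Agent.H728R2.BL.fib_facts F c
    rw [e1] at e2
    exact ⟨e2.1, e2.2.1⟩
  have hκ : 0 ≤ κ := by
    obtain ⟨F, -, -, hF⟩ := hR
    rw [← hF]
    have := F.M.βpos
    positivity
  have Dc : ∀ c, Continuous (D c) := fun c => (tpCont _ (hD c).1).1
  have D0 : ∀ c x, 0 ≤ D c x := fun c x => (hD c).1.1 x
  have wc : ∀ c, Continuous (w c) := fun c => (tpCont _ (hw c)).1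
  have w0 : ∀ c x, 0 ≤ w c x := fun c x => (hw c).1 x
  have gc : ∀ c, Continuous (g c) := fun c => (tpCont _ (hg c)).1
  have g0 : ∀ c x, 0 ≤ g c x := fun c x => (hg c).1 x
  -- the functions with exactness
  have t1 : ∀ c, TPpos (fun x => w c x * D c x) := fun c => tpMul _ _ (hw c) (hD c).1
  have t3 : ∀ c, TPpos (fun x => g c x * D c x) := fun c => tpMul _ _ (hg c) (hD c).1
  have t2 : ∀ c, TPpos (fun x => W x * (g c x * D c x)) := fun c => tpMul _ _ Wtp (t3 c)
  have tt : ∀ c, TPpos (fun x => W x * w c x * D c x) := fun c => by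
    have e1 := tpMul _ _ Wtp (t1 c)
    have e2 : (fun x => W x * (w c x * D c x)) = (fun x => W x * w c x * D c x) := by
      funext x; ring
    rwa [e2] at e1
  choose m1 a1 ha1 using fun c => (t1 c).2
  choose m2 a2 ha2 using fun c => (t2 c).2
  choose m3 a3 ha3 using fun c => (t3 c).2
  set m0 := ∑ c, (m1 c + m2 c + m3 c) with hm0
  have hmle : ∀ c, m1 c + m2 c + m3 c ≤ m0 := fun c =>
    Finset.single_le_sum (f := fun c => m1 c + m2 c + m3 c) (fun c _ => Nat.zero_le _)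
      (Finset.mem_univ c)
  -- total mass of t
  have hM4 : ∫ x in (0:ℝ)..1, ∑ c, (fun c x => W x * w c x * D c x) c x ≤ 4 * M := by
    have e1 := hM h D κ hR
    have c1 : Continuous (fun x => ∑ c, W x * w c x * D c x) :=
      continuous_finsetSum _ (fun c _ => (Wc.mul (wc c)).mul (Dc c))
    have c2 : Continuous (fun x => 4 * ∑ c, w c x * D c x) :=
      continuous_const.mul (continuous_finsetSum _ (fun c _ => (wc c).mul (Dc c)))
    have e2 : ∫ x in (0:ℝ)..1, ∑ c, W x * w c x * D c x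
        ≤ ∫ x in (0:ℝ)..1, 4 * ∑ c, w c x * D c x := by
      refine B9_mono c1 c2 (fun x => ?_)
      rw [Finset.mul_sum]
      refine Finset.sum_le_sum (fun c _ => ?_)
      rw [mul_assoc]
      exact mul_le_mul_of_nonneg_right (W4 x) (mul_nonneg (w0 c x) (D0 c x))
    rw [intervalIntegral.integral_const_mul] at e2
    have e3 : 4 * ∫ x in (0:ℝ)..1, ∑ c, w c x * D c x ≤ 4 * M := by linarith
    exact e2.trans e3
  obtain ⟨d, R, iF, iN, b, B, K, hb, hN⟩ := Pool.Agent.H728R2.BL.block_lemma (fun c x => W x * w c x * D c x) tt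
    (4 * M) (by positivity) hM4 C q hq (ε / 4) (by positivity) m0
  obtain ⟨h1, hh1⟩ := Pool.Agent.H728R2.BL.diss_exists d K B (min (ε / 4) 1) (lt_min (by positivity) one_pos)
  set m := max h1 (max H0 h) + 1 with hmdef
  have hm1 : 1 ≤ m := by omega
  obtain ⟨R1, R1c, R10, R1b, hR1⟩ := Pool.Agent.H728R2.BL.reach_raise L h D κ hR m H hm1 hHe hH2
  have hmle2 : m ≤ m * (h + H) := Nat.le_mul_of_pos_right m (by omega)
  have hb1 : h1 ≤ m * (h + H) := by
    have : h1 ≤ m := by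
      have := le_max_left h1 (max H0 h)
      omega
    omega
  have hb2 : H0 ≤ m * (h + H) ∧ h ≤ m * (h + H) := by
    have e1 := le_max_right h1 (max H0 h)
    have e2 := le_max_left H0 h
    have e3 := le_max_right H0 h
    constructor <;> omega
  obtain ⟨S, hS, hdiss, hhts⟩ := hh1 (m * (h + H)) hb1
  have hbS : ∀ c a (i : Fin d), |b c a i| ≤ S i := fun c a i =>
    (hb c a i).trans (by exact_mod_cast hS i)
  have hR2 := Pool.Agent.H728R2.BL.reach_block L (m * (h + H)) (fun c x => D c x * R1 x) (κ / m) hR1 d R b S hbS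
  obtain ⟨q1, q2, q3, G0, q5⟩ := hN _ hdiss
  set N : Fin d → ℕ := fun i => hts (m * (h + H)) S i + S i with hNdef
  set G : L.Θ → ℝ → ℝ := fun c => GG N (b c) with hG
  have Gc : ∀ c, Continuous (G c) := fun c => B9_GG_cont N (b c)
  have G0' : ∀ c x, 0 ≤ G c x := G0
  -- exactness
  have ex1 : ∀ c, ∫ x in (0:ℝ)..1, w c x * D c x * G c x = ∫ x in (0:ℝ)..1, w c x * D c x := by
    intro c
    obtain ⟨a', ha'⟩ := B9_pad (m1 c) m0 (by have := hmle c; omega) (a1 c)
    have e1 : ∀ x, w c x * D c x = tp m0 a' x := fun x => by rw [← ha' x]; exact ha1 c x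
    have e2 := q5 c a'
    simp only [e1]
    exact e2
  have ex2 : ∀ c, ∫ x in (0:ℝ)..1, W x * (g c x * D c x) * G c x
      = ∫ x in (0:ℝ)..1, W x * (g c x * D c x) := by
    intro c
    obtain ⟨a', ha'⟩ := B9_pad (m2 c) m0 (by have := hmle c; omega) (a2 c)
    have e1 : ∀ x, W x * (g c x * D c x) = tp m0 a' x := fun x => by rw [← ha' x]; exact ha2 c x
    have e2 := q5 c a'
    simp only [e1]
    exact e2
  have ex3 : ∀ c, ∫ x in (0:ℝ)..1, g c x * D c x * G c x = ∫ x in (0:ℝ)..1, g c x * D c x := by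
    intro c
    obtain ⟨a', ha'⟩ := B9_pad (m3 c) m0 (by have := hmle c; omega) (a3 c)
    have e1 : ∀ x, g c x * D c x = tp m0 a' x := fun x => by rw [← ha' x]; exact ha3 c x
    have e2 := q5 c a'
    simp only [e1]
    exact e2
  -- the perturbation by R1
  have cT1 : ∀ c, Continuous (fun x => W x * w c x * D c x * G c x) := fun c =>
    ((Wc.mul (wc c)).mul (Dc c)).mul (Gc c)
  have cT2 : ∀ c, Continuous (fun x => W x * w c x * (D c x * R1 x * G c x)) := fun c =>
    (Wc.mul (wc c)).mul (((Dc c).mul R1c).mul (Gc c))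
  have cT0 : ∀ c, Continuous (fun x => W x * w c x * D c x) := fun c =>
    (Wc.mul (wc c)).mul (Dc c)
  have dpt : ∀ c x, |W x * w c x * (D c x * R1 x * G c x) - W x * w c x * D c x * G c x|
      ≤ 80 / (H : ℝ) * (w c x * D c x * G c x) := by
    intro c x
    have e1 : W x * w c x * (D c x * R1 x * G c x) - W x * w c x * D c x * G c x
        = (w c x * D c x * G c x) * (W x * (R1 x - 1)) := by ring
    have e2 : 0 ≤ w c x * D c x * G c x := mul_nonneg (mul_nonneg (w0 c x) (D0 c x)) (G0' c x)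
    rw [e1, abs_mul, abs_of_nonneg e2, abs_mul, abs_of_nonneg (W0 x), mul_comm]
    exact mul_le_mul_of_nonneg_right (R1b x) e2
  have hη : ∫ x in (0:ℝ)..1, ∑ c, |W x * w c x * (D c x * R1 x * G c x)
      - W x * w c x * D c x * G c x| ≤ ε / 4 := by
    have c1 : Continuous (fun x => ∑ c, |W x * w c x * (D c x * R1 x * G c x)
      - W x * w c x * D c x * G c x|) :=
      continuous_finsetSum _ (fun c _ => ((cT2 c).sub (cT1 c)).abs)
    have c2 : ∀ c, Continuous (fun x => w c x * D c x * G c x) := fun c =>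
      ((wc c).mul (Dc c)).mul (Gc c)
    have c3 : Continuous (fun x => 80 / (H : ℝ) * ∑ c, w c x * D c x * G c x) :=
      continuous_const.mul (continuous_finsetSum _ (fun c _ => c2 c))
    have e1 : ∫ x in (0:ℝ)..1, ∑ c, |W x * w c x * (D c x * R1 x * G c x)
        - W x * w c x * D c x * G c x|
        ≤ ∫ x in (0:ℝ)..1, 80 / (H : ℝ) * ∑ c, w c x * D c x * G c x := by
      refine B9_mono c1 c3 (fun x => ?_)
      rw [Finset.mul_sum]
      exact Finset.sum_le_sum (fun c _ => dpt c x)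
    rw [intervalIntegral.integral_const_mul, B9_sum (fun c x => w c x * D c x * G c x) c2] at e1
    have e2 : ∑ c, ∫ x in (0:ℝ)..1, w c x * D c x * G c x
        = ∫ x in (0:ℝ)..1, ∑ c, w c x * D c x := by
      rw [B9_sum (fun c x => w c x * D c x) (fun c => (wc c).mul (Dc c))]
      exact Finset.sum_congr rfl (fun c _ => ex1 c)
    rw [e2] at e1
    have e3 := hM h D κ hR
    have e4 : 80 / (H : ℝ) * ∫ x in (0:ℝ)..1, ∑ c, w c x * D c x ≤ 80 / (H : ℝ) * M :=
      mul_le_mul_of_nonneg_left e3 (by positivity)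
    linarith
  have n1 : ∀ c x, 0 ≤ W x * w c x * D c x * G c x := fun c x =>
    mul_nonneg (mul_nonneg (mul_nonneg (W0 x) (w0 c x)) (D0 c x)) (G0' c x)
  have n2 : ∀ c x, 0 ≤ W x * w c x * (D c x * R1 x * G c x) := fun c x =>
    mul_nonneg (mul_nonneg (W0 x) (w0 c x)) (mul_nonneg (mul_nonneg (D0 c x) (R10 x)) (G0' c x))
  have hpot := fun C' => B9_pot (fun c x => W x * w c x * D c x * G c x)
    (fun c x => W x * w c x * (D c x * R1 x * G c x)) cT1 cT2 n1 n2 C'
  refine ⟨hts (m * (h + H)) S d, fun c x => D c x * R1 x * G c x, κ / m / 2 ^ d,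
    hb2.1.trans (B9_hts_le _ _ _), hb2.2.trans (B9_hts_le _ _ _), hR2, ?_, ?_, ?_, ?_, ?_⟩
  · -- masses
    have hmpos : (0 : ℝ) < m := by positivity
    have e1 : κ / m / 2 ^ d * (hts (m * (h + H)) S d : ℝ)
        ≤ κ / m / 2 ^ d * (2 ^ d * ((m * (h + H) : ℕ) : ℝ) * (1 + min (ε / 4) 1)) :=
      mul_le_mul_of_nonneg_left hhts (by positivity)
    have e2 : κ / m / 2 ^ d * (2 ^ d * ((m * (h + H) : ℕ) : ℝ) * (1 + min (ε / 4) 1))
        = κ * ((h + H) * (1 + min (ε / 4) 1)) := by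
      push_cast
      field_simp
    rw [e2] at e1
    have e3 : ((h : ℝ) + H) * (1 + min (ε / 4) 1) ≤ h * (1 + ε) := by
      have f1 : min (ε / 4) 1 ≤ ε / 4 := min_le_left _ _
      have f2 : min (ε / 4) 1 ≤ 1 := min_le_right _ _
      have f3 : 0 < min (ε / 4) 1 := lt_min (by positivity) one_pos
      calc ((h : ℝ) + H) * (1 + min (ε / 4) 1) ≤ (h + ε / 4 * h) * (1 + min (ε / 4) 1) :=
            mul_le_mul_of_nonneg_right (by linarith) (by linarith)
        _ = h * (1 + ε / 4 + min (ε / 4) 1 + ε / 4 * min (ε / 4) 1) := by ring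
        _ ≤ h * (1 + ε) := by
            apply mul_le_mul_of_nonneg_left _ hhpos.le
            have f4 : ε / 4 * min (ε / 4) 1 ≤ ε / 4 * 1 :=
              mul_le_mul_of_nonneg_left f2 (by positivity)
            linarith
    have e4 : κ * (((h : ℝ) + H) * (1 + min (ε / 4) 1)) ≤ κ * (h * (1 + ε)) :=
      mul_le_mul_of_nonneg_left e3 hκ
    linarith
  · -- L1 distance
    have cA : Continuous (fun x => ∑ c, W x * w c x * (D c x * R1 x * G c x)) :=
      continuous_finsetSum _ (fun c _ => cT2 c)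
    have cB : Continuous (fun x => ∑ c, W x * w c x * D c x * G c x) :=
      continuous_finsetSum _ (fun c _ => cT1 c)
    have cC : Continuous (fun x => ∑ c, W x * w c x * D c x) :=
      continuous_finsetSum _ (fun c _ => cT0 c)
    have c5 : Continuous (fun x => ∑ c, |W x * w c x * (D c x * R1 x * G c x)
      - W x * w c x * D c x * G c x|) :=
      continuous_finsetSum _ (fun c _ => ((cT2 c).sub (cT1 c)).abs)
    have e1 : ∫ x in (0:ℝ)..1, |∑ c, W x * w c x * (D c x * R1 x * G c x)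
        - ∑ c, W x * w c x * D c x|
        ≤ ∫ x in (0:ℝ)..1, ((∑ c, |W x * w c x * (D c x * R1 x * G c x)
          - W x * w c x * D c x * G c x|)
          + |∑ c, W x * w c x * D c x * G c x - ∑ c, W x * w c x * D c x|) := by
      refine B9_mono (cA.sub cC).abs (c5.add (cB.sub cC).abs) (fun x => ?_)
      have f1 : |∑ c, W x * w c x * (D c x * R1 x * G c x) - ∑ c, W x * w c x * D c x * G c x|
          ≤ ∑ c, |W x * w c x * (D c x * R1 x * G c x) - W x * w c x * D c x * G c x| := by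
        rw [← Finset.sum_sub_distrib]
        exact Finset.abs_sum_le_sum_abs _ _
      have f2 := abs_sub_le (∑ c, W x * w c x * (D c x * R1 x * G c x))
        (∑ c, W x * w c x * D c x * G c x) (∑ c, W x * w c x * D c x)
      linarith
    rw [B9_add (fun x => ∑ c, |W x * w c x * (D c x * R1 x * G c x) - W x * w c x * D c x * G c x|)
      (fun x => |∑ c, W x * w c x * D c x * G c x - ∑ c, W x * w c x * D c x|) c5
      (cB.sub cC).abs] at e1
    have e2 : ∫ x in (0:ℝ)..1, |∑ c, W x * w c x * D c x * G c x - ∑ c, W x * w c x * D c x|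
        ≤ 600 / (q : ℝ) ^ 3 * (4 * M) + ε / 4 := q1
    linarith
  · -- the potential of C decreases
    have e1 := hpot C
    have e2 : Pot (fun c x => W x * w c x * D c x * G c x) C
        ≤ Pot (fun c x => W x * w c x * D c x) C
          - (Pot (fun c x => W x * w c x * D c x) C) ^ 2 / (8 * (q : ℝ) ^ 2 * (4 * M)) + ε / 4 := q2
    linarith
  · intro C'
    have e1 := hpot C'
    have e2 : Pot (fun c x => W x * w c x * D c x * G c x) C'
        ≤ Pot (fun c x => W x * w c x * D c x) C' + ε / 4 := q3 C'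
    linarith
  · intro c
    have cU : Continuous (fun x => W x * g c x * (D c x * R1 x * G c x)) :=
      (Wc.mul (gc c)).mul (((Dc c).mul R1c).mul (Gc c))
    have cV : Continuous (fun x => W x * (g c x * D c x) * G c x) :=
      (Wc.mul ((gc c).mul (Dc c))).mul (Gc c)
    have cX : Continuous (fun x => g c x * D c x * G c x) := ((gc c).mul (Dc c)).mul (Gc c)
    have e1 : ∫ x in (0:ℝ)..1, W x * g c x * (D c x * R1 x * G c x)
        ≤ ∫ x in (0:ℝ)..1, (W x * (g c x * D c x) * G c x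
          + 80 / (H : ℝ) * (g c x * D c x * G c x)) := by
      refine B9_mono cU (cV.add (continuous_const.mul cX)) (fun x => ?_)
      have f2 : 0 ≤ g c x * D c x * G c x := mul_nonneg (mul_nonneg (g0 c x) (D0 c x)) (G0' c x)
      have f3 : W x * (R1 x - 1) ≤ 80 / H := by
        refine le_trans ?_ (R1b x)
        exact mul_le_mul_of_nonneg_left (le_abs_self _) (W0 x)
      have f4 : W x * g c x * (D c x * R1 x * G c x) = W x * (g c x * D c x) * G c x
          + W x * (R1 x - 1) * (g c x * D c x * G c x) := by ring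
      rw [f4]
      have f5 := mul_le_mul_of_nonneg_right f3 f2
      linarith
    rw [B9_add (fun x => W x * (g c x * D c x) * G c x)
      (fun x => 80 / (H : ℝ) * (g c x * D c x * G c x)) cV (continuous_const.mul cX),
      intervalIntegral.integral_const_mul, ex2 c, ex3 c] at e1
    have e2 : ∫ x in (0:ℝ)..1, g c x * D c x ≤ Bg := by
      have f1 : ∫ x in (0:ℝ)..1, g c x * D c x ≤ ∫ x in (0:ℝ)..1, Bg * D c x := by
        refine B9_mono ((gc c).mul (Dc c)) (continuous_const.mul (Dc c)) (fun x => ?_)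
        exact mul_le_mul_of_nonneg_right (hBg c x) (D0 c x)
      rw [intervalIntegral.integral_const_mul, (hD c).2, mul_one] at f1
      exact f1
    have e3 : 80 / (H : ℝ) * ∫ x in (0:ℝ)..1, g c x * D c x ≤ 80 / (H : ℝ) * Bg :=
      mul_le_mul_of_nonneg_left e2 (by positivity)
    have e4 : ∫ x in (0:ℝ)..1, W x * (g c x * D c x) = ∫ x in (0:ℝ)..1, W x * g c x * D c x := by
      congr 1; funext x; ring
    rw [e4] at e1
    linarith

end

end Pool.Agent.H728R2.BL
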