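import Pool.Agent.H728R2.BL.Defs2
import Pool.Agent.H728R2.BL.X.B9
/-!
# B10: decoding of all classes
-/

namespace Pool.Agent.H728R2.BL

open MeasureTheory Set Filter Topology Pool.Agent.H691R3.SL
open scoped Real BigOperators

noncomputable section

theorem B10_hm_nonneg {a b : ℝ} (ha : 0 ≤ a) (hb : 0 ≤ b) : 0 ≤ hm a b := by
  unfold hm
  positivity

theorem B10_hm_le {a b : ℝ} (ha : 0 ≤ a) (hb : 0 ≤ b) : hm a b ≤ a := by
  unfold hm
  rcases eq_or_lt_of_le (add_nonneg ha hb) with h | h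
  · rw [← h, div_zero]
    exact ha
  · rw [div_le_iff₀ h]
    nlinarith

theorem B10_e_cont : Continuous e := by
  unfold e
  fun_prop

theorem B10_e_norm (x : ℝ) : ‖e x‖ = 1 := by
  unfold e
  rw [show (2 * π * x * Complex.I : ℂ) = ((2 * π * x : ℝ) : ℂ) * Complex.I by push_cast; ring]
  exact Complex.norm_exp_ofReal_mul_I _

theorem B10_W_cont : Continuous W := by
  unfold W
  exact ((B10_e_cont.sub continuous_const).norm).pow 2

theorem B10_W_nonneg (x : ℝ) : 0 ≤ W x := by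
  unfold W
  positivity

theorem B10_W_le (x : ℝ) : W x ≤ 4 := by
  unfold W
  have h1 : ‖e x - 1‖ ≤ 2 := by
    refine (norm_sub_le _ _).trans ?_
    rw [B10_e_norm, norm_one]
    norm_num
  have h2 : 0 ≤ ‖e x - 1‖ := norm_nonneg _
  nlinarith

theorem B10_tp_cont {f : ℝ → ℝ} (hf : TPpos f) : Continuous f := by
  obtain ⟨-, m, a, ha⟩ := hf
  have : f = fun x => tp m a x := funext ha
  rw [this]
  unfold tp cs
  fun_prop

theorem B10_reach {L : Lev} {h : ℕ} {D : L.Θ → ℝ → ℝ} {κ : ℝ} (hR : Reach L h D κ) :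
    0 ≤ κ ∧ (∀ c x, 0 ≤ D c x) ∧ (∀ c, Continuous (D c)) := by
  obtain ⟨F, -, h2, h3⟩ := hR
  have hL := L.βpos
  have hM := F.M.βpos
  refine ⟨?_, fun c x => ?_, fun c => ?_⟩
  · rw [← h3]
    positivity
  · rw [← h2]
    unfold Fib.D
    positivity
  · have h4 : D c = fun x => F.D c x := funext fun x => (h2 c x).symm
    rw [h4]
    unfold Fib.D
    refine continuous_const.mul (continuous_finsetSum _ fun c' _ => ?_)
    unfold Fib.qp
    refine (Continuous.norm (continuous_finsetSum _ fun i _ => ?_)).pow 2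
    exact B10_e_cont.comp (continuous_const.mul continuous_id)

theorem B10_pot_nonneg {ι : Type} [Fintype ι] [DecidableEq ι] (t : ι → ℝ → ℝ)
    (ht : ∀ c x, 0 ≤ t c x) (C : Finset ι) : 0 ≤ Pot t C := by
  unfold Pot
  refine intervalIntegral.integral_nonneg (by norm_num) fun x _ => ?_
  exact B10_hm_nonneg (Finset.sum_nonneg fun c _ => ht c x) (Finset.sum_nonneg fun c _ => ht c x)

theorem B10_pot_le {ι : Type} [Fintype ι] [DecidableEq ι] (t : ι → ℝ → ℝ)
    (ht : ∀ c x, 0 ≤ t c x) (hc : ∀ c, Continuous (t c)) (c : ι) :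
    Pot t {c} ≤ ∫ x in (0:ℝ)..1, t c x := by
  unfold Pot
  by_cases hi : IntervalIntegrable
      (fun x => hm (∑ c ∈ ({c} : Finset ι), t c x) (∑ c ∈ ({c} : Finset ι)ᶜ, t c x)) volume 0 1
  · refine intervalIntegral.integral_mono_on (by norm_num) hi ((hc c).intervalIntegrable _ _)
      fun x _ => ?_
    refine (B10_hm_le (Finset.sum_nonneg fun c _ => ht c x)
      (Finset.sum_nonneg fun c _ => ht c x)).trans ?_
    rw [Finset.sum_singleton]
  · rw [intervalIntegral.integral_undef hi]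
    exact intervalIntegral.integral_nonneg (by norm_num) fun x _ => ht c x

theorem B10_pot_sum {ι : Type} [Fintype ι] [DecidableEq ι] (t : ι → ℝ → ℝ)
    (ht : ∀ c x, 0 ≤ t c x) (hc : ∀ c, Continuous (t c)) :
    ∑ c, Pot t {c} ≤ ∫ x in (0:ℝ)..1, ∑ c, t c x := by
  rw [intervalIntegral.integral_finsetSum fun c _ => (hc c).intervalIntegrable _ _]
  exact Finset.sum_le_sum fun c _ => B10_pot_le t ht hc c

theorem B10_tri {f g h : ℝ → ℝ} (hf : Continuous f) (hg : Continuous g) (hh : Continuous h) :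
    (∫ x in (0:ℝ)..1, |f x - h x|) ≤
      (∫ x in (0:ℝ)..1, |f x - g x|) + ∫ x in (0:ℝ)..1, |g x - h x| := by
  have h1 : IntervalIntegrable (fun x => |f x - g x|) volume 0 1 :=
    (hf.sub hg).abs.intervalIntegrable _ _
  have h2 : IntervalIntegrable (fun x => |g x - h x|) volume 0 1 :=
    (hg.sub hh).abs.intervalIntegrable _ _
  have h3 : IntervalIntegrable (fun x => |f x - h x|) volume 0 1 :=
    (hf.sub hh).abs.intervalIntegrable _ _
  rw [← intervalIntegral.integral_add h1 h2]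
  exact intervalIntegral.integral_mono_on (by norm_num) h3 (h1.add h2) fun x _ => abs_sub_le _ _ _

/-- iteration of the rounds -/
theorem B10_iter (L : Lev) (w g : L.Θ → ℝ → ℝ) (hw : ∀ c, TPpos (w c))
    (M : ℝ) (ε0 : ℝ) (hε0 : 0 < ε0) (q : ℕ) (ε' : ℝ) (hε' : 0 < ε')
    (δ : ℝ) (hM0 : 0 < M)
    (hδ : Fintype.card L.Θ * ε' + δ ≤ ε0 ^ 2 / (8 * (q : ℝ) ^ 2 * (4 * M))) (h3 : ℕ)
    (hstep : ∀ c0 : L.Θ, ∀ h D κ, Reach L h D κ → h3 ≤ h → ∀ H0 : ℕ, ∃ h' D' κ', H0 ≤ h' ∧ h ≤ h' ∧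
      Reach L h' D' κ' ∧ κ' * h' ≤ κ * h * (1 + ε') ∧
      (∫ x in (0:ℝ)..1, |∑ c, W x * w c x * D' c x - ∑ c, W x * w c x * D c x|)
        ≤ 600 / (q : ℝ) ^ 3 * (4 * M) + ε' ∧
      Pot (fun c x => W x * w c x * D' c x) {c0}
        ≤ Pot (fun c x => W x * w c x * D c x) {c0}
          - (Pot (fun c x => W x * w c x * D c x) {c0}) ^ 2 / (8 * (q : ℝ) ^ 2 * (4 * M)) + ε' ∧
      (∀ C', Pot (fun c x => W x * w c x * D' c x) C'
        ≤ Pot (fun c x => W x * w c x * D c x) C' + ε') ∧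
      (∀ c, ∫ x in (0:ℝ)..1, W x * g c x * D' c x ≤
        (∫ x in (0:ℝ)..1, W x * g c x * D c x) + ε')) (n : ℕ) :
    ∀ h D κ, Reach L h D κ → h3 ≤ h →
      ∑ c, Pot (fun c x => W x * w c x * D c x) {c} ≤ n * δ →
      ∃ h' D' κ', h3 ≤ h' ∧ Reach L h' D' κ' ∧ κ' * h' ≤ κ * h * (1 + ε') ^ n ∧
      (∫ x in (0:ℝ)..1, |∑ c, W x * w c x * D' c x - ∑ c, W x * w c x * D c x|)
        ≤ n * (600 / (q : ℝ) ^ 3 * (4 * M) + ε') ∧
      (∀ c, Pot (fun c x => W x * w c x * D' c x) {c} ≤ ε0) ∧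
      (∀ c, ∫ x in (0:ℝ)..1, W x * g c x * D' c x ≤
        (∫ x in (0:ℝ)..1, W x * g c x * D c x) + n * ε') := by
  have hcont : ∀ {h : ℕ} {D : L.Θ → ℝ → ℝ} {κ : ℝ}, Reach L h D κ →
      (∀ c x, 0 ≤ W x * w c x * D c x) ∧ (∀ c, Continuous fun x => W x * w c x * D c x) := by
    intro h D κ hR
    obtain ⟨-, h1, h2⟩ := B10_reach hR
    exact ⟨fun c x => mul_nonneg (mul_nonneg (B10_W_nonneg x) ((hw c).1 x)) (h1 c x),
      fun c => (B10_W_cont.mul (B10_tp_cont (hw c))).mul (h2 c)⟩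
  have hη : 0 ≤ 600 / (q : ℝ) ^ 3 * (4 * M) + ε' := by positivity
  induction n with
  | zero =>
    intro h D κ hR hh hΨ
    refine ⟨h, D, κ, hh, hR, by simp, by simp, fun c => ?_, fun c => by simp⟩
    have h1 : ∀ c ∈ Finset.univ, 0 ≤ Pot (fun c x => W x * w c x * D c x) {c} :=
      fun c _ => B10_pot_nonneg _ (hcont hR).1 _
    have h2 := Finset.single_le_sum h1 (Finset.mem_univ c)
    simp only [Nat.cast_zero, zero_mul] at hΨ
    linarith
  | succ n ih =>
    intro h D κ hR hh hΨ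
    by_cases hall : ∀ c, Pot (fun c x => W x * w c x * D c x) {c} ≤ ε0
    · refine ⟨h, D, κ, hh, hR, ?_, ?_, hall, fun c => ?_⟩
      · have h1 := (B10_reach hR).1
        have h2 : (1:ℝ) ≤ (1 + ε') ^ (n + 1) := one_le_pow₀ (by linarith)
        exact le_mul_of_one_le_right (by positivity) h2
      · simp only [sub_self, abs_zero, intervalIntegral.integral_zero]
        positivity
      · have : 0 ≤ ((n + 1 : ℕ) : ℝ) * ε' := by positivity
        linarith
    · push Not at hall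
      obtain ⟨c0, hc0⟩ := hall
      obtain ⟨h1, D1, κ1, -, hle, hR1, hmass, hL1, hdrop, hother, hg1⟩ := hstep c0 h D κ hR hh h3
      have hh1 : h3 ≤ h1 := hh.trans hle
      have hΨ1 : ∑ c, Pot (fun c x => W x * w c x * D1 c x) {c} ≤ n * δ := by
        have h4 : ∀ c ∈ Finset.univ, Pot (fun c x => W x * w c x * D1 c x) {c} ≤
            Pot (fun c x => W x * w c x * D c x) {c} + ε' -
            (if c = c0 then ε0 ^ 2 / (8 * (q : ℝ) ^ 2 * (4 * M)) else 0) := by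
          intro c _
          by_cases hc : c = c0
          · subst hc
            rw [if_pos rfl]
            have h5 : ε0 ^ 2 / (8 * (q : ℝ) ^ 2 * (4 * M)) ≤
                (Pot (fun c x => W x * w c x * D c x) {c}) ^ 2 / (8 * (q : ℝ) ^ 2 * (4 * M)) := by
              gcongr
            linarith
          · rw [if_neg hc, sub_zero]
            exact hother {c}
        have h5 := Finset.sum_le_sum h4
        rw [Finset.sum_sub_distrib, Finset.sum_add_distrib, Finset.sum_const, Finset.sum_ite_eq',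
          if_pos (Finset.mem_univ c0), nsmul_eq_mul, Finset.card_univ] at h5
        push_cast at hΨ
        linarith
      obtain ⟨h', D', κ', hh', hR', hmass', hL1', hP', hg'⟩ := ih h1 D1 κ1 hR1 hh1 hΨ1
      refine ⟨h', D', κ', hh', hR', ?_, ?_, hP', fun c => ?_⟩
      · refine hmass'.trans ?_
        calc κ1 * h1 * (1 + ε') ^ n ≤ (κ * h * (1 + ε')) * (1 + ε') ^ n := by gcongr
          _ = κ * h * (1 + ε') ^ (n + 1) := by ring
      · have hS : ∀ {h : ℕ} {D : L.Θ → ℝ → ℝ} {κ : ℝ}, Reach L h D κ →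
            Continuous fun x => ∑ c, W x * w c x * D c x := fun hR =>
          continuous_finsetSum _ fun c _ => (hcont hR).2 c
        have h4 := B10_tri (hS hR') (hS hR1) (hS hR)
        push_cast
        linarith
      · have := hg1 c
        have := hg' c
        push_cast
        linarith

/-- B10 (uses B9): decoding of all classes -/
theorem decode_all (L : Lev) (w g : L.Θ → ℝ → ℝ) (hw : ∀ c, TPpos (w c)) (hg : ∀ c, TPpos (g c))
    (M : ℝ) (hM0 : 0 < M)
    (hM : ∀ h D κ, Reach L h D κ → ∫ x in (0:ℝ)..1, ∑ c, w c x * D c x ≤ M)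
    (ε : ℝ) (hε : 0 < ε) :
    ∃ h3 : ℕ, ∀ h D κ, Reach L h D κ → h3 ≤ h → ∀ H0 : ℕ, ∃ h' D' κ', H0 ≤ h' ∧
      Reach L h' D' κ' ∧ κ' * h' ≤ κ * h * (1 + ε) ∧
      (∫ x in (0:ℝ)..1, |∑ c, W x * w c x * D' c x - ∑ c, W x * w c x * D c x|) ≤ ε ∧
      (∀ c, Pot (fun c x => W x * w c x * D' c x) {c} ≤ ε) ∧
      (∀ c, ∫ x in (0:ℝ)..1, W x * g c x * D' c x ≤ (∫ x in (0:ℝ)..1, W x * g c x * D c x) + ε) := by
  set ε0 : ℝ := ε / 2 with hε0
  have hε00 : 0 < ε0 := by positivity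
  set A : ℝ := 614400 * M ^ 3 / ε0 ^ 2 + 4800 * M with hA
  have hA0 : 0 < A := by positivity
  set q : ℕ := max 11 (Nat.ceil (2 * A / ε)) with hq
  have hq11 : 11 ≤ q := le_max_left _ _
  have hq0 : (0:ℝ) < q := by exact_mod_cast (by omega : 0 < q)
  have hq1 : (1:ℝ) ≤ q := by exact_mod_cast (by omega : 1 ≤ q)
  have hqA : A / q ≤ ε / 2 := by
    have h1 : 2 * A / ε ≤ q := (Nat.le_ceil _).trans (by exact_mod_cast le_max_right _ _)
    rw [div_le_iff₀ hε] at h1
    rw [div_le_iff₀ hq0]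
    linarith
  set δ : ℝ := ε0 ^ 2 / (64 * (q:ℝ) ^ 2 * M) with hδ
  have hδ0 : 0 < δ := by positivity
  set n : ℕ := Nat.ceil (4 * M / δ) with hn
  have hn1 : 4 * M ≤ n * δ := by
    have := Nat.le_ceil (4 * M / δ)
    rwa [div_le_iff₀ hδ0] at this
  have hn2 : (n:ℝ) ≤ 4 * M / δ + 1 := (Nat.ceil_lt_add_one (by positivity)).le
  have hN0 : (0:ℝ) < Fintype.card L.Θ := by exact_mod_cast Fintype.card_pos
  have hlog0 : 0 < Real.log (1 + ε) := Real.log_pos (by linarith)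
  have hn0 : (0:ℝ) < n + 1 := by positivity
  set ε' : ℝ := min (δ / Fintype.card L.Θ) (min (ε / 2 / (n + 1)) (Real.log (1 + ε) / (n + 1)))
    with hε'
  have hε'0 : 0 < ε' := lt_min (by positivity) (lt_min (by positivity) (by positivity))
  have hε'1 : Fintype.card L.Θ * ε' ≤ δ := by
    have h1 : ε' ≤ δ / Fintype.card L.Θ := min_le_left _ _
    rw [le_div_iff₀ hN0] at h1
    linarith
  have hε'2 : ((n:ℝ) + 1) * ε' ≤ ε / 2 := by
    have h1 : ε' ≤ ε / 2 / (n + 1) := (min_le_right _ _).trans (min_le_left _ _)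
    rw [le_div_iff₀ hn0] at h1
    linarith
  have hε'3 : (1 + ε') ^ (n + 1) ≤ 1 + ε := by
    have h1 : ε' ≤ Real.log (1 + ε) / (n + 1) := (min_le_right _ _).trans (min_le_right _ _)
    rw [le_div_iff₀ hn0] at h1
    calc (1 + ε') ^ (n + 1) ≤ (Real.exp ε') ^ (n + 1) := by
          gcongr
          linarith [Real.add_one_le_exp ε']
      _ = Real.exp (ε' * (n + 1)) := by
          rw [← Real.exp_nat_mul]
          push_cast
          ring_nf
      _ ≤ Real.exp (Real.log (1 + ε)) := Real.exp_le_exp.2 h1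
      _ = 1 + ε := Real.exp_log (by linarith)
  have hη : ((n:ℝ) + 1) * (600 / (q : ℝ) ^ 3 * (4 * M) + ε') ≤ ε := by
    have h1 : ((n:ℝ) + 1) * (600 / (q : ℝ) ^ 3 * (4 * M)) ≤ A / q := by
      calc ((n:ℝ) + 1) * (600 / (q : ℝ) ^ 3 * (4 * M))
          ≤ (4 * M / δ + 2) * (600 / (q : ℝ) ^ 3 * (4 * M)) :=
            mul_le_mul_of_nonneg_right (by linarith) (by positivity)
        _ = 614400 * M ^ 3 / ε0 ^ 2 / q + 4800 * M / q ^ 3 := by
            rw [hδ]
            field_simp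
            ring
        _ ≤ 614400 * M ^ 3 / ε0 ^ 2 / q + 4800 * M / q := by
            gcongr
            exact le_self_pow₀ hq1 (by norm_num)
        _ = A / q := by rw [hA]; ring
    calc ((n:ℝ) + 1) * (600 / (q : ℝ) ^ 3 * (4 * M) + ε')
        = ((n:ℝ) + 1) * (600 / (q : ℝ) ^ 3 * (4 * M)) + ((n:ℝ) + 1) * ε' := by ring
      _ ≤ A / q + ε / 2 := by gcongr
      _ ≤ ε := by linarith
  choose h2 hh2 using fun c0 : L.Θ => Pool.Agent.H728R2.BL.roundStep L w g hw hg M hM0 hM {c0} q hq11 ε' hε'0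
  refine ⟨Finset.univ.sup h2, fun h D κ hR hh H0 => ?_⟩
  have hstep : ∀ c0 : L.Θ, ∀ h D κ, Reach L h D κ → Finset.univ.sup h2 ≤ h → ∀ H0 : ℕ,
      ∃ h' D' κ', H0 ≤ h' ∧ h ≤ h' ∧
      Reach L h' D' κ' ∧ κ' * h' ≤ κ * h * (1 + ε') ∧
      (∫ x in (0:ℝ)..1, |∑ c, W x * w c x * D' c x - ∑ c, W x * w c x * D c x|)
        ≤ 600 / (q : ℝ) ^ 3 * (4 * M) + ε' ∧
      Pot (fun c x => W x * w c x * D' c x) {c0}
        ≤ Pot (fun c x => W x * w c x * D c x) {c0}
          - (Pot (fun c x => W x * w c x * D c x) {c0}) ^ 2 / (8 * (q : ℝ) ^ 2 * (4 * M)) + ε' ∧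
      (∀ C', Pot (fun c x => W x * w c x * D' c x) C'
        ≤ Pot (fun c x => W x * w c x * D c x) C' + ε') ∧
      (∀ c, ∫ x in (0:ℝ)..1, W x * g c x * D' c x ≤
        (∫ x in (0:ℝ)..1, W x * g c x * D c x) + ε') := by
    intro c0 h D κ hR hh H0
    exact hh2 c0 h D κ hR ((Finset.le_sup (Finset.mem_univ c0)).trans hh) H0
  have hδ2 : Fintype.card L.Θ * ε' + δ ≤ ε0 ^ 2 / (8 * (q : ℝ) ^ 2 * (4 * M)) := by
    have h1 : ε0 ^ 2 / (8 * (q : ℝ) ^ 2 * (4 * M)) = 2 * δ := by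
      rw [hδ]
      field_simp
      ring
    rw [h1]
    linarith
  have hpos : ∀ {h : ℕ} {D : L.Θ → ℝ → ℝ} {κ : ℝ}, Reach L h D κ →
      (∀ c x, 0 ≤ W x * w c x * D c x) ∧ (∀ c, Continuous fun x => W x * w c x * D c x) := by
    intro h D κ hR
    obtain ⟨-, h1, h2⟩ := B10_reach hR
    exact ⟨fun c x => mul_nonneg (mul_nonneg (B10_W_nonneg x) ((hw c).1 x)) (h1 c x),
      fun c => (B10_W_cont.mul (B10_tp_cont (hw c))).mul (h2 c)⟩
  have hΨ : ∑ c, Pot (fun c x => W x * w c x * D c x) {c} ≤ n * δ := by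
    refine le_trans ?_ hn1
    obtain ⟨-, hD0, hDc⟩ := B10_reach hR
    refine (B10_pot_sum _ (hpos hR).1 (hpos hR).2).trans ?_
    have h1 : (∫ x in (0:ℝ)..1, ∑ c, W x * w c x * D c x) ≤
        ∫ x in (0:ℝ)..1, 4 * ∑ c, w c x * D c x := by
      refine intervalIntegral.integral_mono_on (by norm_num)
        ((continuous_finsetSum _ fun c _ => (hpos hR).2 c).intervalIntegrable _ _)
        ((continuous_const.mul (continuous_finsetSum _ fun c _ =>
          (B10_tp_cont (hw c)).mul (hDc c))).intervalIntegrable _ _) fun x _ => ?_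
      rw [Finset.mul_sum]
      refine Finset.sum_le_sum fun c _ => ?_
      rw [mul_assoc]
      exact mul_le_mul_of_nonneg_right (B10_W_le x) (mul_nonneg ((hw c).1 x) (hD0 c x))
    rw [intervalIntegral.integral_const_mul] at h1
    have := hM h D κ hR
    linarith
  obtain ⟨h1, D1, κ1, hh1, hR1, hmass1, hL1, hP1, hg1⟩ :=
    B10_iter L w g hw M ε0 hε00 q ε' hε'0 δ hM0 hδ2 (Finset.univ.sup h2) hstep n h D κ hR hh hΨ
  obtain ⟨c0⟩ := L.ne
  obtain ⟨h', D', κ', hH0, -, hR', hmass', hL1', -, hP', hg'⟩ := hstep c0 h1 D1 κ1 hR1 hh1 H0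
  refine ⟨h', D', κ', hH0, hR', ?_, ?_, fun c => ?_, fun c => ?_⟩
  · refine hmass'.trans ?_
    have hκ := (B10_reach hR).1
    calc κ1 * h1 * (1 + ε') ≤ (κ * h * (1 + ε') ^ n) * (1 + ε') := by gcongr
      _ = κ * h * (1 + ε') ^ (n + 1) := by ring
      _ ≤ κ * h * (1 + ε) := by gcongr
  · have hS : ∀ {h : ℕ} {D : L.Θ → ℝ → ℝ} {κ : ℝ}, Reach L h D κ →
        Continuous fun x => ∑ c, W x * w c x * D c x := fun hR =>
      continuous_finsetSum _ fun c _ => (hpos hR).2 c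
    have h4 := B10_tri (hS hR') (hS hR1) (hS hR)
    linarith
  · have h5 := hP' {c}
    have h6 := hP1 c
    have h7 : ε' ≤ ((n:ℝ) + 1) * ε' := le_mul_of_one_le_left hε'0.le (by
      have : (0:ℝ) ≤ n := Nat.cast_nonneg n
      linarith)
    linarith
  · have h5 := hg' c
    have h6 := hg1 c
    linarith

end

end Pool.Agent.H728R2.BL
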