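import Pool.Agent.H728R2.BL.Defs2
namespace Pool.Agent.H728R2.BL

open MeasureTheory Set Filter Topology Pool.Agent.H691R3.SL
open scoped Real BigOperators

noncomputable section

/-- B4: start -/
theorem reach_start (L : Lev) : Reach L L.h (fun _ _ => 1) (L.β * Fintype.card L.Θ) := by
  classical
  have h1 : ∀ c : L.Θ, (Finset.univ.filter fun c' : L.Θ => c' = c) = {c} := by
    intro c
    ext c'
    simp
  have e0 : e 0 = 1 := by simp [e]
  refine ⟨{ M := L, r := 1, hr := le_rfl, cls := fun c => c, Q := fun _ _ => 0,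
            Q0 := fun _ _ _ => rfl, sep := ?_, top := ?_, fib := ?_, hβ := ?_ }, rfl, ?_, rfl⟩
  · intro c' i j hij
    exact absurd hij (by omega)
  · intro c' i
    simp
  · intro c
    rw [h1 c]
    simp
  · simp
  · intro c x
    have hβ := L.βpos.ne'
    have hq : ∀ c' : L.Θ, (∑ i : Fin 1, e (((0 : ℕ) : ℝ) * x)) = 1 := by
      intro c'
      simp [e0]
    unfold Fib.D Fib.qp
    simp only [h1 c, Finset.sum_singleton, hq c]
    simp [hβ]

end

end Pool.Agent.H728R2.BL
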