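import Pool.Agent.H728R2.BL.Defs2
import Pool.Agent.H728R2.BL.X.B0
import Pool.Agent.H728R2.BL.X.B0C
import Pool.Agent.H728R2.BL.X.B10
import Pool.Agent.H728R2.BL.X.B3
import Pool.Agent.H728R2.BL.X.B4
import Pool.Agent.H728R2.BL.X.B5
/-!
# B11: the decoding part of a phase
-/

namespace Pool.Agent.H728R2.BL

open MeasureTheory Set Filter Topology Pool.Agent.H691R3.SL
open scoped Real BigOperators

noncomputable section

theorem B11_aux_sqrt (h : ℕ) (hL : 4 ≤ h) :
    4 ≤ 2 * Nat.sqrt h ∧ Real.sqrt h ≤ ((2 * Nat.sqrt h : ℕ) : ℝ) ∧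
      ((2 * Nat.sqrt h : ℕ) : ℝ) ≤ 2 * Real.sqrt h := by
  have h2 : 2 ≤ Nat.sqrt h := by
    rw [Nat.le_sqrt]; omega
  refine ⟨by omega, ?_, ?_⟩
  · have h3 : h < (Nat.sqrt h + 1) * (Nat.sqrt h + 1) := Nat.lt_succ_sqrt h
    have h4 : (h : ℝ) ≤ ((2 * Nat.sqrt h : ℕ) : ℝ) ^ 2 := by
      have h5 : h ≤ (2 * Nat.sqrt h) ^ 2 := by nlinarith
      exact_mod_cast h5
    calc Real.sqrt h ≤ Real.sqrt (((2 * Nat.sqrt h : ℕ) : ℝ) ^ 2) := Real.sqrt_le_sqrt h4
      _ = _ := Real.sqrt_sq (by positivity)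
  · have h3 : ((Nat.sqrt h : ℕ) : ℝ) ≤ Real.sqrt h := by
      apply Real.le_sqrt_of_sq_le
      have := Nat.sqrt_le' h
      exact_mod_cast this
    push_cast
    linarith

theorem macroStep (L : Lev) (hL : 4 ≤ L.h) (w g : L.Θ → ℝ → ℝ) (hw : ∀ c, TPpos (w c))
    (hg : ∀ c, TPpos (g c)) (M : ℝ) (hM0 : 0 < M)
    (hM : ∀ h D κ, Reach L h D κ → ∫ x in (0:ℝ)..1, ∑ c, w c x * D c x ≤ M)
    (ε : ℝ) (hε : 0 < ε) (H0 : ℕ) :
    ∃ h' D' κ', H0 ≤ h' ∧ Reach L h' D' κ' ∧
      κ' * h' ≤ L.mass * (1 + 2 / Real.sqrt L.h) + ε ∧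
      (∃ gg : ℝ → ℝ, (∀ x, 0 ≤ gg x) ∧ Continuous gg ∧ (∫ x in (0:ℝ)..1, gg x) ≤ ε ∧
        ∀ x, W x * |∑ c, w c x * D' c x - ∑ c, w c x| ≤ 80 / Real.sqrt L.h * ∑ c, w c x + gg x) ∧
      (∀ c, Pot (fun c x => W x * w c x * D' c x) {c} ≤ ε) ∧
      (∀ c, ∫ x in (0:ℝ)..1, W x * g c x * D' c x ≤ 44 * (∫ x in (0:ℝ)..1, g c x) + ε) := by
  obtain ⟨hH4, hHl, hHu⟩ := B11_aux_sqrt L.h hL
  set H : ℕ := 2 * Nat.sqrt L.h with hHdef
  have hHeven : Even H := ⟨Nat.sqrt L.h, by omega⟩
  have hh0 : (0:ℝ) < L.h := by exact_mod_cast L.hpos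
  have hs0 : 0 < Real.sqrt L.h := Real.sqrt_pos.2 hh0
  have hHr : (4:ℝ) ≤ (H:ℝ) := by exact_mod_cast hH4
  have hcard : (0:ℝ) < Fintype.card L.Θ := by exact_mod_cast Fintype.card_pos
  have hmass : 0 < L.mass := by
    unfold Lev.mass
    have := L.βpos
    positivity
  set K : ℝ := L.mass * (1 + 2 / Real.sqrt L.h) with hK
  have hK0 : 0 < K := by positivity
  set ε' : ℝ := ε / (K + 1) with hε'
  have hε'0 : 0 < ε' := by positivity
  have hε'le : ε' ≤ ε := by
    rw [hε', div_le_iff₀ (by positivity)]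
    nlinarith
  have hε'K : K * ε' ≤ ε := by
    rw [hε', ← mul_div_assoc, div_le_iff₀ (by positivity)]
    nlinarith
  obtain ⟨h3, hdec⟩ := Pool.Agent.H728R2.BL.decode_all L w g hw hg M hM0 hM ε' hε'0
  obtain ⟨R, hRc, hR0, hRb, hReach⟩ :=
    Pool.Agent.H728R2.BL.reach_raise L L.h (fun _ _ => 1) _ (Pool.Agent.H728R2.BL.reach_start L) (h3 + 1) H (by omega) hHeven
      (by omega)
  have hbig : h3 ≤ (h3 + 1) * (L.h + H) := by
    have : 1 ≤ L.h + H := by omega
    nlinarith
  obtain ⟨h', D', κ', hH0, hR', hk, hL1, hPot, hgD⟩ := hdec _ _ _ hReach hbig H0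
  have hWc := Pool.Agent.H728R2.BL.W_basic.2.2.2.1
  have hW0 := Pool.Agent.H728R2.BL.W_basic.2.1
  have hW4 := Pool.Agent.H728R2.BL.W_basic.2.2.1
  have hTPc : ∀ f, TPpos f → Continuous f := fun f hf => (Pool.Agent.H728R2.BL.TP_basic.2.2.2.1 f hf).1
  have hwc : ∀ c, Continuous (w c) := fun c => hTPc _ (hw c)
  have hgc : ∀ c, Continuous (g c) := fun c => hTPc _ (hg c)
  have hDc : ∀ c, Continuous (D' c) := by
    intro c
    obtain ⟨F, -, hFD, -⟩ := hR'
    have h1 : D' c = F.D c := by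
      funext x; exact (hFD c x).symm
    rw [h1]
    exact hTPc _ (Pool.Agent.H728R2.BL.fib_facts F c).1
  have h80 : (80:ℝ) / H ≤ 80 / Real.sqrt L.h := by
    apply div_le_div_of_nonneg_left (by norm_num) hs0 hHl
  have h20 : (80:ℝ) / H ≤ 20 := by
    rw [div_le_iff₀ (by linarith)]
    linarith
  refine ⟨h', D', κ', hH0, hR', ?_, ?_, ?_, ?_⟩
  · have h1 : (L.β * Fintype.card L.Θ / ((h3 + 1 : ℕ) : ℝ)) * (((h3 + 1) * (L.h + H) : ℕ) : ℝ)
        = L.β * Fintype.card L.Θ * (L.h + H) := by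
      have : ((h3 + 1 : ℕ) : ℝ) ≠ 0 := by positivity
      push_cast at this ⊢
      field_simp
    have h2 : L.β * Fintype.card L.Θ * ((L.h : ℝ) + H) ≤ K := by
      have h3' : (H : ℝ) ≤ L.h * (2 / Real.sqrt L.h) := by
        have h5 : (L.h : ℝ) * (2 / Real.sqrt L.h) = 2 * Real.sqrt L.h := by
          have h6 : (L.h : ℝ) = Real.sqrt L.h * Real.sqrt L.h := (Real.mul_self_sqrt hh0.le).symm
          field_simp
          nlinarith
        rw [h5]; exact hHu
      have h4 : K = L.β * Fintype.card L.Θ * ((L.h : ℝ) + L.h * (2 / Real.sqrt L.h)) := by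
        rw [hK]; unfold Lev.mass; ring
      rw [h4]
      have := L.βpos
      gcongr
    calc κ' * h' ≤ _ := hk
      _ = L.β * Fintype.card L.Θ * ((L.h : ℝ) + H) * (1 + ε') := by rw [h1]
      _ ≤ K * (1 + ε') := by gcongr
      _ = K + K * ε' := by ring
      _ ≤ K + ε := by linarith
  · refine ⟨fun x => |∑ c, W x * w c x * D' c x - ∑ c, W x * w c x * (1 * R x)|,
      fun x => abs_nonneg _, ?_, hL1.trans hε'le, ?_⟩
    · apply Continuous.abs
      apply Continuous.sub
      · apply continuous_finset_sum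
        intro c _
        exact (hWc.mul (hwc c)).mul (hDc c)
      · apply continuous_finset_sum
        intro c _
        exact (hWc.mul (hwc c)).mul (continuous_const.mul hRc)
    · intro x
      have hw0 : 0 ≤ ∑ c, w c x := Finset.sum_nonneg fun c _ => (hw c).1 x
      have e1 : W x * |∑ c, w c x * D' c x - ∑ c, w c x|
          ≤ W x * |(∑ c, w c x) * (R x - 1)|
            + W x * |∑ c, w c x * D' c x - (∑ c, w c x) * R x| := by
        rw [← mul_add]
        apply mul_le_mul_of_nonneg_left _ (hW0 x)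
        have : ∑ c, w c x * D' c x - ∑ c, w c x
            = (∑ c, w c x) * (R x - 1) + (∑ c, w c x * D' c x - (∑ c, w c x) * R x) := by ring
        rw [this]
        exact abs_add_le _ _
      have e2 : W x * |(∑ c, w c x) * (R x - 1)| ≤ 80 / Real.sqrt L.h * ∑ c, w c x := by
        rw [abs_mul, abs_of_nonneg hw0]
        calc W x * ((∑ c, w c x) * |R x - 1|) = (W x * |R x - 1|) * ∑ c, w c x := by ring
          _ ≤ (80 / Real.sqrt L.h) * ∑ c, w c x := by
            apply mul_le_mul_of_nonneg_right ((hRb x).trans h80) hw0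
      have e3 : W x * |∑ c, w c x * D' c x - (∑ c, w c x) * R x|
          = |∑ c, W x * w c x * D' c x - ∑ c, W x * w c x * (1 * R x)| := by
        rw [← abs_of_nonneg (hW0 x), ← abs_mul, abs_of_nonneg (hW0 x)]
        congr 1
        rw [mul_sub, Finset.mul_sum, Finset.sum_mul, Finset.mul_sum]
        congr 1
        · apply Finset.sum_congr rfl; intro c _; ring
        · apply Finset.sum_congr rfl; intro c _; ring
      rw [e3] at e1
      exact e1.trans (by linarith)
  · intro c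
    exact (hPot c).trans hε'le
  · intro c
    refine (hgD c).trans ?_
    have h1 : ∫ x in (0:ℝ)..1, W x * g c x * (1 * R x) ≤ ∫ x in (0:ℝ)..1, 44 * g c x := by
      apply intervalIntegral.integral_mono_on (by norm_num)
      · exact (Continuous.mul (hWc.mul (hgc c)) (continuous_const.mul hRc)).intervalIntegrable _ _
      · exact (continuous_const.mul (hgc c)).intervalIntegrable _ _
      · intro x _
        have hg0 := (hg c).1 x
        have h2 : W x * R x ≤ 44 := by
          have h3 : W x * R x ≤ W x * |R x - 1| + W x := by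
            have : R x ≤ |R x - 1| + 1 := by
              have := le_abs_self (R x - 1); linarith
            nlinarith [hW0 x]
          have := hRb x
          have := hW4 x
          linarith
        calc W x * g c x * (1 * R x) = (W x * R x) * g c x := by ring
          _ ≤ 44 * g c x := mul_le_mul_of_nonneg_right h2 hg0
    rw [intervalIntegral.integral_const_mul] at h1
    linarith

end

end Pool.Agent.H728R2.BL
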