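import Pool.Agent.H728R2.BL.Defs2
import Pool.Agent.H691R3.SLF.F_M15
/-!
# B12: a small potential gives a bounded trigonometric decoder
-/

namespace Pool.Agent.H728R2.BL

open MeasureTheory Set Filter Topology Pool.Agent.H691R3.SL
open scoped Real BigOperators

noncomputable section

theorem B12_aux_tp (m : ℕ) (a : ℕ → ℝ) : Continuous (tp m a) ∧
    (∀ x, tp m a (-x) = tp m a x) ∧ (∀ x, tp m a (x + 1) = tp m a x) := by
  refine ⟨?_, ?_, ?_⟩
  · unfold tp
    exact continuous_finsetSum _ fun j _ => continuous_const.mul (M15_cs_cont _)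
  · intro x
    unfold tp
    exact Finset.sum_congr rfl fun j _ => by rw [M15_cs_neg]
  · intro x
    unfold tp
    exact Finset.sum_congr rfl fun j _ => by rw [M15_cs_add_one]

theorem B12_aux_TP (f : ℝ → ℝ) (hf : TPpos f) : Continuous f ∧ (∀ x, 0 ≤ f x) ∧
    (∀ x, f (-x) = f x) ∧ (∀ x, f (x + 1) = f x) := by
  obtain ⟨h0, m, a, h⟩ := hf
  have h' : f = tp m a := funext h
  obtain ⟨h1, h2, h3⟩ := B12_aux_tp m a
  rw [h'] at h0 ⊢
  exact ⟨h1, h0, h2, h3⟩

theorem witness (s t : ℝ → ℝ) (hs : TPpos s) (ht : TPpos t) (ε : ℝ)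
    (h : ∫ x in (0:ℝ)..1, hm (s x) (t x) < ε) :
    ∃ (m : ℕ) (a : ℕ → ℝ), (∀ x, |tp m a x| ≤ 2) ∧
      ∫ x in (0:ℝ)..1, ((1 - tp m a x) ^ 2 * s x + (tp m a x) ^ 2 * t x) ≤ ε := by
  obtain ⟨c1, n1, e1, p1⟩ := B12_aux_TP t ht
  obtain ⟨c0, n0, e0, p0⟩ := B12_aux_TP s hs
  set A := t with hA
  set B := s with hB
  set Φ : ℝ := ∫ x in (0:ℝ)..1, hm (B x) (A x) with hΦ
  set κ : ℝ := (ε - Φ) / 2 with hκdef
  have hκ : 0 < κ := by rw [hκdef]; linarith
  set I : ℝ := ∫ x in (0:ℝ)..1, (A x + B x) with hI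
  have hI0 : 0 ≤ I := intervalIntegral.integral_nonneg zero_le_one
    fun x _ => add_nonneg (n1 x) (n0 x)
  set δ : ℝ := min 1 (κ / (3 * (I + 1))) with hδdef
  have hδ : 0 < δ := lt_min one_pos (by positivity)
  have hδ1 : δ ≤ 1 := min_le_left _ _
  have hδ2 : 3 * δ * I ≤ κ := by
    have h1 : δ ≤ κ / (3 * (I + 1)) := min_le_right _ _
    have h2 : δ * (3 * (I + 1)) ≤ κ := by
      rwa [le_div_iff₀ (by positivity)] at h1
    nlinarith
  set p : ℝ → ℝ := fun x => B x / (A x + B x + κ) with hp
  have hpos : ∀ x, 0 < A x + B x + κ := fun x => by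
    have := n1 x; have := n0 x; positivity
  have hpc : Continuous p := c0.div ((c1.add c0).add continuous_const) fun x => (hpos x).ne'
  have hp0 : ∀ x, 0 ≤ p x := fun x => div_nonneg (n0 x) (hpos x).le
  have hp1 : ∀ x, p x ≤ 1 := fun x => by
    rw [hp]
    simp only
    rw [div_le_one (hpos x)]
    linarith [n1 x]
  obtain ⟨m, hmm⟩ := M15_approx p hpc (fun x => by simp [hp, e1, e0])
    (fun x => by simp [hp, p1, p0]) δ hδ
  obtain ⟨a, ha⟩ := hmm m le_rfl
  refine ⟨m, a, fun x => ?_, ?_⟩
  · have h2 := abs_le.1 (ha x)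
    have hq0 := hp0 x
    have hq1 := hp1 x
    rw [abs_le]
    constructor <;> linarith
  have htc : Continuous (tp m a) := (B12_aux_tp m a).1
  have hsym : ∀ x, hm (B x) (A x) = hm (A x) (B x) := by
    intro x
    unfold hm
    rw [mul_comm, add_comm]
  have hhmc : Continuous fun x => hm (A x) (B x) := by
    have key : ∀ x, |hm (A x) (B x)| ≤ A x := by
      intro x
      have ha := n1 x
      have hb := n0 x
      unfold hm
      rw [abs_of_nonneg (by positivity)]
      rcases (add_nonneg ha hb).eq_or_lt with h0 | h0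
      · have : A x = 0 := by linarith
        simp [this]
      · rw [div_le_iff₀ h0]
        nlinarith [mul_nonneg ha ha]
    rw [continuous_iff_continuousAt]
    intro x
    by_cases hx : A x + B x = 0
    · have hAx : A x = 0 := by linarith [n1 x, n0 x]
      have hval : hm (A x) (B x) = 0 := by unfold hm; simp [hAx]
      rw [ContinuousAt, hval]
      refine squeeze_zero_norm (fun y => ?_) (by simpa [hAx] using c1.tendsto x)
      exact key y
    · unfold hm
      exact (c1.continuousAt.mul c0.continuousAt).div (c1.continuousAt.add c0.continuousAt) hx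
  have hbound : ∀ x ∈ Set.Icc (0:ℝ) 1,
      (1 - tp m a x) ^ 2 * B x + (tp m a x) ^ 2 * A x
        ≤ (hm (A x) (B x) + κ) + 3 * δ * (A x + B x) := by
    intro x _
    have h1 := M15_pointwise (A x) (B x) κ (n1 x) (n0 x) hκ
    have h2 := abs_le.1 (ha x)
    have hq0 := hp0 x
    have hq1 := hp1 x
    have h1' : (p x) ^ 2 * A x + (1 - p x) ^ 2 * B x ≤ hm (A x) (B x) + κ := h1
    have h3 : (tp m a x) ^ 2 ≤ (p x) ^ 2 + 3 * δ := by
      nlinarith [mul_nonneg hδ.le hδ.le]
    have h4 : (1 - tp m a x) ^ 2 ≤ (1 - p x) ^ 2 + 3 * δ := by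
      nlinarith [mul_nonneg hδ.le hδ.le]
    have h5 := mul_le_mul_of_nonneg_right h3 (n1 x)
    have h6 := mul_le_mul_of_nonneg_right h4 (n0 x)
    nlinarith
  calc ∫ x in (0:ℝ)..1, ((1 - tp m a x) ^ 2 * B x + (tp m a x) ^ 2 * A x)
      ≤ ∫ x in (0:ℝ)..1, ((hm (A x) (B x) + κ) + 3 * δ * (A x + B x)) := by
        refine intervalIntegral.integral_mono_on zero_le_one ?_ ?_ hbound
        · exact ((((continuous_const.sub htc).pow 2).mul c0).add
            ((htc.pow 2).mul c1)).intervalIntegrable _ _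
        · exact ((hhmc.add continuous_const).add
            (continuous_const.mul (c1.add c0))).intervalIntegrable _ _
    _ = Φ + κ + 3 * δ * I := by
        have i1 : IntervalIntegrable (fun x => hm (A x) (B x) + κ) volume (0:ℝ) 1 :=
          (hhmc.add continuous_const).intervalIntegrable _ _
        have i2 : IntervalIntegrable (fun x => 3 * δ * (A x + B x)) volume (0:ℝ) 1 :=
          (continuous_const.mul (c1.add c0)).intervalIntegrable _ _
        have i3 : IntervalIntegrable (fun x => hm (A x) (B x)) volume (0:ℝ) 1 :=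
          hhmc.intervalIntegrable _ _
        have i4 : IntervalIntegrable (fun _ : ℝ => κ) volume (0:ℝ) 1 :=
          continuous_const.intervalIntegrable _ _
        have hΦ' : Φ = ∫ x in (0:ℝ)..1, hm (A x) (B x) := by
          rw [hΦ]
          exact intervalIntegral.integral_congr fun x _ => hsym x
        rw [intervalIntegral.integral_add i1 i2, intervalIntegral.integral_add i3 i4,
          intervalIntegral.integral_const_mul, hΦ']
        simp [hI]
    _ ≤ ε := by
        have : Φ + 2 * κ = ε := by rw [hκdef]; ring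
        linarith

end

end Pool.Agent.H728R2.BL
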