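import Pool.Agent.H728R2.BL.Defs2
import Pool.Agent.H728R2.BL.X.B0
import Pool.Agent.H728R2.BL.X.B0C
import Pool.Agent.H728R2.BL.X.B0D
/-!
# Project BL (Banach's problem), task B13: approximate inverse of a polynomial in `L²`

With `s = |P|²`, `B = |A|²` and `p_K = (conj P / B) ∑_{k<K} (1 - s/B)^k` one has
`p_K P - 1 = -(1 - s/B)^K`, which tends to `0` off the finitely many zeros of `P`.
-/

namespace Pool.Agent.H728R2.BL

open MeasureTheory Set Filter Topology Pool.Agent.H691R3.SL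
open scoped Real BigOperators

noncomputable section

/-- evaluation of a trigonometric polynomial with real coefficients -/
def B13_evr (p : ℤ →₀ ℝ) (x : ℝ) : ℂ := p.sum fun n a => (a : ℂ) * e (n * x)

/-- trigonometric polynomials with real coefficients -/
def B13_RC (f : ℝ → ℂ) : Prop := ∃ p : ℤ →₀ ℝ, ∀ x, f x = B13_evr p x

lemma B13_evr_add (p q : ℤ →₀ ℝ) (x : ℝ) :
    B13_evr (p + q) x = B13_evr p x + B13_evr q x := by
  unfold B13_evr
  rw [Finsupp.sum_add_index']
  · intro n; simp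
  · intro n a b; push_cast; ring

lemma B13_evr_single (n : ℤ) (a x : ℝ) :
    B13_evr (Finsupp.single n a) x = (a : ℂ) * e (n * x) := by
  unfold B13_evr
  rw [Finsupp.sum_single_index]
  simp

lemma B13_evr_zero (x : ℝ) : B13_evr 0 x = 0 := by
  unfold B13_evr
  simp

lemma B13_RC_congr {f g : ℝ → ℂ} (hf : B13_RC f) (h : ∀ x, g x = f x) : B13_RC g := by
  obtain ⟨p, hp⟩ := hf
  exact ⟨p, fun x => (h x).trans (hp x)⟩

lemma B13_RC_add {f g : ℝ → ℂ} (hf : B13_RC f) (hg : B13_RC g) :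
    B13_RC (fun x => f x + g x) := by
  obtain ⟨p, hp⟩ := hf
  obtain ⟨q, hq⟩ := hg
  exact ⟨p + q, fun x => by rw [B13_evr_add, ← hp, ← hq]⟩

lemma B13_RC_mono (n : ℤ) (a : ℝ) : B13_RC (fun x => (a : ℂ) * e (n * x)) :=
  ⟨Finsupp.single n a, fun x => (B13_evr_single n a x).symm⟩

lemma B13_RC_const (a : ℝ) : B13_RC (fun _ => (a : ℂ)) := by
  obtain ⟨p, hp⟩ := B13_RC_mono 0 a
  refine ⟨p, fun x => ?_⟩
  rw [← hp x]
  simp [Pool.Agent.H728R2.BL.e_basic.2.1]

lemma B13_RC_mul_mono (n : ℤ) (a : ℝ) (q : ℤ →₀ ℝ) :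
    B13_RC (fun x => ((a : ℂ) * e (n * x)) * B13_evr q x) := by
  induction q using Finsupp.induction_linear with
  | zero =>
    refine ⟨0, fun x => ?_⟩
    simp only [B13_evr_zero, mul_zero]
  | add f g hf hg =>
    refine B13_RC_congr (B13_RC_add hf hg) fun x => ?_
    simp only [B13_evr_add]; ring
  | single k b =>
    refine ⟨Finsupp.single (n + k) (a * b), fun x => ?_⟩
    simp only [B13_evr_single]
    have : (((n + k : ℤ) : ℝ) * x) = (n : ℝ) * x + (k : ℝ) * x := by push_cast; ring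
    rw [this, Pool.Agent.H728R2.BL.e_basic.1]
    push_cast
    ring

lemma B13_RC_mul {f g : ℝ → ℂ} (hf : B13_RC f) (hg : B13_RC g) :
    B13_RC (fun x => f x * g x) := by
  obtain ⟨p, hp⟩ := hf
  obtain ⟨q, hq⟩ := hg
  have key : ∀ p : ℤ →₀ ℝ, B13_RC (fun x => B13_evr p x * B13_evr q x) := by
    intro p
    induction p using Finsupp.induction_linear with
    | zero =>
      refine ⟨0, fun x => ?_⟩
      simp [B13_evr_zero]
    | add f g hf hg =>
      refine B13_RC_congr (B13_RC_add hf hg) fun x => ?_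
      simp only [B13_evr_add]; ring
    | single k b =>
      refine B13_RC_congr (B13_RC_mul_mono k b q) fun x => ?_
      simp only [B13_evr_single]
  refine B13_RC_congr (key p) fun x => ?_
  simp only [hp, hq]

lemma B13_RC_pow {f : ℝ → ℂ} (hf : B13_RC f) (K : ℕ) : B13_RC (fun x => f x ^ K) := by
  induction K with
  | zero => simpa using B13_RC_const 1
  | succ K ih =>
    have := B13_RC_mul ih hf
    simpa [pow_succ] using this

lemma B13_RC_sum {ι : Type*} (s : Finset ι) (f : ι → ℝ → ℂ) (h : ∀ i ∈ s, B13_RC (f i)) :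
    B13_RC (fun x => ∑ i ∈ s, f i x) := by
  classical
  induction s using Finset.induction_on with
  | empty => simpa using B13_RC_const 0
  | insert i s hi ih =>
    have h1 := B13_RC_add (h i (Finset.mem_insert_self i s))
      (ih fun j hj => h j (Finset.mem_insert_of_mem hj))
    simpa [Finset.sum_insert hi] using h1

/-- every such function is `ev` of something with real coefficients -/
lemma B13_RC_ev {f : ℝ → ℂ} (hf : B13_RC f) :
    ∃ p : ℤ →₀ ℂ, (∀ n, (p n).im = 0) ∧ ∀ x, ev p x = f x := by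
  obtain ⟨p, hp⟩ := hf
  refine ⟨p.mapRange (fun a : ℝ => (a : ℂ)) (by simp), fun n => by simp, fun x => ?_⟩
  rw [hp x]
  unfold ev B13_evr
  rw [Finsupp.sum_mapRange_index]
  intro n; simp

lemma B13_RC_pol (A : Finset ℕ) : B13_RC (pol A) := by
  unfold pol
  refine B13_RC_sum A _ fun a _ => ?_
  have := B13_RC_mono (a : ℤ) 1
  simpa using this

lemma B13_RC_conj_pol (A : Finset ℕ) : B13_RC (fun x => starRingEnd ℂ (pol A x)) := by
  unfold pol
  simp only [map_sum]
  refine B13_RC_sum A _ fun a _ => ?_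
  refine B13_RC_congr (B13_RC_mono (-(a : ℤ)) 1) fun x => ?_
  simp [Pool.Agent.H728R2.BL.e_basic.2.2.2.2.2.1]

/-- B13: approximate inverse of a polynomial in `L²` -/
theorem inverse (A : Finset ℕ) (hA : A.Nonempty) (ε : ℝ) (hε : 0 < ε) :
    ∃ p : ℤ →₀ ℂ, (∀ n, (p n).im = 0) ∧ TPpos (fun x => ‖ev p x * pol A x - 1‖ ^ 2) ∧
      ∫ x in (0:ℝ)..1, ‖ev p x * pol A x - 1‖ ^ 2 ≤ ε := by
  have hcard : (0 : ℝ) < A.card := by exact_mod_cast hA.card_pos
  set B : ℝ := (A.card : ℝ) ^ 2 with hB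
  have hBpos : 0 < B := by positivity
  have hPle : ∀ x, ‖pol A x‖ ≤ A.card := by
    intro x
    unfold pol
    refine (norm_sum_le _ _).trans ?_
    simp [Pool.Agent.H728R2.BL.e_basic.2.2.1]
  have hPc : Continuous (pol A) := by
    unfold pol
    refine continuous_finsetSum _ fun a _ => ?_
    exact Pool.Agent.H728R2.BL.e_basic.2.2.2.2.1.comp (by fun_prop)
  -- the ratio
  set y : ℝ → ℝ := fun x => 1 - ‖pol A x‖ ^ 2 / B with hy
  have hyc : Continuous y := by
    rw [hy]; fun_prop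
  have hy0 : ∀ x, 0 ≤ y x := by
    intro x
    have h1 : ‖pol A x‖ ^ 2 ≤ B := by
      rw [hB]; exact pow_le_pow_left₀ (norm_nonneg _) (hPle x) 2
    have : ‖pol A x‖ ^ 2 / B ≤ 1 := (div_le_one hBpos).2 h1
    simp only [hy]; linarith
  have hy1 : ∀ x, y x ≤ 1 := by
    intro x
    have : 0 ≤ ‖pol A x‖ ^ 2 / B := by positivity
    simp only [hy]; linarith
  -- the polynomials
  have hex : ∀ K : ℕ, ∃ p : ℤ →₀ ℂ, (∀ n, (p n).im = 0) ∧
      ∀ x, ev p x * pol A x - 1 = -((y x : ℂ)) ^ K := by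
    intro K
    have h1 : B13_RC (fun x => ((1 / B : ℝ) : ℂ) * starRingEnd ℂ (pol A x)) :=
      B13_RC_mul (B13_RC_const _) (B13_RC_conj_pol A)
    have h2 : B13_RC (fun x => ((1 : ℝ) : ℂ) + ((-1 / B : ℝ) : ℂ) *
        (starRingEnd ℂ (pol A x) * pol A x)) :=
      B13_RC_add (B13_RC_const _) (B13_RC_mul (B13_RC_const _)
        (B13_RC_mul (B13_RC_conj_pol A) (B13_RC_pol A)))
    have h3 : B13_RC (fun x => ∑ k ∈ Finset.range K, (((1 : ℝ) : ℂ) + ((-1 / B : ℝ) : ℂ) *
        (starRingEnd ℂ (pol A x) * pol A x)) ^ k) :=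
      B13_RC_sum _ _ fun k _ => B13_RC_pow h2 k
    obtain ⟨p, hp, hpe⟩ := B13_RC_ev (B13_RC_mul h1 h3)
    refine ⟨p, hp, fun x => ?_⟩
    rw [hpe x]
    have hs : starRingEnd ℂ (pol A x) * pol A x = ((‖pol A x‖ ^ 2 : ℝ) : ℂ) := by
      rw [mul_comm, Complex.mul_conj, Complex.normSq_eq_norm_sq]
    have hyx : ((1 : ℝ) : ℂ) + ((-1 / B : ℝ) : ℂ) * (starRingEnd ℂ (pol A x) * pol A x)
        = (y x : ℂ) := by
      rw [hs, ← Complex.ofReal_mul, ← Complex.ofReal_add]
      congr 1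
      simp only [hy]
      ring
    rw [hyx]
    have hg : (1 - (y x : ℂ)) * ∑ k ∈ Finset.range K, (y x : ℂ) ^ k = 1 - (y x : ℂ) ^ K :=
      mul_neg_geom_sum _ _
    have h1y : (1 - (y x : ℂ)) = ((1 / B : ℝ) : ℂ) * (starRingEnd ℂ (pol A x) * pol A x) := by
      rw [hs, ← Complex.ofReal_mul, ← Complex.ofReal_one, ← Complex.ofReal_sub]
      congr 1
      simp only [hy]
      ring
    rw [h1y] at hg
    linear_combination hg
  -- the integrals tend to zero
  have hlim : Tendsto (fun K : ℕ => ∫ x in (0:ℝ)..1, (y x ^ K) ^ 2) atTop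
      (𝓝 (∫ x in (0:ℝ)..1, (0:ℝ))) := by
    refine intervalIntegral.tendsto_integral_filter_of_dominated_convergence (fun _ => 1)
      ?_ ?_ ?_ ?_
    · exact Eventually.of_forall fun K => ((hyc.pow K).pow 2).aestronglyMeasurable
    · refine Eventually.of_forall fun K => Eventually.of_forall fun x _ => ?_
      rw [Real.norm_eq_abs, abs_of_nonneg (by positivity)]
      have : y x ^ K ≤ 1 := pow_le_one₀ (hy0 x) (hy1 x)
      have h0 : 0 ≤ y x ^ K := pow_nonneg (hy0 x) K
      nlinarith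
    · exact intervalIntegrable_const
    · have hfin := Pool.Agent.H728R2.BL.ev_basic.2.2.2.2.2 A hA
      have hnull : volume {x : ℝ | x ∈ Set.Icc (0:ℝ) 1 ∧ pol A x = 0} = 0 := hfin.measure_zero _
      have hae : ∀ᵐ x : ℝ, x ∉ {x : ℝ | x ∈ Set.Icc (0:ℝ) 1 ∧ pol A x = 0} :=
        compl_mem_ae_iff.2 hnull
      filter_upwards [hae] with x hx hxI
      rw [uIoc_of_le zero_le_one] at hxI
      have hne : pol A x ≠ 0 := fun h0 => hx ⟨⟨hxI.1.le, hxI.2⟩, h0⟩
      have hlt : y x < 1 := by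
        have : 0 < ‖pol A x‖ ^ 2 / B := by
          have := norm_pos_iff.2 hne
          positivity
        simp only [hy]; linarith
      have := (tendsto_pow_atTop_nhds_zero_of_lt_one (hy0 x) hlt).pow 2
      simpa using this
  have hlim' : Tendsto (fun K : ℕ => ∫ x in (0:ℝ)..1, (y x ^ K) ^ 2) atTop (𝓝 0) := by
    simpa using hlim
  obtain ⟨K, hK⟩ := ((hlim'.eventually (gt_mem_nhds hε)).exists)
  obtain ⟨p, hp, hpe⟩ := hex K
  have hnorm : ∀ x, ‖ev p x * pol A x - 1‖ ^ 2 = (y x ^ K) ^ 2 := by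
    intro x
    rw [hpe x, norm_neg, ← Complex.ofReal_pow, Complex.norm_real, Real.norm_eq_abs, sq_abs]
  refine ⟨p, hp, ?_, ?_⟩
  · -- `TPpos`
    have hRCp : B13_RC (fun x => ev p x) := by
      refine ⟨p.mapRange Complex.re (by simp), fun x => ?_⟩
      unfold ev B13_evr
      rw [Finsupp.sum_mapRange_index (by intro n; simp)]
      refine Finsupp.sum_congr fun n _ => ?_
      congr 1
      exact Complex.ext (by simp) (by simp [hp n])
    have hRC : B13_RC (fun x => ev p x * pol A x + ((-1 : ℝ) : ℂ)) :=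
      B13_RC_add (B13_RC_mul hRCp (B13_RC_pol A)) (B13_RC_const _)
    obtain ⟨r, hr, hre⟩ := B13_RC_ev hRC
    have h := Pool.Agent.H728R2.BL.TP_basic.2.2.2.2.1 r hr
    have hfun : (fun x => ‖ev p x * pol A x - 1‖ ^ 2) = fun x => ‖ev r x‖ ^ 2 := by
      funext x
      rw [hre x]
      congr 2
      push_cast
      ring
    rw [hfun]
    exact h
  · calc ∫ x in (0:ℝ)..1, ‖ev p x * pol A x - 1‖ ^ 2 = ∫ x in (0:ℝ)..1, (y x ^ K) ^ 2 := by
          simp only [hnorm]
      _ ≤ ε := hK.le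

end

end Pool.Agent.H728R2.BL
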