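import Pool.Agent.H728R2.BL.Defs2
import Pool.Agent.H728R2.BL.X.B0
import Pool.Agent.H728R2.BL.X.B1
import Pool.Agent.H728R2.BL.X.B2
namespace Pool.Agent.H728R2.BL

open MeasureTheory Set Filter Topology Pool.Agent.H691R3.SL
open scoped Real BigOperators

noncomputable section

/-- splitting of an index `i : Fin (n * r)` -/
theorem B14_sum_split {A : Type} [AddCommMonoid A] (n r : ℕ) (f : Fin n → Fin r → A) :
    ∑ i : Fin (n * r), f i.divNat i.modNat = ∑ k, ∑ l, f k l := by
  rw [← Fintype.sum_prod_type' (f := f)]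
  exact Fintype.sum_equiv finProdFinEquiv.symm _ _ (fun i => rfl)

theorem B14_posn_mono {n H : ℕ} (h : ℕ) (u : Fin n → Fin H) (i j : Fin n) (hij : i < j) :
    Pool.Agent.H728R2.BL.posn h u i + h ≤ Pool.Agent.H728R2.BL.posn h u j := by
  unfold Pool.Agent.H728R2.BL.posn
  have h1 : ∑ k ∈ Finset.univ.filter (fun k => k < i), (u k : ℕ)
      ≤ ∑ k ∈ Finset.univ.filter (fun k => k < j), (u k : ℕ) := by
    apply Finset.sum_le_sum_of_subset
    intro k hk
    simp only [Finset.mem_filter, Finset.mem_univ, true_and] at hk ⊢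
    exact lt_trans hk hij
  have h2 : ((i : ℕ) + 1) * h ≤ (j : ℕ) * h := Nat.mul_le_mul_right h (by exact_mod_cast hij)
  nlinarith

theorem B14_posn_top {n H : ℕ} (h : ℕ) (u : Fin n → Fin H) (i : Fin n) :
    Pool.Agent.H728R2.BL.posn h u i + h ≤ n * (h + H) := by
  unfold Pool.Agent.H728R2.BL.posn
  have h1 : ∑ k ∈ Finset.univ.filter (fun k => k < i), (u k : ℕ) ≤ n * H := by
    calc ∑ k ∈ Finset.univ.filter (fun k => k < i), (u k : ℕ)
        ≤ ∑ k : Fin n, (u k : ℕ) := by
          apply Finset.sum_le_sum_of_subset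
          exact Finset.filter_subset _ _
      _ ≤ ∑ _k : Fin n, H := Finset.sum_le_sum (fun k _ => (u k).2.le)
      _ = n * H := by simp
  have h2 : ((i : ℕ) + 1) * h ≤ n * h := Nat.mul_le_mul_right h i.2
  nlinarith

theorem B14_posn_zero {n H : ℕ} (h : ℕ) (u : Fin n → Fin H) (i : Fin n) (hi : (i : ℕ) = 0) :
    Pool.Agent.H728R2.BL.posn h u i = 0 := by
  unfold Pool.Agent.H728R2.BL.posn
  have : Finset.univ.filter (fun k : Fin n => k < i) = ∅ := by
    apply Finset.filter_eq_empty_iff.mpr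
    intro k _ hk
    have : (k : ℕ) < (i : ℕ) := hk
    omega
  rw [this, hi]
  simp

/-- B14 (uses B1, B2): linking all columns in a fixed order, `R` times, with noise -/
theorem link (L : Lev) (F : Fib L) (R H : ℕ) (hR : 2 ≤ R) (hH : Even H) (hH2 : 2 ≤ H) :
    ∃ (L' : Lev) (σ : DStep L L'), R * F.M.h ≤ L'.h ∧
      L'.mass ≤ F.M.mass * (1 + (H : ℝ) / F.M.h) ∧
      ∀ (u : L.Θ → ℝ → ℂ) (x : ℝ),
        W x * |L'.E (σ.push u) x - L.β * ∑ c, ‖u c x‖ ^ 2 * F.D c x|
          ≤ 80 / H * (L.β * ∑ c, ‖u c x‖ ^ 2 * F.D c x) := by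
  classical
  set m : ℕ := Fintype.card F.M.Θ with hm
  have hmpos : 0 < m := Fintype.card_pos
  set n : ℕ := R * m with hn
  have hn2 : 2 ≤ n := le_trans hR (Nat.le_mul_of_pos_right R hmpos)
  have hHpos : 0 < H := by omega
  have hhpos : 0 < F.M.h := F.M.hpos
  let eqv : Fin m ≃ F.M.Θ := (Fintype.equivFin F.M.Θ).symm
  let mk : Fin n → F.M.Θ := fun k => eqv (Fin.modNat (m := R) k)
  have hRr : (0 : ℝ) < R := by exact_mod_cast (by omega : 0 < R)
  have hHr : (0 : ℝ) < H := by exact_mod_cast hHpos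
  have : Nonempty (Fin H) := ⟨⟨0, hHpos⟩⟩
  let L' : Lev :=
    { Θ := Fin n → Fin H
      h := n * (F.M.h + H)
      hpos := by positivity
      β := F.M.β / (R * (H : ℝ) ^ n)
      βpos := div_pos F.M.βpos (by positivity) }
  have hcard : (Fintype.card L'.Θ : ℝ) = (H : ℝ) ^ n := by
    have : Fintype.card L'.Θ = H ^ n := by
      change Fintype.card (Fin n → Fin H) = H ^ n
      simp
    rw [this]; push_cast; rfl
  -- counting
  have hcount : ∀ c : L.Θ, (Finset.univ.filter fun k : Fin n => F.cls (mk k) = c).card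
      = R * (Finset.univ.filter fun c' => F.cls c' = c).card := by
    intro c
    have h1 : (Finset.univ.filter fun k : Fin n => F.cls (mk k) = c).card
        = ∑ k : Fin n, if F.cls (mk k) = c then 1 else 0 := by
      rw [Finset.card_filter]
    have h2 : ∑ k : Fin n, (if F.cls (mk k) = c then 1 else 0)
        = ∑ _a : Fin R, ∑ j : Fin m, if F.cls (eqv j) = c then 1 else 0 :=
      B14_sum_split R m (fun _ j => if F.cls (eqv j) = c then 1 else 0)
    have h3 : ∑ j : Fin m, (if F.cls (eqv j) = c then 1 else 0)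
        = ∑ c' : F.M.Θ, if F.cls c' = c then 1 else 0 :=
      Equiv.sum_comp eqv (fun c' => if F.cls c' = c then 1 else 0)
    rw [h1, h2, h3, Finset.sum_const, Finset.card_univ, Fintype.card_fin, Finset.card_filter,
      smul_eq_mul]
  have hcount2 : ∀ c : L.Θ, (Finset.univ.filter fun i : Fin (n * F.r) =>
      F.cls (mk i.divNat) = c).card
      = R * (Finset.univ.filter fun c' => F.cls c' = c).card * F.r := by
    intro c
    rw [← hcount c, Finset.card_filter,
      B14_sum_split n F.r (fun k _ => if F.cls (mk k) = c then 1 else 0), Finset.card_filter,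
      Finset.sum_mul]
    refine Finset.sum_congr rfl (fun k _ => ?_)
    rw [Finset.sum_const, Finset.card_univ, Fintype.card_fin, smul_eq_mul, mul_comm]
  let σ : DStep L L' :=
    { M := n * F.r
      hM := le_trans hn2 (Nat.le_mul_of_pos_right n F.hr)
      cl := fun i => F.cls (mk i.divNat)
      bal := by
        intro c
        rw [hcount2 c]
        have := F.fib c
        calc R * (Finset.univ.filter fun c' => F.cls c' = c).card * F.r * Fintype.card L.Θ
            = R * ((Finset.univ.filter fun c' => F.cls c' = c).card * Fintype.card L.Θ) * F.r := by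
              ring
          _ = R * m * F.r := by rw [this]
      pos := fun u i => Pool.Agent.H728R2.BL.posn F.M.h u i.divNat + F.Q (mk i.divNat) i.modNat
      pos0 := by
        intro u i hi
        have h1 : ((i.divNat : Fin n) : ℕ) = 0 := by
          rw [Fin.coe_divNat, hi]; simp
        have h2 : ((i.modNat : Fin F.r) : ℕ) = 0 := by
          rw [Fin.coe_modNat, hi]; simp
        rw [B14_posn_zero F.M.h u _ h1, F.Q0 _ _ h2]
      sep := by
        intro u i j hij
        exact Pool.Agent.H728R2.BL.comb_sep n F.r L.h F.M.h (fun k => Pool.Agent.H728R2.BL.posn F.M.h u k)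
          (fun k => F.Q (mk k)) (fun i j h => B14_posn_mono F.M.h u i j h)
          (fun k i j h => F.sep (mk k) i j h) (fun k i => F.top (mk k) i) i j hij
      top := by
        intro u i
        have h1 := B14_posn_top F.M.h u (i.divNat : Fin n)
        have h2 := F.top (mk i.divNat) i.modNat
        change Pool.Agent.H728R2.BL.posn F.M.h u i.divNat + F.Q (mk i.divNat) i.modNat + L.h ≤ n * (F.M.h + H)
        omega
      hβ := by
        have h1 := F.hβ
        rw [hcard]
        change F.M.β / (R * (H : ℝ) ^ n) * ((n * F.r : ℕ) : ℝ) * (H : ℝ) ^ n = _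
        rw [← h1, ← hm, hn]
        push_cast
        field_simp }
  refine ⟨L', σ, ?_, ?_, ?_⟩
  · change R * F.M.h ≤ n * (F.M.h + H)
    calc R * F.M.h ≤ n * F.M.h := Nat.mul_le_mul_right _ (Nat.le_mul_of_pos_right R hmpos)
      _ ≤ n * (F.M.h + H) := Nat.mul_le_mul_left _ (by omega)
  · apply le_of_eq
    unfold Lev.mass
    rw [hcard]
    change F.M.β / (R * (H : ℝ) ^ n) * (H : ℝ) ^ n * ((n * (F.M.h + H) : ℕ) : ℝ) = _
    have hhr : (0 : ℝ) < F.M.h := by exact_mod_cast hhpos
    rw [← hm, hn]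
    push_cast
    field_simp
  · intro u x
    -- the coefficients
    let g : Fin n → ℂ := fun k => F.qp (mk k) x * u (F.cls (mk k)) x
    have hpush : ∀ c' : Fin n → Fin H, σ.push u c' x
        = ∑ k, e (Pool.Agent.H728R2.BL.posn F.M.h c' k * x) * g k := by
      intro c'
      change ∑ i : Fin (n * F.r), e (((Pool.Agent.H728R2.BL.posn F.M.h c' i.divNat
        + F.Q (mk i.divNat) i.modNat : ℕ) : ℝ) * x) * u (F.cls (mk i.divNat)) x = _
      rw [B14_sum_split n F.r (fun k l => e (((Pool.Agent.H728R2.BL.posn F.M.h c' k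
        + F.Q (mk k) l : ℕ) : ℝ) * x) * u (F.cls (mk k)) x)]
      refine Finset.sum_congr rfl (fun k _ => ?_)
      change _ = e (Pool.Agent.H728R2.BL.posn F.M.h c' k * x) * ((∑ l, e (F.Q (mk k) l * x)) * u (F.cls (mk k)) x)
      rw [Finset.sum_mul, Finset.mul_sum]
      refine Finset.sum_congr rfl (fun l _ => ?_)
      rw [Nat.cast_add, add_mul, Pool.Agent.H728R2.BL.e_basic.1]
      ring
    have hE : L'.E (σ.push u) x = F.M.β / R *
        ((∑ c' : Fin n → Fin H, ‖∑ k, e (Pool.Agent.H728R2.BL.posn F.M.h c' k * x) * g k‖ ^ 2) / (H : ℝ) ^ n) := by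
      change F.M.β / (R * (H : ℝ) ^ n) * ∑ c' : Fin n → Fin H, ‖σ.push u c' x‖ ^ 2 = _
      simp only [hpush]
      rw [div_mul_eq_mul_div, div_mul_div_comm]
    have hg : F.M.β / R * ∑ k, ‖g k‖ ^ 2 = L.β * ∑ c, ‖u c x‖ ^ 2 * F.D c x := by
      have h1 : ∑ k : Fin n, ‖g k‖ ^ 2
          = ∑ _a : Fin R, ∑ j : Fin m, ‖F.qp (eqv j) x * u (F.cls (eqv j)) x‖ ^ 2 :=
        B14_sum_split R m (fun _ j => ‖F.qp (eqv j) x * u (F.cls (eqv j)) x‖ ^ 2)
      have h2 : ∑ j : Fin m, ‖F.qp (eqv j) x * u (F.cls (eqv j)) x‖ ^ 2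
          = ∑ c' : F.M.Θ, ‖F.qp c' x * u (F.cls c') x‖ ^ 2 :=
        Equiv.sum_comp eqv (fun c' => ‖F.qp c' x * u (F.cls c') x‖ ^ 2)
      have h3 : ∑ c' : F.M.Θ, ‖F.qp c' x * u (F.cls c') x‖ ^ 2
          = ∑ c : L.Θ, ‖u c x‖ ^ 2 * ∑ c' ∈ Finset.univ.filter (fun c' => F.cls c' = c),
            ‖F.qp c' x‖ ^ 2 := by
        rw [← Finset.sum_fiberwise (s := (Finset.univ : Finset F.M.Θ)) (g := F.cls)]
        refine Finset.sum_congr rfl (fun c _ => ?_)
        rw [Finset.mul_sum]
        refine Finset.sum_congr rfl (fun c' hc' => ?_)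
        rw [Finset.mem_filter] at hc'
        rw [hc'.2, norm_mul, mul_pow, mul_comm]
      rw [h1, h2, h3, Finset.sum_const, Finset.card_univ, Fintype.card_fin, nsmul_eq_mul,
        Finset.mul_sum, Finset.mul_sum, Finset.mul_sum]
      refine Finset.sum_congr rfl (fun c _ => ?_)
      unfold Fib.D
      have hL : L.β ≠ 0 := ne_of_gt L.βpos
      field_simp
    have hnoise := Pool.Agent.H728R2.BL.noise n F.M.h H hH hH2 g x
    have hc0 : 0 ≤ F.M.β / R := div_nonneg F.M.βpos.le hRr.le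
    rw [hE, ← hg, ← mul_sub, abs_mul, abs_of_nonneg hc0]
    calc W x * (F.M.β / R * |(∑ c' : Fin n → Fin H,
            ‖∑ k, e (Pool.Agent.H728R2.BL.posn F.M.h c' k * x) * g k‖ ^ 2) / (H : ℝ) ^ n - ∑ k, ‖g k‖ ^ 2|)
        = F.M.β / R * (W x * |(∑ c' : Fin n → Fin H,
            ‖∑ k, e (Pool.Agent.H728R2.BL.posn F.M.h c' k * x) * g k‖ ^ 2) / (H : ℝ) ^ n - ∑ k, ‖g k‖ ^ 2|) := by
          ring
      _ ≤ F.M.β / R * (80 / H * ∑ k, ‖g k‖ ^ 2) := mul_le_mul_of_nonneg_left hnoise hc0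
      _ = 80 / H * (F.M.β / R * ∑ k, ‖g k‖ ^ 2) := by ring

end

end Pool.Agent.H728R2.BL
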