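import Pool.Agent.H728R2.BL.Defs2
import Pool.Agent.H728R2.BL.X.B0
import Pool.Agent.H728R2.BL.X.B0C
import Pool.Agent.H728R2.BL.X.B0D
import Pool.Agent.H728R2.BL.X.B0E
import Pool.Agent.H728R2.BL.X.B11
import Pool.Agent.H728R2.BL.X.B12
import Pool.Agent.H728R2.BL.X.B13
import Pool.Agent.H728R2.BL.X.B14
import Pool.Agent.H728R2.BL.X.B3
/-!
# B15: one phase of the construction
-/

namespace Pool.Agent.H728R2.BL

open MeasureTheory Set Filter Topology Pool.Agent.H691R3.SL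
open scoped Real BigOperators

noncomputable section

theorem B15_sum {ι : Type} (s : Finset ι) (t : ι → ℝ → ℝ) (h : ∀ c ∈ s, TPpos (t c)) :
    TPpos (fun x => ∑ c ∈ s, t c x) := by
  classical
  obtain ⟨tpm, tpa, tps, tpp, tpe, tppol, tp1⟩ := Pool.Agent.H728R2.BL.TP_basic
  induction s using Finset.induction_on with
  | empty => simpa using tps _ 0 le_rfl tp1
  | insert a s ha ih =>
    simp only [Finset.sum_insert ha]
    exact tpa _ _ (h a (Finset.mem_insert_self a s))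
      (ih fun c hc => h c (Finset.mem_insert_of_mem hc))

theorem B15_cont {L L' : Lev} (σ : DStep L L') (u : L.Θ → ℝ → ℂ) (hu : ∀ c, Continuous (u c)) :
    Continuous (fun x => L'.E (σ.push u) x) := by
  obtain ⟨-, -, -, -, ec, -, -⟩ := Pool.Agent.H728R2.BL.e_basic
  unfold Lev.E DStep.push
  refine continuous_const.mul (continuous_finset_sum _ fun c' _ => ?_)
  refine Continuous.pow (Continuous.norm (continuous_finset_sum _ fun i _ => ?_)) 2
  exact (ec.comp (continuous_const.mul continuous_id)).mul (hu _)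

theorem B15_pol (A : Finset ℕ) : Continuous (pol A) ∧ ∀ x, ‖pol A x‖ ≤ A.card := by
  obtain ⟨-, -, en, -, ec, -, -⟩ := Pool.Agent.H728R2.BL.e_basic
  constructor
  · unfold pol
    exact continuous_finset_sum _ fun a _ => ec.comp (continuous_const.mul continuous_id)
  · intro x
    unfold pol
    refine (norm_sum_le _ _).trans ?_
    simp [en]

theorem B15_add (f g : ℝ → ℝ) (hf : Continuous f) (hg : Continuous g) (a b : ℝ) :
    ∫ x in (0:ℝ)..1, (a * f x + b * g x) =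
      a * (∫ x in (0:ℝ)..1, f x) + b * ∫ x in (0:ℝ)..1, g x := by
  rw [intervalIntegral.integral_add ((hf.const_mul a).intervalIntegrable 0 1)
    ((hg.const_mul b).intervalIntegrable 0 1), intervalIntegral.integral_const_mul,
    intervalIntegral.integral_const_mul]

theorem B15_mono (f g : ℝ → ℝ) (hf : Continuous f) (hg : Continuous g) (h : ∀ x, f x ≤ g x) :
    ∫ x in (0:ℝ)..1, f x ≤ ∫ x in (0:ℝ)..1, g x :=
  intervalIntegral.integral_mono zero_le_one (hf.intervalIntegrable _ _)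
    (hg.intervalIntegrable _ _) h

/-- pointwise estimate of the decoding error -/
theorem B15_point {ι : Type} [Fintype ι] [DecidableEq ι] (c : ι) (β Bq Wx P : ℝ) (hβ : 0 < β)
    (hW : 0 ≤ Wx) (hBq : 0 ≤ Bq) (q : ℂ) (hq : ‖q‖ ≤ Bq) (f : ι → ℂ) (D : ι → ℝ)
    (hD : ∀ d, 0 ≤ D d) :
    Wx * (β * ∑ d, ‖q * (P : ℂ) * f d - (if d = c then 1 else 0)‖ ^ 2 * D d) ≤
      2 * Bq ^ 2 * ((1 - P) ^ 2 * (Wx * (β * ‖f c‖ ^ 2) * D c) +
        P ^ 2 * ∑ d ∈ ({c} : Finset ι)ᶜ, Wx * (β * ‖f d‖ ^ 2) * D d) +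
      2 * β * (Wx * ‖q * f c - 1‖ ^ 2 * D c) := by
  have hqq : ‖q‖ ^ 2 ≤ Bq ^ 2 := pow_le_pow_left₀ (norm_nonneg _) hq 2
  rw [Fintype.sum_eq_add_sum_compl c]
  rw [if_pos rfl]
  have h1 : ‖q * (P : ℂ) * f c - 1‖ ^ 2 ≤
      2 * (Bq ^ 2 * (1 - P) ^ 2 * ‖f c‖ ^ 2) + 2 * ‖q * f c - 1‖ ^ 2 := by
    have e1 : q * (P : ℂ) * f c - 1 = q * f c * ((P : ℂ) - 1) + (q * f c - 1) := by ring
    have e2 : ‖q * (P : ℂ) * f c - 1‖ ≤ ‖q * f c * ((P : ℂ) - 1)‖ + ‖q * f c - 1‖ := by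
      rw [e1]; exact norm_add_le _ _
    have e3 : ‖q * f c * ((P : ℂ) - 1)‖ ^ 2 = ‖q‖ ^ 2 * ‖f c‖ ^ 2 * (1 - P) ^ 2 := by
      rw [norm_mul, norm_mul]
      have : ‖((P : ℂ) - 1)‖ = |P - 1| := by
        rw [← Complex.ofReal_one, ← Complex.ofReal_sub, Complex.norm_real, Real.norm_eq_abs]
      rw [this, mul_pow, mul_pow, sq_abs]
      ring
    have e4 : ‖q * (P : ℂ) * f c - 1‖ ^ 2 ≤
        2 * ‖q * f c * ((P : ℂ) - 1)‖ ^ 2 + 2 * ‖q * f c - 1‖ ^ 2 := by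
      have := norm_nonneg (q * (P : ℂ) * f c - 1)
      nlinarith [sq_nonneg (‖q * f c * ((P : ℂ) - 1)‖ - ‖q * f c - 1‖)]
    rw [e3] at e4
    have e5 : ‖q‖ ^ 2 * ‖f c‖ ^ 2 * (1 - P) ^ 2 ≤ Bq ^ 2 * (1 - P) ^ 2 * ‖f c‖ ^ 2 := by
      have : 0 ≤ ‖f c‖ ^ 2 * (1 - P) ^ 2 := by positivity
      nlinarith
    linarith
  have h2 : ∀ d ∈ ({c} : Finset ι)ᶜ,
      ‖q * (P : ℂ) * f d - (if d = c then 1 else 0)‖ ^ 2 * D d ≤
        Bq ^ 2 * (P ^ 2 * (‖f d‖ ^ 2 * D d)) := by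
    intro d hd
    have hd' : d ≠ c := by simpa using hd
    rw [if_neg hd', sub_zero, norm_mul, norm_mul, Complex.norm_real, Real.norm_eq_abs, mul_pow,
      mul_pow, sq_abs]
    have : 0 ≤ P ^ 2 * (‖f d‖ ^ 2 * D d) := by
      have := hD d
      positivity
    nlinarith
  have h3 : ∑ d ∈ ({c} : Finset ι)ᶜ, ‖q * (P : ℂ) * f d - (if d = c then 1 else 0)‖ ^ 2 * D d ≤
      ∑ d ∈ ({c} : Finset ι)ᶜ, Bq ^ 2 * (P ^ 2 * (‖f d‖ ^ 2 * D d)) := Finset.sum_le_sum h2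
  have h4 : ∑ d ∈ ({c} : Finset ι)ᶜ, Bq ^ 2 * (P ^ 2 * (‖f d‖ ^ 2 * D d)) =
      Bq ^ 2 * (P ^ 2 * ∑ d ∈ ({c} : Finset ι)ᶜ, ‖f d‖ ^ 2 * D d) := by
    rw [Finset.mul_sum, Finset.mul_sum]
  have h5 : ∑ d ∈ ({c} : Finset ι)ᶜ, Wx * (β * ‖f d‖ ^ 2) * D d =
      Wx * (β * ∑ d ∈ ({c} : Finset ι)ᶜ, ‖f d‖ ^ 2 * D d) := by
    rw [Finset.mul_sum, Finset.mul_sum]
    exact Finset.sum_congr rfl fun d _ => by ring
  rw [h5]
  rw [h4] at h3
  set T := ∑ d ∈ ({c} : Finset ι)ᶜ, ‖f d‖ ^ 2 * D d with hT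
  have hT0 : 0 ≤ T := Finset.sum_nonneg fun d _ => by
    have := hD d
    positivity
  have hWβ : 0 ≤ Wx * β := by positivity
  have h6 : ‖q * (P : ℂ) * f c - 1‖ ^ 2 * D c ≤
      (2 * (Bq ^ 2 * (1 - P) ^ 2 * ‖f c‖ ^ 2) + 2 * ‖q * f c - 1‖ ^ 2) * D c :=
    mul_le_mul_of_nonneg_right h1 (hD c)
  have h7 : 0 ≤ Bq ^ 2 * (P ^ 2 * T) := by positivity
  calc Wx * (β * (‖q * (P : ℂ) * f c - 1‖ ^ 2 * D c +
        ∑ d ∈ ({c} : Finset ι)ᶜ, ‖q * (P : ℂ) * f d - (if d = c then 1 else 0)‖ ^ 2 * D d))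
      = Wx * β * (‖q * (P : ℂ) * f c - 1‖ ^ 2 * D c +
        ∑ d ∈ ({c} : Finset ι)ᶜ, ‖q * (P : ℂ) * f d - (if d = c then 1 else 0)‖ ^ 2 * D d) := by
        ring
    _ ≤ Wx * β * ((2 * (Bq ^ 2 * (1 - P) ^ 2 * ‖f c‖ ^ 2) + 2 * ‖q * f c - 1‖ ^ 2) * D c +
        2 * (Bq ^ 2 * (P ^ 2 * T))) := by
        refine mul_le_mul_of_nonneg_left ?_ hWβ
        linarith
    _ = _ := by ring

theorem B15_bigNat (a : ℝ) (N0 : ℕ) : ∃ n : ℕ, a < n ∧ N0 ≤ n := by
  obtain ⟨n, hn⟩ := exists_nat_gt a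
  exact ⟨max n N0, lt_of_lt_of_le hn (by exact_mod_cast le_max_left _ _), le_max_right _ _⟩

/-- B15 (uses B0, B3, B11-B14): one phase -/
theorem phase (L : Lev) (A : L.Θ → Finset ℕ) (hA : ∀ c, ∀ a ∈ A c, a < L.h)
    (hne : ∀ c, (A c).Nonempty) (hL : 4 ≤ L.h) (ε : ℝ) (hε : 0 < ε) :
    ∃ (L' : Lev) (σ : DStep L L'), 2 * L.h ≤ L'.h ∧
      L'.mass ≤ L.mass * (1 + 2 / Real.sqrt L.h) + ε ∧
      (∃ gg : ℝ → ℝ, (∀ x, 0 ≤ gg x) ∧ Continuous gg ∧ (∫ x in (0:ℝ)..1, gg x) ≤ ε ∧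
        ∀ x, W x * |L'.E (fun c' => pol (σ.pushS A c')) x - L.E (fun c => pol (A c)) x|
          ≤ 80 / Real.sqrt L.h * L.E (fun c => pol (A c)) x + gg x) ∧
      ∀ c : L.Θ, ∃ (p : ℤ →₀ ℂ) (m : ℕ), (∀ n ∈ p.support, |n| ≤ m) ∧ decErr σ A c p m ≤ ε := by
  obtain ⟨tpm, tpa, tps, tpp, tpe, tppol, tp1⟩ := Pool.Agent.H728R2.BL.TP_basic
  obtain ⟨hWeq, hW0, hW4, hWc, hWT⟩ := Pool.Agent.H728R2.BL.W_basic
  obtain ⟨evadd, evmul, evtp, evl1, evc, evz⟩ := Pool.Agent.H728R2.BL.ev_basic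
  have hβ := L.βpos
  have hΘ : (Finset.univ : Finset L.Θ).Nonempty := Finset.univ_nonempty
  have l1nn : ∀ p : ℤ →₀ ℂ, 0 ≤ l1 p := fun p => (norm_nonneg _).trans (evl1 p 0)
  -- the weights
  let w : L.Θ → ℝ → ℝ := fun c x => L.β * ‖pol (A c) x‖ ^ 2
  have hw : ∀ c, TPpos (w c) := fun c => tps _ _ hβ.le (tppol (A c))
  let M : ℝ := L.β * ∑ c, ((A c).card : ℝ)
  have hM0 : 0 < M := mul_pos hβ (Finset.sum_pos
    (fun c _ => by exact_mod_cast (hne c).card_pos) hΘ)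
  have hMeq : ∀ F : Fib L, ∫ x in (0:ℝ)..1, ∑ c, w c x * F.D c x = M := by
    intro F
    have e1 : ∀ c, ∫ x in (0:ℝ)..1, w c x * F.D c x = L.β * (A c).card := by
      intro c
      have : ∀ x, w c x * F.D c x = L.β * (‖pol (A c) x‖ ^ 2 * F.D c x) := fun x => by
        simp only [w]; ring
      simp only [this]
      rw [intervalIntegral.integral_const_mul, (Pool.Agent.H728R2.BL.fib_facts F c).2.2 (A c) (hA c)]
    rw [intervalIntegral.integral_finset_sum]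
    · simp only [e1, M, Finset.mul_sum]
    · intro c _
      exact ((tpp _ (hw c)).1.mul (tpp _ (Pool.Agent.H728R2.BL.fib_facts F c).1).1).intervalIntegrable _ _
  have hM : ∀ h D κ, Reach L h D κ → ∫ x in (0:ℝ)..1, ∑ c, w c x * D c x ≤ M := by
    rintro h D κ ⟨F, -, hD, -⟩
    have hDF : D = F.D := by
      funext c x
      exact (hD c x).symm
    rw [hDF, hMeq F]
  -- approximate inverses
  obtain ⟨εi, hεi, hεi2⟩ : ∃ εi : ℝ, 0 < εi ∧ 2 * L.β * (44 * εi) ≤ ε / 8 := by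
    refine ⟨ε / (704 * (L.β + 1)), by positivity, ?_⟩
    rw [show 2 * L.β * (44 * (ε / (704 * (L.β + 1)))) = ε / 8 * (L.β / (L.β + 1)) by
      field_simp; ring]
    have : L.β / (L.β + 1) ≤ 1 := by
      rw [div_le_one (by positivity)]; linarith
    nlinarith
  choose q hqim hqT hqI using fun c => Pool.Agent.H728R2.BL.inverse (A c) (hne c) εi hεi
  let g : L.Θ → ℝ → ℝ := fun c x => ‖ev (q c) x * pol (A c) x - 1‖ ^ 2
  obtain ⟨Bq, hBq0, hBq⟩ : ∃ Bq : ℝ, 0 ≤ Bq ∧ ∀ c x, ‖ev (q c) x‖ ≤ Bq := by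
    refine ⟨∑ c, l1 (q c), Finset.sum_nonneg fun c _ => l1nn _, fun c x => ?_⟩
    exact (evl1 _ _).trans (Finset.single_le_sum (f := fun c => l1 (q c))
      (fun d _ => l1nn _) (Finset.mem_univ c))
  let CL : ℝ := L.β * ∑ d, (2 * Bq * (A d).card + 1) ^ 2
  have hCL0 : 0 ≤ CL := mul_nonneg hβ.le (Finset.sum_nonneg fun d _ => sq_nonneg _)
  -- the noise
  obtain ⟨H, hHe, hH2, hH⟩ : ∃ H : ℕ, Even H ∧ 2 ≤ H ∧ 80 / (H : ℝ) * (CL + M) ≤ ε / 8 := by
    obtain ⟨n, hn, hn2⟩ := B15_bigNat (80 * (CL + M) * 8 / ε) 1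
    refine ⟨2 * n, even_two_mul n, by omega, ?_⟩
    have hn0 : (0:ℝ) < n := by exact_mod_cast hn2
    rw [div_lt_iff₀ hε] at hn
    push_cast
    rw [div_mul_eq_mul_div, div_le_iff₀ (by positivity)]
    nlinarith
  have hHpos : (0:ℝ) < H := by exact_mod_cast (by omega : 0 < H)
  -- parameter of the decoding part
  obtain ⟨εm, hεm, hεm1, hεm2⟩ : ∃ εm : ℝ, 0 < εm ∧ εm ≤ ε / 8 ∧
      2 * Bq ^ 2 * (2 * εm) + 2 * L.β * εm ≤ ε / 8 := by
    refine ⟨ε / (8 * (1 + 4 * Bq ^ 2 + 2 * L.β)), by positivity, ?_, ?_⟩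
    · refine div_le_div_of_nonneg_left hε.le (by norm_num) ?_
      nlinarith [sq_nonneg Bq]
    · rw [show 2 * Bq ^ 2 * (2 * (ε / (8 * (1 + 4 * Bq ^ 2 + 2 * L.β)))) +
        2 * L.β * (ε / (8 * (1 + 4 * Bq ^ 2 + 2 * L.β))) =
        ε / 8 * ((4 * Bq ^ 2 + 2 * L.β) / (1 + 4 * Bq ^ 2 + 2 * L.β)) by field_simp; ring]
      have : (4 * Bq ^ 2 + 2 * L.β) / (1 + 4 * Bq ^ 2 + 2 * L.β) ≤ 1 := by
        rw [div_le_one (by positivity)]; linarith
      nlinarith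
  let m1 : ℝ := L.mass * (1 + 2 / Real.sqrt L.h) + εm
  have hmass0 : 0 ≤ L.mass := by unfold Lev.mass; positivity
  have hm1 : 0 ≤ m1 := by positivity
  obtain ⟨H0, hH0, hH0L⟩ := B15_bigNat (m1 * H * 8 / ε) L.h
  obtain ⟨h', D', κ', hh', ⟨F, hFh, hFD, hFκ⟩, hκ, ⟨gg', hgg0, hggc, hggI, hgg⟩, hpot, hgI⟩ :=
    Pool.Agent.H728R2.BL.macroStep L hL w g hw hqT M hM0 hM εm hεm H0
  have hDF : D' = F.D := by
    funext c x
    exact (hFD c x).symm
  subst hDF
  subst hFh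
  have hDT : ∀ c, TPpos (F.D c) := fun c => (Pool.Agent.H728R2.BL.fib_facts F c).1
  have hD0 : ∀ c x, 0 ≤ F.D c x := fun c x => (hDT c).1 x
  have hFpos : 0 < F.M.h := F.M.hpos
  have hFposR : (0:ℝ) < F.M.h := by exact_mod_cast hFpos
  have hFH0 : (H0 : ℝ) ≤ F.M.h := by exact_mod_cast hh'
  -- the decoders
  have hdec : ∀ c, ∃ (m : ℕ) (a : ℕ → ℝ), (∀ x, |tp m a x| ≤ 2) ∧
      ∫ x in (0:ℝ)..1, ((1 - tp m a x) ^ 2 * (W x * w c x * F.D c x) +
        (tp m a x) ^ 2 * ∑ d ∈ ({c} : Finset L.Θ)ᶜ, W x * w d x * F.D d x) ≤ 2 * εm := by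
    intro c
    refine Pool.Agent.H728R2.BL.witness _ _ (tpm _ _ (tpm _ _ hWT (hw c)) (hDT c))
      (B15_sum _ (fun d x => W x * w d x * F.D d x)
        fun d _ => tpm _ _ (tpm _ _ hWT (hw d)) (hDT d)) _ ?_
    have h1 := hpot c
    unfold Pot at h1
    simp only [Finset.sum_singleton] at h1
    linarith
  choose mm aa hP2 hPI using hdec
  have hpc : ∀ c, ∃ p : ℤ →₀ ℂ, ∀ x, ev p x = ev (q c) x * (tp (mm c) (aa c) x : ℂ) := by
    intro c
    obtain ⟨r, hr⟩ := evtp (aa c) (mm c)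
    obtain ⟨p, hp⟩ := evmul (q c) r
    exact ⟨p, fun x => by rw [hp, hr]⟩
  choose p hp using hpc
  let mp : L.Θ → ℕ := fun c => (p c).support.sup Int.natAbs
  have hmp : ∀ c, ∀ n ∈ (p c).support, |n| ≤ mp c := by
    intro c n hn
    have : n.natAbs ≤ mp c := Finset.le_sup (f := Int.natAbs) hn
    rw [Int.abs_eq_natAbs]
    exact_mod_cast this
  let ed : L.Θ → ℝ := fun c => 4 * (l1 (p c) + 1) ^ 2 * (2 * mp c + 1)
  have hed0 : ∀ c, 0 ≤ ed c := fun c => by positivity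
  obtain ⟨R, hR, hR2⟩ := B15_bigNat ((∑ c, ed c) * 8 / ε) 2
  obtain ⟨L', σ, hL'h, hL'm, hlink⟩ := Pool.Agent.H728R2.BL.link L F R H hR2 hHe hH2
  have hRF : (R : ℝ) * F.M.h ≤ L'.h := by exact_mod_cast hL'h
  refine ⟨L', σ, ?_, ?_, ?_, ?_⟩
  · -- height
    have : L.h ≤ F.M.h := hH0L.trans hh'
    nlinarith
  · -- mass
    have hFm : F.M.mass = κ' * F.M.h := by
      rw [← hFκ, Lev.mass]
    have h1 : F.M.mass ≤ m1 := by rw [hFm]; exact hκ
    have h2 : F.M.mass * ((H : ℝ) / F.M.h) ≤ ε / 8 := by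
      have h3 : F.M.mass * ((H : ℝ) / F.M.h) ≤ m1 * ((H : ℝ) / F.M.h) :=
        mul_le_mul_of_nonneg_right h1 (by positivity)
      refine h3.trans ?_
      rw [mul_div_assoc', div_le_iff₀ hFposR]
      rw [div_lt_iff₀ hε] at hH0
      nlinarith
    have h4 : F.M.mass * (1 + (H : ℝ) / F.M.h) = F.M.mass + F.M.mass * ((H : ℝ) / F.M.h) := by
      ring
    rw [h4] at hL'm
    have h5 : m1 = L.mass * (1 + 2 / Real.sqrt L.h) + εm := rfl
    linarith
  · -- density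
    have hpushE : ∀ x, L'.E (fun c' => pol (σ.pushS A c')) x =
        L'.E (σ.push (fun c => pol (A c))) x := by
      intro x
      unfold Lev.E
      simp only [(Pool.Agent.H728R2.BL.push_basic σ A hA hne).1]
    have hLE : ∀ x, L.E (fun c => pol (A c)) x = ∑ c, w c x := by
      intro x
      unfold Lev.E
      simp only [w, Finset.mul_sum]
    have hS : ∀ x, L.β * ∑ c, ‖pol (A c) x‖ ^ 2 * F.D c x = ∑ c, w c x * F.D c x := by
      intro x
      simp only [w, Finset.mul_sum]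
      exact Finset.sum_congr rfl fun c _ => by ring
    have hwDc : Continuous (fun x => ∑ c, w c x * F.D c x) :=
      continuous_finset_sum _ fun c _ => (tpp _ (hw c)).1.mul (tpp _ (hDT c)).1
    refine ⟨fun x => gg' x + 80 / H * ∑ c, w c x * F.D c x, fun x => ?_, ?_, ?_, fun x => ?_⟩
    · have h1 : 0 ≤ ∑ c, w c x * F.D c x :=
        Finset.sum_nonneg fun c _ => mul_nonneg ((hw c).1 x) (hD0 c x)
      have h2 := hgg0 x
      positivity
    · exact hggc.add (continuous_const.mul hwDc)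
    · have h0 := B15_add gg' (fun x => ∑ c, w c x * F.D c x) hggc hwDc 1 (80 / H)
      simp only [one_mul] at h0
      rw [h0, hMeq F]
      have h1 : 80 / (H : ℝ) * M ≤ 80 / (H : ℝ) * (CL + M) :=
        mul_le_mul_of_nonneg_left (by linarith) (by positivity)
      linarith
    · rw [hpushE, hLE]
      have h1 := hlink (fun c => pol (A c)) x
      rw [hS] at h1
      have h2 := hgg x
      have h3 : |L'.E (σ.push fun c => pol (A c)) x - ∑ c, w c x| ≤
          |L'.E (σ.push fun c => pol (A c)) x - ∑ c, w c x * F.D c x| +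
            |∑ c, w c x * F.D c x - ∑ c, w c x| := abs_sub_le _ _ _
      have h4 := mul_le_mul_of_nonneg_left h3 (hW0 x)
      rw [mul_add] at h4
      linarith
  · -- decoding
    intro c
    refine ⟨p c, mp c, hmp c, ?_⟩
    unfold decErr
    -- the edge term
    have hedge : 4 * (l1 (p c) + 1) ^ 2 * (2 * mp c + 1) / (L'.h : ℝ) ≤ ε / 8 := by
      have hL'pos : (0:ℝ) < L'.h := by exact_mod_cast L'.hpos
      rw [div_le_iff₀ hL'pos]
      have h1 : ed c ≤ ∑ c, ed c := Finset.single_le_sum (fun d _ => hed0 d) (Finset.mem_univ c)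
      rw [div_lt_iff₀ hε] at hR
      have h2 : (R : ℝ) ≤ L'.h := by
        refine le_trans ?_ hRF
        have : (1:ℝ) ≤ F.M.h := by exact_mod_cast hFpos
        have hR0 : (0:ℝ) ≤ R := by positivity
        nlinarith
      have h3 : ed c = 4 * (l1 (p c) + 1) ^ 2 * (2 * mp c + 1) := rfl
      rw [← h3]
      nlinarith
    -- the main term
    let u : L.Θ → ℝ → ℂ := fun d x => ev (q c) x * (tp (mm c) (aa c) x : ℂ) * pol (A d) x -
      (if d = c then 1 else 0)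
    have hu : (fun c' x => ev (p c) x * σ.push (fun d => pol (A d)) c' x -
        σ.push (fun d _ => if d = c then 1 else 0) c' x) = σ.push u := by
      funext c' x
      unfold DStep.push
      rw [Finset.mul_sum, ← Finset.sum_sub_distrib]
      refine Finset.sum_congr rfl fun i _ => ?_
      simp only [u, hp]
      ring
    rw [hu]
    have tpc : Continuous (fun x => tp (mm c) (aa c) x) := by
      unfold tp cs
      fun_prop
    have huc : ∀ d, Continuous (u d) := by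
      intro d
      refine Continuous.sub (((evc (q c)).mul (Complex.continuous_ofReal.comp tpc)).mul
        (B15_pol (A d)).1) continuous_const
    let S : ℝ → ℝ := fun x => L.β * ∑ d, ‖u d x‖ ^ 2 * F.D d x
    have hSc : Continuous S := continuous_const.mul (continuous_finset_sum _ fun d _ =>
      ((huc d).norm.pow 2).mul (tpp _ (hDT d)).1)
    have hS0 : ∀ x, 0 ≤ S x := fun x => mul_nonneg hβ.le (Finset.sum_nonneg fun d _ =>
      mul_nonneg (sq_nonneg _) (hD0 d x))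
    have h1 : ∀ x, W x * L'.E (σ.push u) x ≤ W x * S x + 80 / H * S x := by
      intro x
      have h2 := hlink u x
      have h3 : L'.E (σ.push u) x - S x ≤ |L'.E (σ.push u) x - S x| := le_abs_self _
      have h4 := mul_le_mul_of_nonneg_left h3 (hW0 x)
      have h5 : W x * |L'.E (σ.push u) x - S x| ≤ 80 / H * S x := h2
      nlinarith
    have h2 : ∀ x, W x * S x ≤ 2 * Bq ^ 2 * ((1 - tp (mm c) (aa c) x) ^ 2 *
        (W x * w c x * F.D c x) + (tp (mm c) (aa c) x) ^ 2 *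
          ∑ d ∈ ({c} : Finset L.Θ)ᶜ, W x * w d x * F.D d x) +
        2 * L.β * (W x * g c x * F.D c x) := fun x =>
      B15_point c L.β Bq (W x) (tp (mm c) (aa c) x) hβ (hW0 x) hBq0 (ev (q c) x) (hBq c x)
        (fun d => pol (A d) x) (fun d => F.D d x) (fun d => hD0 d x)
    have h3 : ∀ x, S x ≤ L.β * ∑ d, (2 * Bq * (A d).card + 1) ^ 2 * F.D d x := by
      intro x
      refine mul_le_mul_of_nonneg_left (Finset.sum_le_sum fun d _ =>
        mul_le_mul_of_nonneg_right ?_ (hD0 d x)) hβ.le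
      refine pow_le_pow_left₀ (norm_nonneg _) ?_ 2
      have e1 : ‖u d x‖ ≤ ‖ev (q c) x * (tp (mm c) (aa c) x : ℂ) * pol (A d) x‖ + 1 := by
        refine (norm_sub_le _ _).trans (add_le_add le_rfl ?_)
        split_ifs <;> simp
      refine e1.trans (add_le_add ?_ le_rfl)
      rw [norm_mul, norm_mul, Complex.norm_real, Real.norm_eq_abs]
      have e2 := hBq c x
      have e3 := hP2 c x
      have e4 := (B15_pol (A d)).2 x
      calc ‖ev (q c) x‖ * |tp (mm c) (aa c) x| * ‖pol (A d) x‖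
          ≤ (Bq * 2) * (A d).card := by
            refine mul_le_mul (mul_le_mul e2 e3 (abs_nonneg _) hBq0) e4 (norm_nonneg _)
              (by positivity)
        _ = 2 * Bq * (A d).card := by ring
    have hmixc : Continuous (fun x => (1 - tp (mm c) (aa c) x) ^ 2 *
        (W x * w c x * F.D c x) + (tp (mm c) (aa c) x) ^ 2 *
          ∑ d ∈ ({c} : Finset L.Θ)ᶜ, W x * w d x * F.D d x) := by
      have hwc := fun d => (tpp _ (hw d)).1
      have hDc := fun d => (tpp _ (hDT d)).1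
      refine Continuous.add (((continuous_const.sub tpc).pow 2).mul
        ((hWc.mul (hwc c)).mul (hDc c))) ((tpc.pow 2).mul (continuous_finset_sum _ fun d _ =>
          (hWc.mul (hwc d)).mul (hDc d)))
    have hgc : Continuous (fun x => W x * g c x * F.D c x) :=
      (hWc.mul (tpp _ (hqT c)).1).mul (tpp _ (hDT c)).1
    have hI1 : ∫ x in (0:ℝ)..1, W x * S x ≤ ε / 8 + ε / 8 := by
      have e1 : ∫ x in (0:ℝ)..1, W x * S x ≤ 2 * Bq ^ 2 * (∫ x in (0:ℝ)..1,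
          ((1 - tp (mm c) (aa c) x) ^ 2 * (W x * w c x * F.D c x) + (tp (mm c) (aa c) x) ^ 2 *
          ∑ d ∈ ({c} : Finset L.Θ)ᶜ, W x * w d x * F.D d x)) +
          2 * L.β * ∫ x in (0:ℝ)..1, W x * g c x * F.D c x :=
        (B15_mono _ _ (hWc.mul hSc)
        ((hmixc.const_mul (2 * Bq ^ 2)).add (hgc.const_mul (2 * L.β))) h2).trans_eq
          (B15_add _ _ hmixc hgc (2 * Bq ^ 2) (2 * L.β))
      have e2 := hPI c
      have e3 := hgI c
      have e4 : ∫ x in (0:ℝ)..1, g c x ≤ εi := hqI c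
      have e5 : 2 * Bq ^ 2 * ∫ x in (0:ℝ)..1, ((1 - tp (mm c) (aa c) x) ^ 2 *
          (W x * w c x * F.D c x) + (tp (mm c) (aa c) x) ^ 2 *
          ∑ d ∈ ({c} : Finset L.Θ)ᶜ, W x * w d x * F.D d x) ≤ 2 * Bq ^ 2 * (2 * εm) :=
        mul_le_mul_of_nonneg_left e2 (by positivity)
      have e6 : 2 * L.β * ∫ x in (0:ℝ)..1, W x * g c x * F.D c x ≤
          2 * L.β * (44 * εi + εm) :=
        mul_le_mul_of_nonneg_left (by linarith) (by positivity)
      nlinarith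
    have hI2 : ∫ x in (0:ℝ)..1, S x ≤ CL := by
      have hDc : ∀ d, Continuous (fun x => (2 * Bq * (A d).card + 1) ^ 2 * F.D d x) :=
        fun d => (tpp _ (hDT d)).1.const_mul _
      have e1 : ∫ x in (0:ℝ)..1, S x ≤
          ∫ x in (0:ℝ)..1, L.β * ∑ d, (2 * Bq * (A d).card + 1) ^ 2 * F.D d x :=
        B15_mono _ _ hSc ((continuous_finset_sum _ fun d _ => hDc d).const_mul _) h3
      have e0 : ∫ x in (0:ℝ)..1, L.β * ∑ d, (2 * Bq * (A d).card + 1) ^ 2 * F.D d x =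
          L.β * ∑ d, ∫ x in (0:ℝ)..1, (2 * Bq * (A d).card + 1) ^ 2 * F.D d x := by
        rw [intervalIntegral.integral_const_mul, intervalIntegral.integral_finset_sum
          (fun d _ => (hDc d).intervalIntegrable 0 1)]
      rw [e0] at e1
      have e2 : ∀ d, ∫ x in (0:ℝ)..1, (2 * Bq * (A d).card + 1) ^ 2 * F.D d x =
          (2 * Bq * (A d).card + 1) ^ 2 := by
        intro d
        rw [intervalIntegral.integral_const_mul, (Pool.Agent.H728R2.BL.fib_facts F d).2.1, mul_one]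
      simp only [e2] at e1
      exact e1
    have hI : ∫ x in (0:ℝ)..1, W x * L'.E (σ.push u) x ≤ ε / 8 + ε / 8 + ε / 8 := by
      have e1 : ∫ x in (0:ℝ)..1, W x * L'.E (σ.push u) x ≤
          1 * (∫ x in (0:ℝ)..1, W x * S x) + 80 / H * ∫ x in (0:ℝ)..1, S x :=
        (B15_mono _ _ (hWc.mul (B15_cont σ u huc))
          (((hWc.mul hSc).const_mul 1).add (hSc.const_mul (80 / (H : ℝ)))) (fun x => by
            have := h1 x
            simp only [Pi.mul_apply, one_mul]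
            exact this)).trans_eq (B15_add _ _ (hWc.mul hSc) hSc 1 (80 / H))
      have e2 : 80 / (H : ℝ) * ∫ x in (0:ℝ)..1, S x ≤ 80 / (H : ℝ) * (CL + M) :=
        mul_le_mul_of_nonneg_left (by linarith) (by positivity)
      linarith
    have hfin := add_le_add hI hedge
    refine hfin.trans ?_
    linarith

end

end Pool.Agent.H728R2.BL
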