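import Pool.Agent.H728R2.BL.Defs2
import Pool.Agent.H728R2.BL.X.B0
import Pool.Agent.H728R2.BL.X.B0D
import Pool.Agent.H728R2.BL.X.B0E
import Pool.Agent.H728R2.BL.X.B15
/-!
# B16: the recursive construction
-/

set_option autoImplicit false

namespace Pool.Agent.H728R2.BL

open MeasureTheory Set Filter Topology Pool.Agent.H691R3.SL
open scoped Real BigOperators

noncomputable section

namespace B16

theorem pol_cont (A : Finset ℕ) : Continuous (pol A) := by
  have he : Continuous e := Pool.Agent.H728R2.BL.e_basic.2.2.2.2.1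
  unfold pol
  exact continuous_finsetSum _ (fun a _ => he.comp (continuous_const.mul continuous_id))

theorem E_cont (L : Lev) (A : L.Θ → Finset ℕ) : Continuous (L.E fun c => pol (A c)) := by
  unfold Lev.E
  exact continuous_const.mul
    (continuous_finsetSum _ (fun c _ => ((pol_cont (A c)).norm).pow 2))

theorem E_nonneg (L : Lev) (A : L.Θ → Finset ℕ) (x : ℝ) : 0 ≤ L.E (fun c => pol (A c)) x := by
  unfold Lev.E
  exact mul_nonneg L.βpos.le (Finset.sum_nonneg fun c _ => by positivity)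

theorem zero_fin (L : Lev) (A : L.Θ → Finset ℕ) (hne : ∀ c, (A c).Nonempty) :
    {x : ℝ | x ∈ Set.Icc (0:ℝ) 1 ∧ W x * L.E (fun c => pol (A c)) x ≤ 0}.Finite := by
  obtain ⟨c₀⟩ := L.ne
  have hfin := Pool.Agent.H728R2.BL.ev_basic.2.2.2.2.2 (A c₀) (hne c₀)
  refine (hfin.union ((Set.finite_singleton (0:ℝ)).union (Set.finite_singleton (1:ℝ)))).subset ?_
  rintro x ⟨hx, hle⟩
  have hW := Pool.Agent.H728R2.BL.W_basic.2.1 x
  have hE := E_nonneg L A x
  have h0 : W x * L.E (fun c => pol (A c)) x = 0 := le_antisymm hle (mul_nonneg hW hE)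
  rcases mul_eq_zero.mp h0 with h1 | h1
  · right
    rw [Pool.Agent.H728R2.BL.W_basic.1 x] at h1
    have h2 : Real.cos (2 * π * x) = 1 := by
      unfold cs at h1
      have : 2 * π * ((1 : ℤ) : ℝ) * x = 2 * π * x := by push_cast; ring
      rw [this] at h1
      linarith
    obtain ⟨n, hn⟩ := (Real.cos_eq_one_iff _).mp h2
    have h3 : (n : ℝ) = x := by
      have hp : (2 * π : ℝ) ≠ 0 := by positivity
      have : (n : ℝ) * (2 * π) = x * (2 * π) := by rw [hn]; ring
      exact mul_right_cancel₀ hp this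
    have h4 : 0 ≤ n := by
      have : (0 : ℝ) ≤ n := by rw [h3]; exact hx.1
      exact_mod_cast this
    have h5 : n ≤ 1 := by
      have : (n : ℝ) ≤ 1 := by rw [h3]; exact hx.2
      exact_mod_cast this
    have h6 : n = 0 ∨ n = 1 := by omega
    rcases h6 with h6 | h6
    · left
      rw [Set.mem_singleton_iff, ← h3, h6]
      simp
    · right
      rw [Set.mem_singleton_iff, ← h3, h6]
      simp
  · left
    refine ⟨hx, ?_⟩
    unfold Lev.E at h1
    have h2 : ∑ c, ‖pol (A c) x‖ ^ 2 = 0 := by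
      rcases mul_eq_zero.mp h1 with h3 | h3
      · exact absurd h3 L.βpos.ne'
      · exact h3
    have h3 := (Finset.sum_eq_zero_iff_of_nonneg (fun c _ => by positivity)).mp h2 c₀
      (Finset.mem_univ _)
    have h4 : ‖pol (A c₀) x‖ = 0 := by
      exact pow_eq_zero_iff (two_ne_zero) |>.mp h3
    exact norm_eq_zero.mp h4

theorem tau_exists (L : Lev) (A : L.Θ → Finset ℕ) (hne : ∀ c, (A c).Nonempty) (ε : ℝ)
    (hε : 0 < ε) : ∃ τ > 0,
    volume {x : ℝ | x ∈ Set.Icc (0:ℝ) 1 ∧ W x * L.E (fun c => pol (A c)) x ≤ τ}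
      ≤ ENNReal.ofReal ε := by
  set f : ℝ → ℝ := fun x => W x * L.E (fun c => pol (A c)) x with hf
  have hfc : Continuous f := Pool.Agent.H728R2.BL.W_basic.2.2.2.1.mul (E_cont L A)
  set S : ℕ → Set ℝ := fun n => {x | x ∈ Set.Icc (0:ℝ) 1 ∧ f x ≤ 1 / ((n : ℝ) + 1)} with hS
  have hmeas : ∀ n, MeasurableSet (S n) := fun n =>
    measurableSet_Icc.inter (measurableSet_le hfc.measurable measurable_const)
  have hanti : Antitone S := by
    intro n m hnm x hx
    refine ⟨hx.1, hx.2.trans ?_⟩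
    have : (n : ℝ) ≤ m := by exact_mod_cast hnm
    exact one_div_le_one_div_of_le (by positivity) (by linarith)
  have hinter : (⋂ n, S n) = {x : ℝ | x ∈ Set.Icc (0:ℝ) 1 ∧ f x ≤ 0} := by
    ext x
    simp only [Set.mem_iInter]
    constructor
    · intro h
      refine ⟨(h 0).1, ?_⟩
      refine le_of_forall_pos_le_add fun δ hδ => ?_
      obtain ⟨n, hn⟩ := exists_nat_one_div_lt hδ
      have := (h n).2
      linarith
    · intro h n
      refine ⟨h.1, h.2.trans ?_⟩
      positivity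
  have hzero : volume (⋂ n, S n) = 0 := by
    rw [hinter]
    exact (zero_fin L A hne).measure_zero _
  have hlim := tendsto_measure_iInter_atTop (μ := volume) (s := S)
    (fun n => (hmeas n).nullMeasurableSet) hanti
    ⟨0, ne_top_of_le_ne_top (by rw [Real.volume_Icc]; exact ENNReal.ofReal_ne_top)
      (measure_mono (fun x hx => hx.1))⟩
  rw [hzero] at hlim
  have hpos : (0 : ENNReal) < ENNReal.ofReal ε := ENNReal.ofReal_pos.mpr hε
  obtain ⟨n, hn⟩ := (hlim.eventually (gt_mem_nhds hpos)).exists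
  exact ⟨1 / ((n : ℝ) + 1), by positivity, hn.le⟩

/-- state at level `n + 1` -/
structure St (n : ℕ) where
  L : Lev
  A : L.Θ → Finset ℕ
  hA : ∀ c, ∀ a ∈ A c, a < L.h
  hne : ∀ c, (A c).Nonempty
  hL : 16 ≤ L.h
  τ : ℝ
  τpos : 0 < τ
  vol : volume {x : ℝ | x ∈ Set.Icc (0:ℝ) 1 ∧ W x * L.E (fun c => pol (A c)) x ≤ τ}
    ≤ ENNReal.ofReal ((1 / 2) ^ (n + 1))

theorem next_exists (n : ℕ) (s : St n) : ∃ (s' : St (n + 1)) (σ : DStep s.L s'.L),
    s'.A = σ.pushS s.A ∧ 2 * s.L.h ≤ s'.L.h ∧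
    s'.L.mass ≤ s.L.mass * (1 + 2 / Real.sqrt s.L.h) + (1 / 2) ^ (n + 1) ∧ s'.τ ≤ s.τ ∧
    (∃ gg : ℝ → ℝ, (∀ x, 0 ≤ gg x) ∧ Continuous gg ∧
      (∫ x in (0:ℝ)..1, gg x) ≤ (1 / 4) ^ (n + 1) * min 1 s.τ ∧
      ∀ x, W x * |s'.L.E (fun c => pol (s'.A c)) x - s.L.E (fun c => pol (s.A c)) x|
        ≤ 80 / Real.sqrt s.L.h * s.L.E (fun c => pol (s.A c)) x + gg x) ∧
    ∀ c : s.L.Θ, ∃ (p : ℤ →₀ ℂ) (m : ℕ), (∀ n ∈ p.support, |n| ≤ m) ∧
      decErr σ s.A c p m
        ≤ (1 / ((((n + 1 : ℕ) : ℝ) + 1) * s.L.h * Fintype.card s.L.Θ)) ^ 2 := by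
  have hh : (0 : ℝ) < s.L.h := by exact_mod_cast s.L.hpos
  have hc : (0 : ℝ) < Fintype.card s.L.Θ := by exact_mod_cast Fintype.card_pos
  have hτ := s.τpos
  set ε1 : ℝ := (1 / ((((n + 1 : ℕ) : ℝ) + 1) * s.L.h * Fintype.card s.L.Θ)) ^ 2 with hε1
  have hε1pos : 0 < ε1 := by positivity
  set ε : ℝ := min ε1 (min ((1 / 2) ^ (n + 1)) ((1 / 4) ^ (n + 1) * min 1 s.τ)) with hε
  have hεpos : 0 < ε := by positivity
  have hεa : ε ≤ ε1 := min_le_left _ _
  have hεb : ε ≤ (1 / 2) ^ (n + 1) := (min_le_right _ _).trans (min_le_left _ _)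
  have hεc : ε ≤ (1 / 4) ^ (n + 1) * min 1 s.τ := (min_le_right _ _).trans (min_le_right _ _)
  obtain ⟨L', σ, h1, h2, ⟨gg, g1, g2, g3, g4⟩, h3⟩ := Pool.Agent.H728R2.BL.phase s.L s.A s.hA s.hne
    (le_trans (by norm_num) s.hL) ε hεpos
  obtain ⟨p1, p2, p3, -, -⟩ := Pool.Agent.H728R2.BL.push_basic σ s.A s.hA s.hne
  obtain ⟨τ', hτ', hvol⟩ := tau_exists L' (σ.pushS s.A) p3 ((1 / 2) ^ (n + 1 + 1)) (by positivity)
  have hL' : 16 ≤ L'.h := by
    have := s.hL
    omega
  refine ⟨⟨L', σ.pushS s.A, p2, p3, hL', min s.τ τ', lt_min hτ hτ', ?_⟩, σ, rfl, h1, ?_,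
    min_le_left _ _, ⟨gg, g1, g2, g3.trans hεc, g4⟩, ?_⟩
  · refine (measure_mono ?_).trans hvol
    intro x hx
    exact ⟨hx.1, hx.2.trans (min_le_right _ _)⟩
  · exact h2.trans (add_le_add_right hεb _)
  · intro c
    obtain ⟨p, m, hp, hd⟩ := h3 c
    exact ⟨p, m, hp, hd.trans hεa⟩

/-- level `0` -/
def L0 : Lev where
  Θ := Unit
  h := 1
  hpos := one_pos
  β := 1
  βpos := one_pos

/-- level `1` -/
def L1 : Lev where
  Θ := Unit
  h := 16
  hpos := by norm_num
  β := 1 / 2
  βpos := by norm_num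

/-- the only column of level `0` -/
def c0 : L0.Θ := ()

theorem c0_eq (c : L0.Θ) : c0 = c := rfl

/-- first step -/
def σ0 : DStep L0 L1 where
  M := 2
  hM := le_refl 2
  cl := fun _ => c0
  bal := by
    intro c
    rw [Finset.filter_true_of_mem (fun i _ => c0_eq c), Finset.card_univ, Fintype.card_fin]
    rfl
  pos := fun _ i => i
  pos0 := fun _ i h => h
  sep := fun _ i j h => h
  top := fun _ i => by
    have h1 : L0.h = 1 := rfl
    have h2 : L1.h = 16 := rfl
    rw [h1, h2]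
    have := i.isLt
    omega
  hβ := by
    have h1 : Fintype.card L0.Θ = 1 := rfl
    have h2 : Fintype.card L1.Θ = 1 := rfl
    have h3 : L0.β = 1 := rfl
    have h4 : L1.β = 1 / 2 := rfl
    rw [h1, h2, h3, h4]
    norm_num

theorem dec0 (c : L0.Θ) : ∃ (p : ℤ →₀ ℂ) (m : ℕ), (∀ n ∈ p.support, |n| ≤ m) ∧
    decErr σ0 (fun _ => {0}) c p m ≤ 1 := by
  have he0 : e 0 = 1 := Pool.Agent.H728R2.BL.e_basic.2.1
  refine ⟨Finsupp.single 0 1, 0, ?_, ?_⟩
  · intro n hn
    have := Finsupp.support_single_subset hn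
    rw [Finset.mem_singleton] at this
    rw [this]
    simp
  · have hev : ∀ x, ev (Finsupp.single 0 1) x = 1 := by
      intro x
      unfold ev
      rw [Finsupp.sum_single_index (by simp)]
      simp [he0]
    have hl1 : l1 (Finsupp.single 0 1) = 1 := by
      unfold l1
      rw [Finsupp.sum_single_index (by simp)]
      simp
    have hpol : ∀ x, pol {0} x = 1 := by
      intro x
      simp [pol, he0]
    have hint : (∫ x in (0:ℝ)..1, W x * L1.E (fun c' x => ev (Finsupp.single 0 1) x *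
        σ0.push (fun d => pol ((fun _ : L0.Θ => ({0} : Finset ℕ)) d)) c' x
        - σ0.push (fun d _ => if d = c then 1 else 0) c' x) x) = 0 := by
      have : (fun x => W x * L1.E (fun c' x => ev (Finsupp.single 0 1) x *
        σ0.push (fun d => pol ((fun _ : L0.Θ => ({0} : Finset ℕ)) d)) c' x
        - σ0.push (fun d _ => if d = c then 1 else 0) c' x) x) = fun _ => 0 := by
        funext x
        have hz : ∀ c' : L1.Θ, ev (Finsupp.single 0 1) x *
            σ0.push (fun d => pol ((fun _ : L0.Θ => ({0} : Finset ℕ)) d)) c' x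
            - σ0.push (fun d _ => if d = c then 1 else 0) c' x = 0 := by
          intro c'
          rw [hev, one_mul, sub_eq_zero]
          unfold DStep.push
          refine Finset.sum_congr rfl fun i _ => ?_
          have h1 : σ0.cl i = c := rfl
          change e (σ0.pos c' i * x) * pol {0} x =
            e (σ0.pos c' i * x) * (if σ0.cl i = c then 1 else 0)
          rw [if_pos h1, hpol]
        unfold Lev.E
        simp only [hz]
        simp
      rw [this]
      simp
    unfold decErr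
    rw [hint, hl1]
    have : (L1.h : ℝ) = 16 := by
      have h : L1.h = 16 := rfl
      rw [h]
      norm_num
    rw [this]
    norm_num

theorem st1_exists : ∃ (s : St 0) (σ : DStep L0 s.L), s.A = σ.pushS (fun _ => {0}) ∧
    ∀ c : L0.Θ, ∃ (p : ℤ →₀ ℂ) (m : ℕ), (∀ n ∈ p.support, |n| ≤ m) ∧
      decErr σ (fun _ => {0}) c p m ≤ 1 := by
  obtain ⟨p1, p2, p3, -, -⟩ := Pool.Agent.H728R2.BL.push_basic σ0 (fun _ => {0})
    (by
      intro c a ha
      rw [Finset.mem_singleton] at ha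
      rw [ha]
      exact L0.hpos) (fun c => Finset.singleton_nonempty 0)
  obtain ⟨τ', hτ', hvol⟩ := tau_exists L1 (σ0.pushS (fun _ => {0})) p3 ((1 / 2) ^ (0 + 1))
    (by positivity)
  exact ⟨⟨L1, σ0.pushS (fun _ => {0}), p2, p3, le_refl 16, τ', hτ', hvol⟩, σ0, rfl, dec0⟩

/-- the sequence of levels -/
def Lof (t : ∀ n, St n) : ℕ → Lev
  | 0 => L0
  | n + 1 => (t n).L

/-- the sequence of steps -/
def sof (t : ∀ n, St n) (h0 : DStep L0 (t 0).L) (h : ∀ n, DStep (t n).L (t (n + 1)).L) :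
    ∀ k, DStep (Lof t k) (Lof t (k + 1))
  | 0 => h0
  | n + 1 => h n

theorem Fset_eq (t : ∀ n, St n) (h0 : DStep L0 (t 0).L) (h : ∀ n, DStep (t n).L (t (n + 1)).L)
    (hA0 : (t 0).A = h0.pushS (fun _ => {0})) (hA : ∀ n, (t (n + 1)).A = (h n).pushS (t n).A)
    (n : ℕ) : Fset (Lof t) (sof t h0 h) (n + 1) = (t n).A := by
  induction n with
  | zero => exact hA0.symm
  | succ n ih =>
    have h1 : Fset (Lof t) (sof t h0 h) (n + 1 + 1) =
      (h n).pushS (Fset (Lof t) (sof t h0 h) (n + 1)) := rfl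
    rw [h1, ih, hA n]

end B16

open B16 in
/-- B16 (uses B15, B0): recursive construction (dependent choice) -/
theorem exists_pregood : ∃ (L : ℕ → Lev) (σ : ∀ k, DStep (L k) (L (k + 1))),
    Pool.Agent.H728R2.BL.PreGood L σ := by
  obtain ⟨s1, σ1, hs1, hdec1⟩ := st1_exists
  choose nx sx hx using next_exists
  let t : ∀ n, St n := fun n => Nat.rec s1 (fun n s => nx n s) n
  have h0 : DStep L0 (t 0).L := σ1
  let h0 : DStep L0 (t 0).L := σ1
  let h : ∀ n, DStep (t n).L (t (n + 1)).L := fun n => sx n (t n)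
  have hF := Fset_eq t h0 h hs1 (fun n => (hx n (t n)).1)
  have hrho : ∀ n, rho (Lof t) (sof t h0 h) (n + 1) = (t n).L.E (fun c => pol ((t n).A c)) := by
    intro n
    funext x
    unfold rho
    rw [hF n]
    rfl
  refine ⟨Lof t, sof t h0 h, ?_⟩
  refine
    { card0 := rfl
      h0 := rfl
      β0 := rfl
      grow := ?_
      h1 := ?_
      mass := ?_
      dec := ?_
      tau := ?_ }
  · intro k
    cases k with
    | zero =>
      have h1 := (t 0).hL
      change 2 * 1 ≤ (t 0).L.h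
      omega
    | succ n => exact (hx n (t n)).2.1
  · exact (t 0).hL
  · intro k hk
    cases k with
    | zero => omega
    | succ n => exact (hx n (t n)).2.2.1
  · intro k
    cases k with
    | zero =>
      intro c
      obtain ⟨p, m, hp, hd⟩ := hdec1 c
      refine ⟨p, m, hp, ?_⟩
      have h1 : (1 / ((((0 : ℕ) : ℝ) + 1) * ((Lof t 0).h : ℝ) *
          (Fintype.card (Lof t 0).Θ : ℝ))) ^ 2 = 1 := by
        have e1 : (Lof t 0).h = 1 := rfl
        have e2 : Fintype.card (Lof t 0).Θ = 1 := rfl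
        rw [e1, e2]
        norm_num
      rw [h1]
      exact hd
    | succ n =>
      intro c
      obtain ⟨p, m, hp, hd⟩ := (hx n (t n)).2.2.2.2.2 c
      refine ⟨p, m, hp, ?_⟩
      rw [hF n]
      exact hd
  · refine ⟨fun k => match k with
      | 0 => (t 0).τ
      | n + 1 => (t n).τ, ?_, ?_, ?_, ?_⟩
    · intro k
      cases k with
      | zero => exact (t 0).τpos
      | succ n => exact (t n).τpos
    · intro k
      cases k with
      | zero => exact le_refl _
      | succ n => exact (hx n (t n)).2.2.2.1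
    · intro k
      cases k with
      | zero =>
        refine (measure_mono (fun x hx => hx.1)).trans ?_
        rw [Real.volume_Icc]
        norm_num
      | succ n =>
        rw [hrho n]
        exact (t n).vol
    · intro k hk
      cases k with
      | zero => omega
      | succ n =>
        rw [hrho n, hrho (n + 1)]
        exact (hx n (t n)).2.2.2.2.1

end

end Pool.Agent.H728R2.BL
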