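import Pool.Agent.H728R2.BL.Defs2
import Pool.Agent.H728R2.BL.X.B0
import Pool.Agent.H728R2.BL.X.B0E
set_option autoImplicit false

namespace Pool.Agent.H728R2.BL

open MeasureTheory Set Filter Topology

theorem B17_aesum (μ : Measure ℝ) (u : ℕ → ℝ → ℝ) (h0 : ∀ i x, 0 ≤ u i x)
    (hi : ∀ i, Integrable (u i) μ) (hs : Summable fun i => ∫ x, u i x ∂μ) :
    (∀ᵐ x ∂μ, Summable fun i => u i x) ∧ Integrable (fun x => ∑' i, u i x) μ := by
  have hm : ∀ i, AEMeasurable (fun x => ENNReal.ofReal (u i x)) μ :=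
    fun i => (hi i).aestronglyMeasurable.aemeasurable.ennreal_ofReal
  have e1 : ∫⁻ x, ∑' i, ENNReal.ofReal (u i x) ∂μ = ∑' i, ENNReal.ofReal (∫ x, u i x ∂μ) := by
    rw [lintegral_tsum hm]
    refine tsum_congr fun i => ?_
    rw [ofReal_integral_eq_lintegral_ofReal (hi i) (Eventually.of_forall (h0 i))]
  have e2 : ∫⁻ x, ∑' i, ENNReal.ofReal (u i x) ∂μ ≠ ⊤ := by
    rw [e1]
    exact hs.tsum_ofReal_ne_top
  have e3 : ∀ᵐ x ∂μ, ∑' i, ENNReal.ofReal (u i x) < ⊤ :=
    ae_lt_top' (AEMeasurable.tsum hm) e2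
  have e4 : ∀ᵐ x ∂μ, Summable fun i => u i x := by
    filter_upwards [e3] with x hx
    have h1 := ENNReal.summable_toReal hx.ne
    refine h1.congr fun i => ?_
    rw [ENNReal.toReal_ofReal (h0 i x)]
  refine ⟨e4, ?_⟩
  have h5 : Integrable (fun x => (∑' i, ENNReal.ofReal (u i x)).toReal) μ :=
    integrable_toReal_of_lintegral_ne_top (AEMeasurable.tsum hm) e2
  refine h5.congr ?_
  filter_upwards [e4, e3] with x hx hx3
  rw [ENNReal.tsum_toReal_eq (fun i => ENNReal.ofReal_ne_top)]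
  exact tsum_congr fun i => ENNReal.toReal_ofReal (h0 i x)

theorem B17_core (μ : Measure ℝ) [IsFiniteMeasure μ] (W : ℝ → ℝ) (hW : ∀ᵐ x ∂μ, 0 < W x)
    (hW0 : ∀ x, 0 ≤ W x) (ρ : ℕ → ℝ → ℝ) (hρ0 : ∀ k x, 0 ≤ ρ k x)
    (hρi : ∀ k, Integrable (fun x => W x * ρ k x) μ) (hρi' : ∀ k, Integrable (ρ k) μ) (C : ℝ)
    (hC : ∀ k, ∫ x, ρ k x ∂μ ≤ C) (s : ℕ → ℝ) (hs0 : ∀ k, 0 ≤ s k) (hs : Summable s)
    (τ : ℕ → ℝ) (hτ : ∀ k, 0 < τ k) (hτa : ∀ k, τ (k + 1) ≤ τ k)
    (hbad : ∀ k, μ {x | W x * ρ k x ≤ τ k} ≤ ENNReal.ofReal ((1 / 2) ^ k))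
    (gg : ℕ → ℝ → ℝ) (hg0 : ∀ k x, 0 ≤ gg k x) (hgi : ∀ k, Integrable (gg k) μ)
    (hg : ∀ k, ∫ x, gg k x ∂μ ≤ (1 / 4) ^ k * min 1 (τ k))
    (hstep : ∀ k x, W x * |ρ (k + 1) x - ρ k x| ≤ s k * ρ k x + gg k x) :
    ∃ r : ℝ → ℝ, (∀ x, 0 ≤ r x) ∧ Integrable r μ ∧ (∀ᵐ x ∂μ, 0 < r x) ∧
      Tendsto (fun k => ∫ x, |W x * ρ k x - r x| ∂μ) atTop (𝓝 0) := by
  classical
  have hC0 : 0 ≤ C := (integral_nonneg (hρ0 0)).trans (hC 0)
  have hτanti : Antitone τ := antitone_nat_of_succ_le hτa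
  -- increments
  have hDi : ∀ k, Integrable (fun x => |W x * ρ (k + 1) x - W x * ρ k x|) μ :=
    fun k => ((hρi (k + 1)).sub (hρi k)).abs
  have hDle : ∀ k x, |W x * ρ (k + 1) x - W x * ρ k x| ≤ s k * ρ k x + gg k x := by
    intro k x
    have : W x * ρ (k + 1) x - W x * ρ k x = W x * (ρ (k + 1) x - ρ k x) := by ring
    rw [this, abs_mul, abs_of_nonneg (hW0 x)]
    exact hstep k x
  have hDint : ∀ k, ∫ x, |W x * ρ (k + 1) x - W x * ρ k x| ∂μ ≤ s k * C + (1 / 4) ^ k := by
    intro k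
    have h1 : ∫ x, |W x * ρ (k + 1) x - W x * ρ k x| ∂μ ≤ ∫ x, (s k * ρ k x + gg k x) ∂μ :=
      integral_mono (hDi k) (((hρi' k).const_mul _).add (hgi k)) (hDle k)
    have h2 : ∫ x, (s k * ρ k x + gg k x) ∂μ = s k * ∫ x, ρ k x ∂μ + ∫ x, gg k x ∂μ := by
      rw [integral_add ((hρi' k).const_mul _) (hgi k), integral_const_mul]
    rw [h2] at h1
    have h3 : s k * ∫ x, ρ k x ∂μ ≤ s k * C := mul_le_mul_of_nonneg_left (hC k) (hs0 k)
    have h4 : ∫ x, gg k x ∂μ ≤ (1 / 4) ^ k := by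
      refine (hg k).trans ?_
      have : (0:ℝ) ≤ (1 / 4) ^ k := by positivity
      calc (1 / 4 : ℝ) ^ k * min 1 (τ k) ≤ (1 / 4) ^ k * 1 :=
            mul_le_mul_of_nonneg_left (min_le_left _ _) this
        _ = (1 / 4) ^ k := mul_one _
    linarith
  have hgeo : Summable fun k : ℕ => ((1:ℝ) / 4) ^ k :=
    summable_geometric_of_lt_one (by norm_num) (by norm_num)
  have hDsum : Summable fun k => ∫ x, |W x * ρ (k + 1) x - W x * ρ k x| ∂μ := by
    refine Summable.of_nonneg_of_le (fun k => integral_nonneg fun x => abs_nonneg _) hDint ?_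
    exact (hs.mul_right C).add hgeo
  obtain ⟨hD1, hD2⟩ := B17_aesum μ (fun k x => |W x * ρ (k + 1) x - W x * ρ k x|)
    (fun k x => abs_nonneg _) hDi hDsum
  -- errors
  have hEi : ∀ k, Integrable (fun x => gg k x / τ k) μ := fun k => (hgi k).div_const _
  have hEsum : Summable fun k => ∫ x, gg k x / τ k ∂μ := by
    refine Summable.of_nonneg_of_le
      (fun k => integral_nonneg fun x => div_nonneg (hg0 k x) (hτ k).le) (fun k => ?_) hgeo
    rw [integral_div, div_le_iff₀ (hτ k)]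
    refine (hg k).trans ?_
    exact mul_le_mul_of_nonneg_left (min_le_right _ _) (by positivity)
  obtain ⟨hE1, -⟩ := B17_aesum μ (fun k x => gg k x / τ k)
    (fun k x => div_nonneg (hg0 k x) (hτ k).le) hEi hEsum
  -- bad sets
  have hBC : ∀ᵐ x ∂μ, ∀ᶠ k in atTop, x ∉ {x | W x * ρ k x ≤ τ k} := by
    refine ae_eventually_notMem ?_
    refine ne_top_of_le_ne_top ?_ (ENNReal.tsum_le_tsum hbad)
    exact (summable_geometric_of_lt_one (by norm_num) (by norm_num :
      ((1:ℝ) / 2) < 1)).tsum_ofReal_ne_top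
  -- the limit
  have hlim : ∀ᵐ x ∂μ, Tendsto (fun k => W x * ρ k x) atTop
      (𝓝 (limUnder atTop fun k => W x * ρ k x)) := by
    filter_upwards [hD1] with x hx
    have hc : CauchySeq fun k => W x * ρ k x := by
      refine cauchySeq_of_summable_dist ?_
      refine hx.congr fun k => ?_
      rw [dist_comm, Real.dist_eq]
    exact hc.tendsto_limUnder
  set r0 : ℝ → ℝ := fun x => limUnder atTop fun k => W x * ρ k x with hr0
  have hr0n : ∀ᵐ x ∂μ, 0 ≤ r0 x := by
    filter_upwards [hlim] with x hx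
    exact ge_of_tendsto' hx fun k => mul_nonneg (hW0 x) (hρ0 k x)
  have hm0 : AEStronglyMeasurable r0 μ :=
    aestronglyMeasurable_of_tendsto_ae atTop (fun k => (hρi k).aestronglyMeasurable) hlim
  have hdist : ∀ n, ∀ᵐ x ∂μ, |W x * ρ n x - (|r0 x|)| ≤
      ∑' k, |W x * ρ (k + 1) x - W x * ρ k x| := by
    intro n
    filter_upwards [hD1, hlim, hr0n] with x hx hx2 hx3
    have h1 := dist_le_tsum_of_dist_le_of_tendsto
      (fun k => |W x * ρ (k + 1) x - W x * ρ k x|)
      (f := fun k => W x * ρ k x) (fun k => by rw [dist_comm, Real.dist_eq]) hx hx2 n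
    rw [abs_of_nonneg hx3]
    rw [Real.dist_eq] at h1
    refine h1.trans ?_
    have h2 := hx.sum_add_tsum_nat_add n
    have h3 : 0 ≤ ∑ i ∈ Finset.range n, |W x * ρ (i + 1) x - W x * ρ i x| :=
      Finset.sum_nonneg fun i _ => abs_nonneg _
    have h4 : ∑' m, |W x * ρ (n + m + 1) x - W x * ρ (n + m) x| =
        ∑' m, |W x * ρ (m + n + 1) x - W x * ρ (m + n) x| :=
      tsum_congr fun m => by rw [add_comm n m]
    rw [h4]
    linarith
  have hrint : Integrable (fun x => |r0 x|) μ := by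
    have h1 : Integrable (fun x => |W x * ρ 0 x| +
        ∑' k, |W x * ρ (k + 1) x - W x * ρ k x|) μ := (hρi 0).abs.add hD2
    refine h1.mono' hm0.norm ?_
    filter_upwards [hdist 0] with x hx
    rw [Real.norm_eq_abs, abs_abs]
    have h2 := abs_sub_abs_le_abs_sub (|r0 x|) (W x * ρ 0 x)
    rw [abs_sub_comm, abs_abs] at h2
    linarith
  refine ⟨fun x => |r0 x|, fun x => abs_nonneg _, hrint, ?_, ?_⟩
  · -- positivity
    filter_upwards [hlim, hr0n, hE1, hBC, hW] with x hx hx0 hxE hxB hxW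
    have hSa : Summable fun k => s k / W x := hs.div_const _
    have ht1 := tendsto_sum_nat_add (fun k => s k / W x)
    have ht2 := tendsto_sum_nat_add (fun k => gg k x / τ k)
    have ev1 : ∀ᶠ k in atTop, ∑' i, s (i + k) / W x < 1 / 2 :=
      ht1.eventually_lt_const (by norm_num)
    have ev2 : ∀ᶠ k in atTop, ∑' i, gg (i + k) x / τ (i + k) < 1 / 4 :=
      ht2.eventually_lt_const (by norm_num)
    obtain ⟨k, hk1, hk2, hk3⟩ := (ev1.and (ev2.and hxB)).exists
    have hk3' : τ k < W x * ρ k x := not_le.1 hk3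
    have hSa' : Summable fun i => s (i + k) / W x := (summable_nat_add_iff k).2 hSa
    have hE' : Summable fun i => gg (i + k) x / τ (i + k) :=
      (summable_nat_add_iff k (f := fun i => gg i x / τ i)).2 hxE
    have hai : ∀ i, 0 ≤ s (i + k) / W x := fun i => div_nonneg (hs0 _) hxW.le
    have hei : ∀ i, 0 ≤ gg (i + k) x / τ (i + k) := fun i => div_nonneg (hg0 _ _) (hτ _).le
    have hind : ∀ j, (W x * ρ k x) * (1 - ∑ i ∈ Finset.range j, s (i + k) / W x)
        - ∑ i ∈ Finset.range j, gg (i + k) x ≤ W x * ρ (j + k) x := by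
      intro j
      induction j with
      | zero => simp
      | succ j ih =>
        rw [Finset.sum_range_succ, Finset.sum_range_succ]
        have hS : ∑ i ∈ Finset.range (j + 1), s (i + k) / W x ≤ ∑' i, s (i + k) / W x :=
          hSa'.sum_le_tsum _ fun i _ => hai i
        rw [Finset.sum_range_succ] at hS
        have hS0 : 0 ≤ ∑ i ∈ Finset.range j, s (i + k) / W x :=
          Finset.sum_nonneg fun i _ => hai i
        have hG0 : 0 ≤ ∑ i ∈ Finset.range j, gg (i + k) x :=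
          Finset.sum_nonneg fun i _ => hg0 _ _
        have hstep' := hstep (j + k) x
        have h1 : W x * ρ (j + k) x - W x * ρ (j + 1 + k) x ≤
            s (j + k) / W x * (W x * ρ (j + k) x) + gg (j + k) x := by
          have h2 : ρ (j + k) x - ρ (j + 1 + k) x ≤ |ρ (j + k + 1) x - ρ (j + k) x| := by
            rw [abs_sub_comm]
            have : j + 1 + k = j + k + 1 := by ring
            rw [this]
            exact le_abs_self _
          have h3 := mul_le_mul_of_nonneg_left h2 hxW.le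
          have h4 : s (j + k) / W x * (W x * ρ (j + k) x) = s (j + k) * ρ (j + k) x := by
            field_simp
          rw [h4]
          linarith
        have ha := hai j
        have ha1 : s (j + k) / W x ≤ 1 := by linarith
        set a := s (j + k) / W x with hadef
        set P := ∑ i ∈ Finset.range j, s (i + k) / W x with hP
        set G := ∑ i ∈ Finset.range j, gg (i + k) x with hG
        have hF0 : 0 ≤ W x * ρ k x := mul_nonneg hxW.le (hρ0 _ _)
        have h5 := mul_le_mul_of_nonneg_left ih (sub_nonneg.2 ha1)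
        have h6 : 0 ≤ W x * ρ k x * (P * a) := mul_nonneg hF0 (mul_nonneg hS0 ha)
        have h7 : 0 ≤ a * G := mul_nonneg ha hG0
        nlinarith
    have hlow : ∀ j, τ k / 4 ≤ W x * ρ (j + k) x := by
      intro j
      refine le_trans ?_ (hind j)
      have hS : ∑ i ∈ Finset.range j, s (i + k) / W x ≤ ∑' i, s (i + k) / W x :=
        hSa'.sum_le_tsum _ fun i _ => hai i
      have hG : ∑ i ∈ Finset.range j, gg (i + k) x / τ (i + k) ≤
          ∑' i, gg (i + k) x / τ (i + k) := hE'.sum_le_tsum _ fun i _ => hei i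
      have hG2 : ∑ i ∈ Finset.range j, gg (i + k) x ≤
          τ k * ∑ i ∈ Finset.range j, gg (i + k) x / τ (i + k) := by
        rw [Finset.mul_sum]
        refine Finset.sum_le_sum fun i _ => ?_
        have h1 : τ (i + k) ≤ τ k := hτanti (Nat.le_add_left k i)
        have h2 : gg (i + k) x = τ (i + k) * (gg (i + k) x / τ (i + k)) := by
          field_simp [(hτ (i + k)).ne']
        calc gg (i + k) x = τ (i + k) * (gg (i + k) x / τ (i + k)) := h2
          _ ≤ τ k * (gg (i + k) x / τ (i + k)) := mul_le_mul_of_nonneg_right h1 (hei i)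
      have h3 : τ k * ∑ i ∈ Finset.range j, gg (i + k) x / τ (i + k) ≤ τ k * (1 / 4) :=
        mul_le_mul_of_nonneg_left (by linarith) (hτ k).le
      have h4 : (1:ℝ) / 2 ≤ 1 - ∑ i ∈ Finset.range j, s (i + k) / W x := by linarith
      have h5 : W x * ρ k x * (1 / 2) ≤
          W x * ρ k x * (1 - ∑ i ∈ Finset.range j, s (i + k) / W x) :=
        mul_le_mul_of_nonneg_left h4 (mul_nonneg hxW.le (hρ0 _ _))
      linarith
    have hxk : Tendsto (fun j => W x * ρ (j + k) x) atTop (𝓝 (r0 x)) :=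
      (tendsto_add_atTop_iff_nat k).2 hx
    have := ge_of_tendsto' hxk hlow
    have h9 := hτ k
    rw [abs_of_nonneg hx0]
    linarith
  · -- convergence
    have h1 : Tendsto (fun k => ∫ x, |W x * ρ k x - (|r0 x|)| ∂μ) atTop (𝓝 (∫ x, (0:ℝ) ∂μ)) := by
      refine tendsto_integral_of_dominated_convergence
        (fun x => ∑' k, |W x * ρ (k + 1) x - W x * ρ k x|) (fun k => ?_) hD2 (fun k => ?_) ?_
      · exact ((hρi k).sub hrint).abs.aestronglyMeasurable
      · filter_upwards [hdist k] with x hx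
        rw [Real.norm_eq_abs, abs_abs]
        exact hx
      · filter_upwards [hlim, hr0n] with x hx hx0
        rw [abs_of_nonneg hx0]
        have hx' : Tendsto (fun k => W x * ρ k x) atTop (𝓝 (r0 x)) := hx
        have h2 := (hx'.sub_const (r0 x)).abs
        rw [sub_self, abs_zero] at h2
        exact h2
    simpa using h1

open scoped Real BigOperators

theorem B17_cont_pol (A : Finset ℕ) : Continuous (pol A) := by
  have he := Pool.Agent.H728R2.BL.e_basic.2.2.2.2.1
  unfold pol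
  exact continuous_finsetSum _ fun a _ => he.comp (continuous_const.mul continuous_id)

theorem B17_cont_rho (L : ℕ → Lev) (σ : ∀ k, DStep (L k) (L (k + 1))) (k : ℕ) :
    Continuous (rho L σ k) := by
  unfold rho Lev.E
  exact continuous_const.mul (continuous_finsetSum _ fun c _ => ((B17_cont_pol _).norm.pow 2))

theorem B17_rho_nonneg (L : ℕ → Lev) (σ : ∀ k, DStep (L k) (L (k + 1))) (k : ℕ) (x : ℝ) :
    0 ≤ rho L σ k x :=
  mul_nonneg (L k).βpos.le (Finset.sum_nonneg fun _ _ => sq_nonneg _)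

theorem B17_inv (L : ℕ → Lev) (σ : ∀ k, DStep (L k) (L (k + 1))) (k : ℕ) :
    (∀ c, ∀ a ∈ Fset L σ k c, a < (L k).h) ∧ (∀ c, (Fset L σ k c).Nonempty) := by
  induction k with
  | zero =>
    refine ⟨fun c a ha => ?_, fun c => ⟨0, Finset.mem_singleton_self 0⟩⟩
    have : a = 0 := Finset.mem_singleton.1 ha
    rw [this]
    exact (L 0).hpos
  | succ k ih =>
    have h := Pool.Agent.H728R2.BL.push_basic (σ k) (Fset L σ k) ih.1 ih.2
    exact ⟨h.2.1, h.2.2.1⟩

theorem B17_card (L : ℕ → Lev) (σ : ∀ k, DStep (L k) (L (k + 1))) (k : ℕ) :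
    (L k).β * ∑ c, ((Fset L σ k c).card : ℝ) = (L 0).β * Fintype.card (L 0).Θ := by
  induction k with
  | zero =>
    have : ∀ c : (L 0).Θ, ((Fset L σ 0 c).card : ℝ) = 1 := by
      intro c
      have : (Fset L σ 0 c) = {0} := rfl
      rw [this]; simp
    rw [Finset.sum_congr rfl fun c _ => this c]
    simp
  | succ k ih =>
    have h := Pool.Agent.H728R2.BL.push_basic (σ k) (Fset L σ k) (B17_inv L σ k).1 (B17_inv L σ k).2
    rw [← ih]
    exact h.2.2.2.1

theorem B17_int_rho (L : ℕ → Lev) (σ : ∀ k, DStep (L k) (L (k + 1))) (k : ℕ) :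
    ∫ x in (0:ℝ)..1, rho L σ k x = (L 0).β * Fintype.card (L 0).Θ := by
  rw [← B17_card L σ k]
  unfold rho Lev.E
  rw [intervalIntegral.integral_const_mul, intervalIntegral.integral_finsetSum]
  · congr 1
    exact Finset.sum_congr rfl fun c _ => Pool.Agent.H728R2.BL.pol_norm _
  · intro c _
    exact ((B17_cont_pol _).norm.pow 2).intervalIntegrable _ _

theorem B17_height (L : ℕ → Lev) (h0 : (L 0).h = 1) (hg : ∀ k, 2 * (L k).h ≤ (L (k + 1)).h)
    (k : ℕ) : 2 ^ k ≤ (L k).h := by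
  induction k with
  | zero => simp [h0]
  | succ k ih => rw [pow_succ]; have := hg k; omega

theorem B17_summable (L : ℕ → Lev) (h0 : (L 0).h = 1) (hg : ∀ k, 2 * (L k).h ≤ (L (k + 1)).h) :
    Summable fun k => 80 / Real.sqrt (L k).h := by
  have h2 : (1:ℝ) < Real.sqrt 2 := by
    rw [Real.lt_sqrt (by norm_num)]; norm_num
  have hs2 : (0:ℝ) < Real.sqrt 2 := by positivity
  have hgeo : Summable fun k : ℕ => 80 * (1 / Real.sqrt 2) ^ k := by
    refine (summable_geometric_of_lt_one (by positivity) ?_).mul_left 80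
    rw [div_lt_one hs2]; exact h2
  refine Summable.of_nonneg_of_le (fun k => by positivity) (fun k => ?_) hgeo
  have hk : Real.sqrt 2 ^ k ≤ Real.sqrt (L k).h := by
    have h3 : Real.sqrt 2 ^ k = Real.sqrt (2 ^ k) := by
      rw [Real.sqrt_eq_rpow, Real.sqrt_eq_rpow, ← Real.rpow_natCast, ← Real.rpow_natCast,
        ← Real.rpow_mul (by norm_num), ← Real.rpow_mul (by norm_num), mul_comm]
    rw [h3]
    apply Real.sqrt_le_sqrt
    exact_mod_cast B17_height L h0 hg k
  have hk0 : 0 < Real.sqrt 2 ^ k := by positivity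
  rw [one_div, inv_pow, ← div_eq_mul_inv]
  exact div_le_div_of_nonneg_left (by norm_num) hk0 hk

theorem dens_limit (L : ℕ → Lev) (σ : ∀ k, DStep (L k) (L (k + 1))) (h : Pool.Agent.H728R2.BL.PreGood L σ) :
    ∃ r : ℝ → ℝ, (∀ x, 0 ≤ r x) ∧ IntervalIntegrable r volume 0 1 ∧
    (∀ᵐ x ∂(volume.restrict (Set.Ioc (0:ℝ) 1)), 0 < r x) ∧
    Tendsto (fun k => ∫ x in (0:ℝ)..1, |W x * rho L σ k x - r x|) atTop (𝓝 0) := by
  obtain ⟨hWeq, hW0, hW4, hWc, -⟩ := Pool.Agent.H728R2.BL.W_basic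
  obtain ⟨τ, hτ, hτa, hbad, hgg⟩ := h.tau
  choose! gg hg0 hgc hgi hgs using hgg
  set μ : Measure ℝ := volume.restrict (Set.Ioc (0:ℝ) 1) with hμ
  have hle : (0:ℝ) ≤ 1 := zero_le_one
  have hint : ∀ f : ℝ → ℝ, ∫ x in (0:ℝ)..1, f x = ∫ x, f x ∂μ := fun f =>
    intervalIntegral.integral_of_le hle
  have hci : ∀ f : ℝ → ℝ, Continuous f → Integrable f μ := fun f hf =>
    (intervalIntegrable_iff_integrableOn_Ioc_of_le hle).1 (hf.intervalIntegrable 0 1)
  have hWpos : ∀ᵐ x ∂μ, 0 < W x := by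
    have h1 : ∀ᵐ x ∂μ, x ∈ Set.Ioc (0:ℝ) 1 := ae_restrict_mem measurableSet_Ioc
    have h2 : ∀ᵐ x ∂μ, x ≠ 1 := by
      have : ∀ᵐ x ∂(volume : Measure ℝ), x ≠ 1 := by
        simp [ae_iff]
      exact ae_restrict_of_ae this
    filter_upwards [h1, h2] with x hx hx1
    have hx0 : 0 < x := hx.1
    have hx2 : x < 1 := lt_of_le_of_ne hx.2 hx1
    refine lt_of_le_of_ne (hW0 x) fun h0 => ?_
    rw [hWeq x] at h0
    have hc : Real.cos (2 * π * x) = 1 := by
      simp only [Pool.Agent.H691R3.SL.cs] at h0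
      push_cast at h0
      rw [mul_one] at h0
      linarith
    have hp := Real.pi_pos
    rw [Real.cos_eq_one_iff_of_lt_of_lt (by nlinarith) (by nlinarith)] at hc
    nlinarith
  have hτanti : Antitone τ := antitone_nat_of_succ_le hτa
  obtain ⟨r, hr0, hri, hrp, hrt⟩ := B17_core μ W hWpos hW0 (fun k => rho L σ (k + 1))
    (fun k x => B17_rho_nonneg L σ (k + 1) x)
    (fun k => hci _ (hWc.mul (B17_cont_rho L σ (k + 1))))
    (fun k => hci _ (B17_cont_rho L σ (k + 1))) ((L 0).β * Fintype.card (L 0).Θ)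
    (fun k => by rw [← hint, B17_int_rho])
    (fun k => 80 / Real.sqrt (L (k + 1)).h) (fun k => by positivity)
    ((summable_nat_add_iff 1 (f := fun k => 80 / Real.sqrt (L k).h)).2
      (B17_summable L h.h0 h.grow))
    (fun k => τ (k + 1)) (fun k => hτ _) (fun k => hτa _)
    (fun k => by
      have h1 : μ {x | W x * rho L σ (k + 1) x ≤ τ (k + 1)} ≤
          volume {x : ℝ | x ∈ Set.Icc (0:ℝ) 1 ∧ W x * rho L σ (k + 1) x ≤ τ (k + 1)} := by
        rw [hμ, Measure.restrict_apply]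
        · refine measure_mono fun x hx => ⟨Set.Ioc_subset_Icc_self hx.2, hx.1⟩
        · exact measurableSet_le (hWc.mul (B17_cont_rho L σ (k + 1))).measurable
            measurable_const
      refine h1.trans ((hbad (k + 1)).trans ?_)
      refine ENNReal.ofReal_le_ofReal ?_
      exact pow_le_pow_of_le_one (by norm_num) (by norm_num) (Nat.le_succ k))
    (fun k => gg (k + 1)) (fun k x => hg0 (k + 1) (Nat.le_add_left 1 k) x)
    (fun k => hci _ (hgc (k + 1) (Nat.le_add_left 1 k)))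
    (fun k => by
      rw [← hint]
      refine (hgi (k + 1) (Nat.le_add_left 1 k)).trans ?_
      refine mul_le_mul_of_nonneg_right ?_ (le_min zero_le_one (hτ _).le)
      exact pow_le_pow_of_le_one (by norm_num) (by norm_num) (Nat.le_succ k))
    (fun k x => hgs (k + 1) (Nat.le_add_left 1 k) x)
  refine ⟨r, hr0, (intervalIntegrable_iff_integrableOn_Ioc_of_le hle).2 hri, hrp, ?_⟩
  rw [← tendsto_add_atTop_iff_nat 1]
  refine hrt.congr fun k => ?_
  rw [hint]

end Pool.Agent.H728R2.BL
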