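import Pool.Agent.H728R2.BL.Defs2
import Pool.Agent.H728R2.BL.X.B0E
import Pool.Agent.H728R2.BL.X.B16
import Pool.Agent.H728R2.BL.X.B17
namespace Pool.Agent.H728R2.BL

open MeasureTheory Set Filter Topology Pool.Agent.H691R3.SL
open scoped Real BigOperators

noncomputable section

def B18_scaleL (L : Lev) (s : ℝ) (hs : 0 < s) : Lev :=
  { L with β := s * L.β, βpos := mul_pos hs L.βpos }

def B18_scaleS {L L' : Lev} (σ : DStep L L') (s : ℝ) (hs : 0 < s) :
    DStep (B18_scaleL L s hs) (B18_scaleL L' s hs) where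
  M := σ.M
  hM := σ.hM
  cl := σ.cl
  bal := σ.bal
  pos := σ.pos
  pos0 := σ.pos0
  sep := σ.sep
  top := σ.top
  hβ := by
    have := σ.hβ
    show s * L'.β * σ.M * Fintype.card L'.Θ = s * L.β * Fintype.card L.Θ
    calc s * L'.β * σ.M * Fintype.card L'.Θ = s * (L'.β * σ.M * Fintype.card L'.Θ) := by ring
      _ = s * (L.β * Fintype.card L.Θ) := by rw [this]
      _ = _ := by ring

theorem B18_Fset (L : ℕ → Lev) (σ : ∀ k, DStep (L k) (L (k + 1))) (s : ℝ) (hs : 0 < s) (k : ℕ) :
    (Fset (fun k => B18_scaleL (L k) s hs) (fun k => B18_scaleS (σ k) s hs) k :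
      (L k).Θ → Finset ℕ) = Fset L σ k := by
  induction k with
  | zero => rfl
  | succ k ih =>
      show (σ k).pushS (Fset (fun k => B18_scaleL (L k) s hs)
        (fun k => B18_scaleS (σ k) s hs) k : (L k).Θ → Finset ℕ) = (σ k).pushS (Fset L σ k)
      rw [ih]

theorem B18_E (L : Lev) (s : ℝ) (hs : 0 < s) (q : L.Θ → ℝ → ℂ) (x : ℝ) :
    (B18_scaleL L s hs).E q x = s * L.E q x := by
  show s * L.β * ∑ c, ‖q c x‖ ^ 2 = s * (L.β * ∑ c, ‖q c x‖ ^ 2)
  ring

theorem B18_mass (L : Lev) (s : ℝ) (hs : 0 < s) :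
    (B18_scaleL L s hs).mass = s * L.mass := by
  show s * L.β * Fintype.card L.Θ * L.h = s * (L.β * Fintype.card L.Θ * L.h)
  ring

theorem B18_E_nonneg (L : Lev) (q : L.Θ → ℝ → ℂ) (x : ℝ) : 0 ≤ L.E q x :=
  mul_nonneg L.βpos.le (Finset.sum_nonneg fun _ _ => sq_nonneg _)

theorem B18_W_nonneg (x : ℝ) : 0 ≤ W x := sq_nonneg _

theorem B18_decErr {L L' : Lev} (σ : DStep L L') (s : ℝ) (hs : 0 < s) (hs1 : s ≤ 1)
    (A : L.Θ → Finset ℕ) (c : L.Θ) (p : ℤ →₀ ℂ) (m : ℕ) :
    decErr (B18_scaleS σ s hs) (A : (B18_scaleL L s hs).Θ → Finset ℕ)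
      (c : (B18_scaleL L s hs).Θ) p m ≤ decErr σ A c p m := by
  have h1 : (∫ x in (0:ℝ)..1, W x * (s * L'.E (fun c' x => ev p x * σ.push (fun d => pol (A d)) c' x
      - σ.push (fun d _ => if d = c then 1 else 0) c' x) x))
      = s * ∫ x in (0:ℝ)..1, W x * L'.E (fun c' x => ev p x * σ.push (fun d => pol (A d)) c' x
      - σ.push (fun d _ => if d = c then 1 else 0) c' x) x := by
    rw [← intervalIntegral.integral_const_mul]
    apply intervalIntegral.integral_congr
    intro x _
    show W x * (s * L'.E (fun c' x => ev p x * σ.push (fun d => pol (A d)) c' x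
      - σ.push (fun d _ => if d = c then 1 else 0) c' x) x) = _
    ring
  have h2 : 0 ≤ ∫ x in (0:ℝ)..1, W x * L'.E (fun c' x => ev p x * σ.push (fun d => pol (A d)) c' x
      - σ.push (fun d _ => if d = c then 1 else 0) c' x) x := by
    apply intervalIntegral.integral_nonneg (by norm_num)
    intro x _
    exact mul_nonneg (B18_W_nonneg x) (B18_E_nonneg _ _ _)
  have h5 : decErr (B18_scaleS σ s hs) (A : (B18_scaleL L s hs).Θ → Finset ℕ)
      (c : (B18_scaleL L s hs).Θ) p m
      = (∫ x in (0:ℝ)..1, W x * (s * L'.E (fun c' x => ev p x * σ.push (fun d => pol (A d)) c' x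
      - σ.push (fun d _ => if d = c then 1 else 0) c' x) x))
      + 4 * (l1 p + 1) ^ 2 * (2 * m + 1) / L'.h := by
    unfold decErr
    congr 1
    apply intervalIntegral.integral_congr
    intro x _
    exact congrArg (fun y => W x * y) (B18_E L' s hs _ x)
  rw [h5, h1]
  unfold decErr
  have h6 : s * (∫ x in (0:ℝ)..1, W x * L'.E (fun c' x => ev p x * σ.push (fun d => pol (A d)) c' x
      - σ.push (fun d _ => if d = c then 1 else 0) c' x) x) ≤
      1 * ∫ x in (0:ℝ)..1, W x * L'.E (fun c' x => ev p x * σ.push (fun d => pol (A d)) c' x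
      - σ.push (fun d _ => if d = c then 1 else 0) c' x) x :=
    mul_le_mul_of_nonneg_right hs1 h2
  rw [one_mul] at h6
  exact add_le_add h6 le_rfl

theorem B18_height (L : ℕ → Lev) (h0 : (L 0).h = 1) (grow : ∀ k, 2 * (L k).h ≤ (L (k + 1)).h)
    (k : ℕ) : 2 ^ k ≤ (L k).h := by
  induction k with
  | zero => simp [h0]
  | succ k ih => calc 2 ^ (k + 1) = 2 * 2 ^ k := by ring
      _ ≤ 2 * (L k).h := by omega
      _ ≤ _ := grow k

theorem B18_massbound (L : ℕ → Lev) (h0 : (L 0).h = 1)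
    (grow : ∀ k, 2 * (L k).h ≤ (L (k + 1)).h) (hone : ∀ k, 1 ≤ (L k).mass)
    (mass : ∀ k, 1 ≤ k →
      (L (k + 1)).mass ≤ (L k).mass * (1 + 2 / Real.sqrt (L k).h) + (1 / 2) ^ k) :
    ∃ B : ℝ, ∀ k, (L k).mass ≤ B := by
  set b : ℕ → ℝ := fun k => 2 * (Real.sqrt (1 / 2)) ^ k + (1 / 2) ^ k with hb
  have hbs : Summable b := by
    apply Summable.add
    · apply Summable.mul_left
      apply summable_geometric_of_lt_one (Real.sqrt_nonneg _)
      rw [Real.sqrt_lt' (by norm_num)]
      norm_num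
    · exact summable_geometric_of_lt_one (by norm_num) (by norm_num)
  have hb0 : ∀ k, 0 ≤ b k := fun k => by positivity
  have hstep : ∀ k, 1 ≤ k → (L (k + 1)).mass ≤ (L k).mass * Real.exp (b k) := by
    intro k hk
    have h1 := mass k hk
    have h2 : 2 / Real.sqrt (L k).h ≤ 2 * (Real.sqrt (1 / 2)) ^ k := by
      have h3 : Real.sqrt ((2:ℝ) ^ k) ≤ Real.sqrt (L k).h := by
        apply Real.sqrt_le_sqrt
        exact_mod_cast B18_height L h0 grow k
      have h4 : (Real.sqrt (1 / 2)) ^ k = 1 / Real.sqrt ((2:ℝ) ^ k) := by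
        rw [Real.sqrt_div (by norm_num), Real.sqrt_one, div_pow, one_pow]
        congr 1
        symm
        rw [Real.sqrt_eq_iff_mul_self_eq (by positivity) (by positivity), ← mul_pow,
          Real.mul_self_sqrt (by norm_num)]
      rw [h4]
      have h5 : 0 < Real.sqrt ((2:ℝ) ^ k) := Real.sqrt_pos.mpr (by positivity)
      rw [show 2 * (1 / Real.sqrt ((2:ℝ) ^ k)) = 2 / Real.sqrt ((2:ℝ) ^ k) by ring]
      exact div_le_div_of_nonneg_left (by norm_num) h5 h3
    have hm := hone k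
    have h6 : (L (k + 1)).mass ≤ (L k).mass * (1 + b k) := by
      have : (1 / 2 : ℝ) ^ k ≤ (L k).mass * (1 / 2) ^ k := by
        have : (0:ℝ) ≤ (1 / 2) ^ k := by positivity
        nlinarith
      have h7 : (L k).mass * (1 + 2 / Real.sqrt (L k).h)
          ≤ (L k).mass * (1 + 2 * (Real.sqrt (1 / 2)) ^ k) := by
        apply mul_le_mul_of_nonneg_left _ (by linarith)
        linarith
      calc (L (k + 1)).mass ≤ _ := h1
        _ ≤ (L k).mass * (1 + 2 * (Real.sqrt (1 / 2)) ^ k) + (L k).mass * (1 / 2) ^ k :=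
            add_le_add h7 this
        _ = (L k).mass * (1 + b k) := by simp only [hb]; ring
    refine h6.trans ?_
    apply mul_le_mul_of_nonneg_left _ (by linarith)
    have := Real.add_one_le_exp (b k)
    linarith
  refine ⟨max (L 0).mass ((L 1).mass * Real.exp (∑' k, b k)), fun k => ?_⟩
  rcases Nat.eq_zero_or_pos k with rfl | hk
  · exact le_max_left _ _
  refine le_trans ?_ (le_max_right _ _)
  have key : ∀ n, (L (n + 1)).mass ≤ (L 1).mass * Real.exp (∑ j ∈ Finset.range n, b (j + 1)) := by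
    intro n
    induction n with
    | zero => simp
    | succ n ih =>
        rw [Finset.sum_range_succ, Real.exp_add, ← mul_assoc]
        exact (hstep (n + 1) (by omega)).trans
          (mul_le_mul_of_nonneg_right ih (Real.exp_pos _).le)
  obtain ⟨n, rfl⟩ : ∃ n, k = n + 1 := ⟨k - 1, by omega⟩
  refine (key n).trans ?_
  apply mul_le_mul_of_nonneg_left _ (by linarith [hone 1])
  apply Real.exp_le_exp.mpr
  have h8 : ∑ j ∈ Finset.range n, b (j + 1) ≤ ∑ j ∈ Finset.range (n + 1), b j := by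
    rw [Finset.sum_range_succ']
    linarith [hb0 0]
  exact h8.trans (hbs.sum_le_tsum _ (fun i _ => hb0 i))

/-- B18 -/
theorem exists_good : ∃ (L : ℕ → Lev) (σ : ∀ k, DStep (L k) (L (k + 1))), Good L σ := by
  obtain ⟨L, σ, h⟩ := Pool.Agent.H728R2.BL.exists_pregood
  obtain ⟨r, hr0, hri, hrp, hrt⟩ := Pool.Agent.H728R2.BL.dens_limit L σ h
  have hmono : ∀ k, (L k).mass ≤ (L (k + 1)).mass := fun k =>
    (Pool.Agent.H728R2.BL.push_basic (σ k) (fun _ => {0}) (fun c a ha => by
      rw [Finset.mem_singleton] at ha; rw [ha]; exact (L k).hpos)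
      (fun _ => Finset.singleton_nonempty _)).2.2.2.2
  have hmono' : Monotone (fun k => (L k).mass) := monotone_nat_of_le_succ hmono
  have hm0 : (L 0).mass = 1 := by
    unfold Lev.mass
    rw [h.card0, h.h0, h.β0]
    norm_num
  have hone : ∀ k, 1 ≤ (L k).mass := fun k => hm0 ▸ hmono' (Nat.zero_le k)
  obtain ⟨B, hB⟩ := B18_massbound L h.h0 h.grow hone h.mass
  have hbdd : BddAbove (Set.range fun k => (L k).mass) := ⟨B, by rintro _ ⟨k, rfl⟩; exact hB k⟩
  have hlim := tendsto_atTop_ciSup hmono' hbdd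
  set m := ⨆ k, (L k).mass with hm
  have hm1 : 1 ≤ m := (hone 0).trans (le_ciSup hbdd 0)
  have hmpos : 0 < m := by linarith
  have hs : 0 < 1 / m := by positivity
  have hs1 : 1 / m ≤ 1 := by rw [div_le_one hmpos]; exact hm1
  refine ⟨fun k => B18_scaleL (L k) (1 / m) hs, fun k => B18_scaleS (σ k) (1 / m) hs, ?_⟩
  have hrho : ∀ k x, rho (fun k => B18_scaleL (L k) (1 / m) hs)
      (fun k => B18_scaleS (σ k) (1 / m) hs) k x = 1 / m * rho L σ k x := by
    intro k x
    unfold rho
    have h1 := B18_Fset L σ (1 / m) hs k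
    have h2 := B18_E (L k) (1 / m) hs (fun c => pol (Fset L σ k c)) x
    rw [← h1] at h2
    refine h2.trans ?_
    rw [h1]
  refine ⟨h.card0, h.h0, ?_, ?_, ?_, ?_⟩
  · have : Tendsto (fun k => 1 / m * (L k).mass) atTop (𝓝 (1 / m * m)) := hlim.const_mul _
    rw [one_div, inv_mul_cancel₀ hmpos.ne'] at this
    refine this.congr fun k => ?_
    rw [B18_mass, one_div]
  · show Tendsto (fun k => (L k).h) atTop atTop
    exact tendsto_atTop_mono (B18_height L h.h0 h.grow)
      (tendsto_pow_atTop_atTop_of_one_lt (by norm_num))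
  · intro k c
    obtain ⟨p, n, hp, hd⟩ := h.dec k c
    refine ⟨p, n, hp, ?_⟩
    have h1 := B18_decErr (σ k) (1 / m) hs hs1 (Fset L σ k) c p n
    have h2 := B18_Fset L σ (1 / m) hs k
    rw [← h2] at h1
    refine h1.trans ?_
    rw [h2]
    exact hd
  · refine ⟨fun x => 1 / m * r x, fun x => mul_nonneg hs.le (hr0 x), hri.const_mul _, ?_, ?_⟩
    · filter_upwards [hrp] with x hx
      positivity
    · have : Tendsto (fun k => 1 / m * ∫ x in (0:ℝ)..1, |W x * rho L σ k x - r x|) atTop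
          (𝓝 (1 / m * 0)) := hrt.const_mul _
      rw [mul_zero] at this
      refine this.congr fun k => ?_
      rw [← intervalIntegral.integral_const_mul]
      apply intervalIntegral.integral_congr
      intro x _
      simp only [hrho]
      rw [show W x * (1 / m * rho L σ k x) - 1 / m * r x = 1 / m * (W x * rho L σ k x - r x) by ring,
        abs_mul, abs_of_pos hs]

end

end Pool.Agent.H728R2.BL
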